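import Pool.Agent.Helper23.MV.StE
import Pool.Agent.Helper92.GK.M_LAN

/-!
# Project MV: LD2 (Landau's lemma, with all zeros and multiplicities)
-/

set_option autoImplicit false

namespace Pool.Agent.Helper23.MV

open Filter Topology
open Pool.Agent.Helper92.GK

/-- The Blaschke identity on the circle. -/
private theorem blaschke_LD2 (a w : ℂ) (r : ℝ) (hr : 0 < r) (hw : ‖w‖ = r) :
    ‖((r : ℂ) ^ 2 - (starRingEnd ℂ) a * w) / r‖ = ‖w - a‖ := by
  have h1 : (r : ℂ) ^ 2 = (starRingEnd ℂ) w * w := by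
    rw [← hw, Complex.conj_mul']
  have h2 : (r : ℂ) ^ 2 - (starRingEnd ℂ) a * w = (starRingEnd ℂ) (w - a) * w := by
    rw [h1, map_sub]
    ring
  rw [h2, norm_div, norm_mul, RCLike.norm_conj, Complex.norm_real, Real.norm_of_nonneg hr.le, hw]
  field_simp

theorem hLd2 : StLd2 := by
  refine ⟨48, by norm_num, fun f s0 r M hr hM hf hf0 hb => ?_⟩
  have hM0 : 0 < M := by linarith
  set U : Set ℂ := Metric.ball s0 (2 * r) with hUdef
  have hUo : IsOpen U := Metric.isOpen_ball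
  have hUc : IsPreconnected U := (convex_ball s0 (2 * r)).isPreconnected
  have hs0U : s0 ∈ U := Metric.mem_ball_self (by linarith)
  have hfan : AnalyticOnNhd ℂ f U := hf.analyticOnNhd hUo
  have hne : ∀ ρ ∈ U, ¬ ∀ᶠ z in 𝓝 ρ, f z = 0 := by
    intro ρ hρ h
    exact hf0 (hfan.eqOn_zero_of_preconnected_of_eventuallyEq_zero hUc hρ h hs0U)
  -- the zeros in the closed ball of radius `r / 2`
  have hsub : Metric.closedBall s0 (r / 2) ⊆ U := Metric.closedBall_subset_ball (by linarith)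
  have hfin : {z : ℂ | z ∈ Metric.closedBall s0 (r / 2) ∧ f z = 0}.Finite := by
    by_contra hinf
    obtain ⟨x, hx, hacc⟩ := Set.Infinite.exists_accPt_of_subset_isCompact (s := {z : ℂ |
      z ∈ Metric.closedBall s0 (r / 2) ∧ f z = 0}) hinf
      (isCompact_closedBall s0 (r / 2)) (fun z hz => hz.1)
    have h1 : ∃ᶠ z in 𝓝[≠] x, f z = 0 := by
      have h2 := accPt_iff_frequently_nhdsNE.1 hacc
      exact h2.mono fun z hz => hz.2
    exact hf0 (hfan.eqOn_zero_of_preconnected_of_frequently_eq_zero hUc (hsub hx) h1 hs0U)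
  set Z : Finset ℂ := hfin.toFinset with hZdef
  have hZm : ∀ ρ, ρ ∈ Z ↔ (‖ρ - s0‖ ≤ r / 2 ∧ f ρ = 0) := by
    intro ρ
    rw [hZdef, Set.Finite.mem_toFinset]
    simp [dist_eq_norm]
  have hZU : ∀ ρ ∈ Z, ρ ∈ U := by
    intro ρ hρ
    exact hsub (by simpa [dist_eq_norm] using ((hZm ρ).1 hρ).1)
  obtain ⟨m, g, hg, hgZ, hfg⟩ := extract_finset f U hUo hf hne Z hZU
  have hneq : ∀ ρ ∈ Z, s0 - ρ ≠ 0 := by
    intro ρ hρ h
    have h1 := ((hZm ρ).1 hρ).2
    rw [← sub_eq_zero.1 h] at h1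
    exact hf0 h1
  have hgs0 : g s0 ≠ 0 := by
    intro h
    apply hf0
    rw [hfg s0, h, mul_zero]
  -- the exponents are the orders
  have hord : ∀ ρ ∈ Z, analyticOrderNatAt f ρ = m ρ := by
    classical
    intro ρ hρ
    have hρU := hZU ρ hρ
    have han : AnalyticAt ℂ f ρ := hfan ρ hρU
    have htop : analyticOrderAt f ρ ≠ ⊤ := by
      rw [Ne, analyticOrderAt_eq_top]
      exact hne ρ hρU
    rw [han.analyticOrderNatAt_eq_iff htop]
    refine ⟨fun z => (∏ τ ∈ Z.erase ρ, (z - τ) ^ m τ) * g z, ?_, ?_, ?_⟩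
    · have hga : AnalyticAt ℂ g ρ := hg.analyticAt (hUo.mem_nhds hρU)
      have hp : AnalyticAt ℂ (fun z : ℂ => ∏ τ ∈ Z.erase ρ, (z - τ) ^ m τ) ρ := by
        apply Differentiable.analyticAt
        exact Differentiable.fun_finsetProd fun τ _ => by fun_prop
      exact hp.mul hga
    · refine mul_ne_zero (Finset.prod_ne_zero_iff.2 fun τ hτ => pow_ne_zero _ ?_) (hgZ ρ hρ)
      exact sub_ne_zero.2 (Finset.ne_of_mem_erase hτ).symm
    · refine Eventually.of_forall fun z => ?_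
      rw [hfg z, ← Finset.mul_prod_erase Z _ hρ, smul_eq_mul]
      ring
  -- `g` has no zeros in the ball of radius `r / 2`
  have hgne : ∀ s ∈ Metric.ball s0 (r / 2), g s ≠ 0 := by
    intro s hs h
    have hsZ : s ∈ Z := by
      rw [hZm]
      refine ⟨by simpa [dist_eq_norm] using (Metric.mem_ball.1 hs).le, ?_⟩
      rw [hfg s, h, mul_zero]
    exact hgZ s hsZ h
  have hcl : Metric.closedBall s0 r ⊆ U := Metric.closedBall_subset_ball (by linarith)
  -- number of zeros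
  have hcount : ((∑ ρ ∈ Z, m ρ : ℕ) : ℝ) ≤ 2 * M := by
    set G : ℂ → ℂ := fun z => g z *
      ∏ ρ ∈ Z, (((r : ℂ) ^ 2 - (starRingEnd ℂ) (ρ - s0) * (z - s0)) / r) ^ m ρ with hG
    have hGd : DifferentiableOn ℂ G U := by
      apply hg.mul
      apply Differentiable.differentiableOn
      exact Differentiable.fun_finsetProd fun τ _ => by fun_prop
    have hdc : DiffContOnCl ℂ G (Metric.ball s0 r) := by
      refine ⟨hGd.mono ((Metric.ball_subset_closedBall).trans hcl), ?_⟩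
      rw [closure_ball s0 hr.ne']
      exact hGd.continuousOn.mono hcl
    have hs' : s0 ∈ closure (Metric.ball s0 r) := subset_closure (Metric.mem_ball_self hr)
    have h1 : ‖G s0‖ ≤ Real.exp M * ‖f s0‖ := by
      refine Complex.norm_le_of_forall_mem_frontier_norm_le Metric.isBounded_ball hdc ?_ hs'
      intro z hz'
      rw [frontier_ball s0 hr.ne'] at hz'
      have hzr : ‖z - s0‖ = r := by simpa [dist_eq_norm] using hz'
      have hfz := hb z (Metric.sphere_subset_closedBall hz')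
      have h2 : ‖G z‖ = ‖f z‖ := by
        rw [hG, hfg z, norm_mul, norm_mul, norm_prod, norm_prod, mul_comm]
        congr 1
        apply Finset.prod_congr rfl
        intro ρ _
        rw [norm_pow, norm_pow, blaschke_LD2 (ρ - s0) (z - s0) r hr hzr]
        congr 2
        ring
      rw [h2]
      exact hfz
    have h2 : ‖G s0‖ = ‖g s0‖ * ∏ ρ ∈ Z, r ^ m ρ := by
      rw [hG]
      simp only [sub_self, mul_zero, sub_zero]
      rw [norm_mul, norm_prod]
      congr 1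
      apply Finset.prod_congr rfl
      intro ρ _
      rw [norm_pow]
      congr 1
      rw [norm_div, norm_pow, Complex.norm_real, Real.norm_of_nonneg hr.le]
      field_simp
    have h3 : ‖f s0‖ = (∏ ρ ∈ Z, ‖s0 - ρ‖ ^ m ρ) * ‖g s0‖ := by
      rw [hfg s0, norm_mul, norm_prod]
      congr 1
      apply Finset.prod_congr rfl
      intro ρ _
      rw [norm_pow]
    have h4 : (∏ ρ ∈ Z, ‖s0 - ρ‖ ^ m ρ) * (2 : ℝ) ^ (∑ ρ ∈ Z, m ρ) ≤ ∏ ρ ∈ Z, r ^ m ρ := by
      rw [← Finset.prod_pow_eq_pow_sum, ← Finset.prod_mul_distrib]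
      apply Finset.prod_le_prod
      · intro ρ _
        positivity
      · intro ρ hρ
        rw [← mul_pow]
        apply pow_le_pow_left₀ (by positivity)
        have h5 := ((hZm ρ).1 hρ).1
        rw [norm_sub_rev]
        linarith
    have hPpos : 0 < ∏ ρ ∈ Z, ‖s0 - ρ‖ ^ m ρ :=
      Finset.prod_pos fun ρ hρ => pow_pos (norm_pos_iff.2 (hneq ρ hρ)) _
    have hgpos : 0 < ‖g s0‖ := norm_pos_iff.2 hgs0
    have h6 : (2 : ℝ) ^ (∑ ρ ∈ Z, m ρ) ≤ Real.exp M := by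
      rw [h2, h3] at h1
      have h7 : ((∏ ρ ∈ Z, ‖s0 - ρ‖ ^ m ρ) * ‖g s0‖) * (2 : ℝ) ^ (∑ ρ ∈ Z, m ρ) ≤
          ((∏ ρ ∈ Z, ‖s0 - ρ‖ ^ m ρ) * ‖g s0‖) * Real.exp M := by
        calc ((∏ ρ ∈ Z, ‖s0 - ρ‖ ^ m ρ) * ‖g s0‖) * (2 : ℝ) ^ (∑ ρ ∈ Z, m ρ)
            = ((∏ ρ ∈ Z, ‖s0 - ρ‖ ^ m ρ) * (2 : ℝ) ^ (∑ ρ ∈ Z, m ρ)) * ‖g s0‖ := by ring
          _ ≤ (∏ ρ ∈ Z, r ^ m ρ) * ‖g s0‖ := mul_le_mul_of_nonneg_right h4 hgpos.le
          _ = ‖g s0‖ * ∏ ρ ∈ Z, r ^ m ρ := by ring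
          _ ≤ _ := h1
          _ = _ := by ring
      exact le_of_mul_le_mul_left h7 (mul_pos hPpos hgpos)
    have h8 : ((∑ ρ ∈ Z, m ρ : ℕ) : ℝ) * Real.log 2 ≤ M := by
      rw [← Real.log_pow]
      calc Real.log ((2 : ℝ) ^ (∑ ρ ∈ Z, m ρ)) ≤ Real.log (Real.exp M) :=
            Real.log_le_log (by positivity) h6
        _ = M := Real.log_exp M
    have h9 : (1 : ℝ) / 2 ≤ Real.log 2 := by
      have := Real.log_two_gt_d9
      linarith
    have h10 : (0 : ℝ) ≤ ((∑ ρ ∈ Z, m ρ : ℕ) : ℝ) := Nat.cast_nonneg _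
    nlinarith
  -- bound for `g` on the ball of radius `r`
  have hgb : ∀ s ∈ Metric.closedBall s0 r, ‖g s‖ ≤ Real.exp M * ‖g s0‖ := by
    intro s hs
    have hdc : DiffContOnCl ℂ g (Metric.ball s0 r) := by
      refine ⟨hg.mono ((Metric.ball_subset_closedBall).trans hcl), ?_⟩
      rw [closure_ball s0 hr.ne']
      exact hg.continuousOn.mono hcl
    have hs' : s ∈ closure (Metric.ball s0 r) := by rwa [closure_ball s0 hr.ne']
    refine Complex.norm_le_of_forall_mem_frontier_norm_le Metric.isBounded_ball hdc ?_ hs'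
    intro z hz'
    rw [frontier_ball s0 hr.ne'] at hz'
    have hzr : ‖z - s0‖ = r := by simpa [dist_eq_norm] using hz'
    have hle : ∀ ρ ∈ Z, ‖s0 - ρ‖ ≤ ‖z - ρ‖ := by
      intro ρ hρ
      have h1 : ‖ρ - s0‖ ≤ r / 2 := ((hZm ρ).1 hρ).1
      have h2 : ‖z - s0‖ ≤ ‖z - ρ‖ + ‖ρ - s0‖ := norm_sub_le_norm_sub_add_norm_sub z ρ s0
      rw [norm_sub_rev s0 ρ]
      linarith
    have hfz := hb z (Metric.sphere_subset_closedBall hz')
    rw [hfg z, hfg s0, norm_mul, norm_mul, norm_prod, norm_prod] at hfz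
    have hP : ∏ ρ ∈ Z, ‖(s0 - ρ) ^ m ρ‖ ≤ ∏ ρ ∈ Z, ‖(z - ρ) ^ m ρ‖ := by
      apply Finset.prod_le_prod (fun _ _ => norm_nonneg _)
      intro ρ hρ
      rw [norm_pow, norm_pow]
      exact pow_le_pow_left₀ (norm_nonneg _) (hle ρ hρ) _
    have hPpos : 0 < ∏ ρ ∈ Z, ‖(s0 - ρ) ^ m ρ‖ :=
      Finset.prod_pos fun ρ hρ => norm_pos_iff.2 (pow_ne_zero _ (hneq ρ hρ))
    have h3 : (∏ ρ ∈ Z, ‖(s0 - ρ) ^ m ρ‖) * ‖g z‖ ≤
        (∏ ρ ∈ Z, ‖(s0 - ρ) ^ m ρ‖) * (Real.exp M * ‖g s0‖) := by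
      calc (∏ ρ ∈ Z, ‖(s0 - ρ) ^ m ρ‖) * ‖g z‖ ≤ (∏ ρ ∈ Z, ‖(z - ρ) ^ m ρ‖) * ‖g z‖ :=
            mul_le_mul_of_nonneg_right hP (norm_nonneg _)
        _ ≤ Real.exp M * ((∏ ρ ∈ Z, ‖(s0 - ρ) ^ m ρ‖) * ‖g s0‖) := hfz
        _ = _ := by ring
    exact le_of_mul_le_mul_left h3 hPpos
  -- logarithm of `g`
  have hr2 : 0 < r / 2 := by linarith
  have hgd2 : DifferentiableOn ℂ g (Metric.ball s0 (r / 2)) :=
    hg.mono (Metric.ball_subset_ball (by linarith))
  obtain ⟨h, h0, hd, hder, hfe⟩ := exists_log_ball g s0 (r / 2) hr2 hgd2 hgne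
  have hbd : ∀ s ∈ Metric.ball s0 (r / 2), ‖g s‖ ≤ Real.exp M * ‖g s0‖ := by
    intro s hs
    exact hgb s (Metric.ball_subset_closedBall (Metric.ball_subset_ball (by linarith) hs))
  refine ⟨Z, fun ρ => by rw [hZm, and_comm], ?_, ?_⟩
  · have h1 : (∑ ρ ∈ Z, (analyticOrderNatAt f ρ : ℝ)) = ((∑ ρ ∈ Z, m ρ : ℕ) : ℝ) := by
      rw [Nat.cast_sum]
      exact Finset.sum_congr rfl fun ρ hρ => by rw [hord ρ hρ]
    rw [h1]
    linarith
  · intro s hs hfs
    have hsb : s ∈ Metric.ball s0 (r / 2) := by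
      rw [Metric.mem_ball, dist_eq_norm]
      linarith
    have hsU : s ∈ U := Metric.ball_subset_ball (by linarith) hsb
    have hgs : g s ≠ 0 := hgne s hsb
    have hneqs : ∀ ρ ∈ Z, s - ρ ≠ 0 := by
      intro ρ hρ h
      rw [sub_eq_zero.1 h] at hfs
      exact hfs ((hZm ρ).1 hρ).2
    have hders : ‖deriv g s / g s‖ ≤ 48 * M / r := by
      have h1 : ‖deriv h s‖ ≤ 6 * M / (r / 8) := by
        apply Complex.norm_deriv_le_of_forall_mem_sphere_norm_le (by linarith)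
        · refine (hd.mono ?_).diffContOnCl
          rw [closure_ball s (by linarith)]
          apply Metric.closedBall_subset_ball'
          rw [dist_eq_norm]
          linarith
        · intro z hz'
          have hzr : ‖z - s‖ = r / 8 := by simpa [dist_eq_norm] using hz'
          have hzs : ‖z - s0‖ ≤ 3 * r / 8 := by
            have := norm_sub_le_norm_sub_add_norm_sub z s s0
            linarith
          have h2 := log_ball_bound g h s0 (r / 2) M hr2 hM0 h0 hd hgs0 hfe hbd z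
            (by rw [Metric.mem_ball, dist_eq_norm]; linarith)
          refine h2.trans ?_
          rw [div_le_iff₀ (by linarith)]
          nlinarith [mul_nonneg hM0.le (sub_nonneg.2 hzs)]
      rw [(hder s hsb).deriv] at h1
      refine h1.trans (le_of_eq ?_)
      field_simp
      norm_num
    have hgd : DifferentiableAt ℂ g s := hg.differentiableAt (hUo.mem_nhds hsU)
    have hPs : ∏ ρ ∈ Z, (s - ρ) ^ m ρ ≠ 0 :=
      Finset.prod_ne_zero_iff.2 fun ρ hρ => pow_ne_zero _ (hneqs ρ hρ)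
    have hld : deriv f s / f s = ∑ ρ ∈ Z, (m ρ : ℂ) * (1 / (s - ρ)) + deriv g s / g s := by
      have h1 : f = fun z => (∏ ρ ∈ Z, (z - ρ) ^ m ρ) * g z := funext hfg
      have h2 : deriv f s / f s = logDeriv f s := (logDeriv_apply f s).symm
      rw [h2]
      conv_lhs => rw [h1]
      rw [logDeriv_mul s hPs hgs (by fun_prop) hgd, logDeriv_apply g s]
      congr 1
      rw [logDeriv_prod (f := fun ρ z => (z - ρ) ^ m ρ)
        (fun ρ hρ => pow_ne_zero _ (hneqs ρ hρ)) (fun ρ _ => by fun_prop)]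
      apply Finset.sum_congr rfl
      intro ρ hρ
      rw [logDeriv_fun_pow (by fun_prop), logDeriv_apply]
      simp [deriv_sub_const]
    have hsum : ∑ ρ ∈ Z, (analyticOrderNatAt f ρ : ℂ) / (s - ρ) =
        ∑ ρ ∈ Z, (m ρ : ℂ) * (1 / (s - ρ)) :=
      Finset.sum_congr rfl fun ρ hρ => by rw [hord ρ hρ]; ring
    rw [hld, hsum, add_sub_cancel_left]
    exact hders

end Pool.Agent.Helper23.MV
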