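import Pool.Agent.Helper23.MV.StE

/-!
# Project MV: LDR, logarithmic derivative to the right of `1`
-/

set_option autoImplicit false

namespace Pool.Agent.Helper23.MV

open Finset

private theorem growth_LDR (a : ℝ) (ha : 0 < a) : ∃ X0 : ℝ, 3 ≤ X0 ∧ ∀ X : ℝ, X0 ≤ X →
    2 * Real.log X ^ 3 ≤ Real.exp (a * Real.log X) ∧ 1 ≤ a * Real.log X ∧ 1 ≤ Real.log X := by
  have h1 : ∀ᶠ x : ℝ in Filter.atTop, ‖x ^ 3‖ ≤ (1 / 2) * ‖Real.exp (a * x)‖ :=
    (isLittleO_pow_exp_pos_mul_atTop 3 ha).def (by norm_num)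
  have h2 : ∀ᶠ x : ℝ in Filter.atTop, 1 ≤ a * x :=
    (Filter.tendsto_id.const_mul_atTop ha).eventually_ge_atTop 1
  have h3 : ∀ᶠ x : ℝ in Filter.atTop, 1 ≤ x := Filter.eventually_ge_atTop (1 : ℝ)
  have h4 := Real.tendsto_log_atTop.eventually (h1.and (h2.and h3))
  obtain ⟨X0, hX0⟩ := Filter.eventually_atTop.1 h4
  refine ⟨max X0 3, le_max_right _ _, fun X hX => ?_⟩
  obtain ⟨a1, a2, a3⟩ := hX0 X (le_trans (le_max_left _ _) hX)
  refine ⟨?_, a2, a3⟩
  rw [Real.norm_of_nonneg (pow_nonneg (by linarith) 3),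
    Real.norm_of_nonneg (Real.exp_pos _).le] at a1
  linarith

theorem hLdr (hT : Pool.Agent.Helper23.GK.StTfo) (hG : StGrw) (hL : StLd2) : StLdr := by
  obtain ⟨C, hC, hL⟩ := hL
  refine ⟨2 * C, by linarith, fun κ hκ hκ1 => ?_⟩
  obtain ⟨c1, X1, hc1, hc18, hX1, hG⟩ := hG κ hκ hκ1
  obtain ⟨r, hr⟩ : ∃ r : ℝ, r = c1 / 8 := ⟨_, rfl⟩
  have hr0 : 0 < r := by rw [hr]; positivity
  have hr1 : r ≤ 1 / 64 := by rw [hr]; linarith
  obtain ⟨X3, hX3, hg⟩ := growth_LDR (κ * r) (by positivity)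
  refine ⟨r / 2, max X1 X3, by positivity, by linarith, le_trans (by linarith) (le_max_right _ _),
    ?_⟩
  intro X q _ ψ σ t S hX hq hσ1 hσ2 ht hψ hS
  have hXX1 : X1 ≤ X := le_trans (le_max_left _ _) hX
  have hXX3 : X3 ≤ X := le_trans (le_max_right _ _) hX
  obtain ⟨g1, g2, g3⟩ := hg X hXX3
  obtain ⟨Lg, hLg⟩ : ∃ Lg : ℝ, Lg = Real.log X := ⟨_, rfl⟩
  rw [← hLg] at g1 g2 g3 hσ1 ⊢
  have hX0 : 0 < X := by linarith
  have hX3' : 3 ≤ X := by linarith
  have hLpos : 0 < Lg := by linarith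
  have hinv : 0 < 1 / Lg := by positivity
  have hσ : 1 < σ := by linarith
  obtain ⟨s0, hs0⟩ : ∃ s0 : ℂ, s0 = σ + t * Complex.I := ⟨_, rfl⟩
  have hre : s0.re = σ := by rw [hs0]; simp
  have him : s0.im = t := by rw [hs0]; simp
  have hqc1 : (q : ℝ) ≤ X ^ c1 :=
    hq.trans (Real.rpow_le_rpow_of_exponent_le (by linarith) (by rw [hr]; linarith))
  rw [← hs0] at hS ⊢
  have hκL : 0 ≤ κ * Lg := by positivity
  obtain ⟨hL0, hL1⟩ := hT.2.2 q ψ s0 (by rw [hre]; exact hσ)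
  rw [hre] at hL1
  obtain ⟨f, hf⟩ : ∃ f : ℂ → ℂ, f = DirichletCharacter.LFunction ψ := ⟨_, rfl⟩
  rw [← hf] at hL0 hL1 hS ⊢
  -- distance to `1` in the principal case
  have hfar : ψ = 1 → ∀ s : ℂ, ‖s - s0‖ ≤ 1 → 1 ≤ ‖s - 1‖ := by
    intro h1 s hs
    have h2 := hψ h1
    have h3 := Complex.abs_im_le_norm (s - s0)
    rw [Complex.sub_im, him] at h3
    have h4 := Complex.abs_im_le_norm (s - 1)
    rw [Complex.sub_im, Complex.one_im, sub_zero] at h4
    have h5 : |t| ≤ |s.im| + |s.im - t| := by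
      calc |t| = |s.im - (s.im - t)| := by congr 1; ring
        _ ≤ |s.im| + |s.im - t| := abs_sub _ _
    linarith
  have hfd : DifferentiableOn ℂ f (Metric.ball s0 (2 * r)) := by
    intro s hs
    rw [Metric.mem_ball, dist_eq_norm] at hs
    rw [hf]
    by_cases h1 : ψ = 1
    · have h2 := hfar h1 s (by linarith)
      have h3 : s ≠ 1 := by
        rintro rfl
        rw [sub_self, norm_zero] at h2
        linarith
      exact (DirichletCharacter.differentiableAt_LFunction ψ s (Or.inl h3)).differentiableWithinAt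
    · exact (DirichletCharacter.differentiable_LFunction h1 s).differentiableWithinAt
  have hlow : 1 / (2 * Lg) ≤ ‖f s0‖ := by
    have hn : 0 < ‖f s0‖ := norm_pos_iff.2 hL0
    rw [norm_inv] at hL1
    have h3 : σ / (σ - 1) ≤ 2 * Lg := by
      rw [div_le_iff₀ (by linarith)]
      have h4 : 1 ≤ Lg * (σ - 1) := by
        have h5 : Lg * (1 / Lg) ≤ Lg * (σ - 1) :=
          mul_le_mul_of_nonneg_left (by linarith) hLpos.le
        rwa [mul_one_div_cancel hLpos.ne'] at h5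
      have h6 : σ ≤ 2 := by linarith
      linarith
    rw [div_le_iff₀ (by positivity)]
    have h5 := mul_le_mul_of_nonneg_left (hL1.trans h3) hn.le
    rwa [mul_inv_cancel₀ hn.ne'] at h5
  have hup : ∀ s ∈ Metric.closedBall s0 r, ‖f s‖ ≤ Real.exp (κ * r * Lg) * Lg ^ 2 := by
    intro s hs
    have hdist : ‖s - s0‖ ≤ r := by rwa [Metric.mem_closedBall, dist_eq_norm] at hs
    have hrs : |s.re - σ| ≤ r := by
      have h3 := Complex.abs_re_le_norm (s - s0)
      rw [Complex.sub_re, hre] at h3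
      linarith
    have his : |s.im - t| ≤ r := by
      have h3 := Complex.abs_im_le_norm (s - s0)
      rw [Complex.sub_im, him] at h3
      linarith
    rw [abs_le] at hrs his
    have h1 := hG X q ψ s hXX1 hqc1 (by rw [hr] at hrs; linarith) (by linarith) (by
      rw [abs_le] at ht ⊢
      constructor <;> nlinarith)
    have h2 := h1.1 (fun h => by have := hfar h s (by linarith); linarith)
    rw [← hf, ← hLg] at h2
    refine h2.trans ?_
    have h3 : X ^ (κ * max 0 (1 - s.re)) ≤ Real.exp (κ * r * Lg) := by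
      rw [Real.rpow_def_of_pos hX0, ← hLg]
      apply Real.exp_le_exp.2
      have h4 : max 0 (1 - s.re) ≤ r := max_le hr0.le (by linarith)
      have h5 : κ * max 0 (1 - s.re) ≤ κ * r := mul_le_mul_of_nonneg_left h4 hκ.le
      nlinarith
    exact mul_le_mul_of_nonneg_right h3 (by positivity)
  have hM : ∀ s ∈ Metric.closedBall s0 r, ‖f s‖ ≤ Real.exp (2 * κ * r * Lg) * ‖f s0‖ := by
    intro s hs
    refine (hup s hs).trans ?_
    have e1 : Real.exp (2 * κ * r * Lg) = Real.exp (κ * r * Lg) * Real.exp (κ * r * Lg) := by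
      rw [← Real.exp_add]; congr 1; ring
    calc Real.exp (κ * r * Lg) * Lg ^ 2 = Real.exp (κ * r * Lg) * (2 * Lg ^ 3) * (1 / (2 * Lg)) := by
          field_simp
      _ ≤ Real.exp (κ * r * Lg) * Real.exp (κ * r * Lg) * ‖f s0‖ := by
          refine mul_le_mul (mul_le_mul_of_nonneg_left ?_ (Real.exp_pos _).le) hlow (by positivity)
            (by positivity)
          exact g1
      _ = _ := by rw [e1]
  obtain ⟨Z, hZ1, -, hZ3⟩ := hL f s0 r (2 * κ * r * Lg) hr0 (by nlinarith) hfd hL0 hM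
  have h4 := hZ3 s0 (by rw [sub_self, norm_zero]; positivity) hL0
  have hne : ∀ ρ : ℂ, f ρ = 0 → ‖ρ - s0‖ ≤ r / 2 → ρ.re < 1 := by
    intro ρ h5 h6
    by_contra h7
    push Not at h7
    rw [hf] at h5
    refine DirichletCharacter.LFunction_ne_zero_of_one_le_re ψ ?_ h7 h5
    by_cases h1 : ψ = 1
    · refine Or.inr fun h8 => ?_
      have := hfar h1 ρ (by linarith)
      rw [h8, sub_self, norm_zero] at this
      linarith
    · exact Or.inl h1
  have hSZ : S ⊆ Z := by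
    intro ρ hρ
    rw [hZ1]
    exact hS ρ hρ
  have hnn : ∀ ρ ∈ Z, 0 ≤ (analyticOrderNatAt f ρ : ℝ) * (1 / (s0 - ρ)).re := by
    intro ρ hρ
    obtain ⟨h5, h6⟩ := (hZ1 ρ).1 hρ
    have h7 := hne ρ h5 h6
    refine mul_nonneg (Nat.cast_nonneg _) ?_
    rw [one_div, Complex.inv_re]
    refine div_nonneg ?_ (Complex.normSq_nonneg _)
    rw [Complex.sub_re, hre]
    linarith
  have h5 : ∑ ρ ∈ S, (analyticOrderNatAt f ρ : ℝ) * (1 / (s0 - ρ)).re ≤
      ∑ ρ ∈ Z, (analyticOrderNatAt f ρ : ℝ) * (1 / (s0 - ρ)).re :=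
    sum_le_sum_of_subset_of_nonneg hSZ (fun ρ hρ _ => hnn ρ hρ)
  have h6 : (∑ ρ ∈ Z, (analyticOrderNatAt f ρ : ℂ) / (s0 - ρ)).re =
      ∑ ρ ∈ Z, (analyticOrderNatAt f ρ : ℝ) * (1 / (s0 - ρ)).re := by
    rw [Complex.re_sum]
    refine sum_congr rfl fun ρ _ => ?_
    rw [div_eq_mul_one_div, show (analyticOrderNatAt f ρ : ℂ) =
      ((analyticOrderNatAt f ρ : ℝ) : ℂ) by push_cast; rfl, Complex.re_ofReal_mul]
  have h7 := Complex.abs_re_le_norm (deriv f s0 / f s0 -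
    ∑ ρ ∈ Z, (analyticOrderNatAt f ρ : ℂ) / (s0 - ρ))
  rw [Complex.sub_re, h6] at h7
  have h8 : C * (2 * κ * r * Lg) / r = 2 * C * κ * Lg := by field_simp
  rw [h8] at h4
  have h9 := neg_abs_le ((deriv f s0 / f s0).re -
    ∑ ρ ∈ Z, (analyticOrderNatAt f ρ : ℝ) * (1 / (s0 - ρ)).re)
  rw [Complex.neg_re]
  linarith

end Pool.Agent.Helper23.MV
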