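import Pool.Agent.Helper23.MV.StH

/-!
# Project MV, module ZER: all zeros
-/

set_option autoImplicit false

namespace Pool.Agent.Helper23.MV

open Finset

/-- the trivial primitive character is unique -/
private theorem triv_unique_ZER (c c' : PCh) (h : c.χ = 1) (h' : c'.χ = 1) : c = c' := by
  obtain ⟨r, hr, χ, pr⟩ := c
  obtain ⟨r', hr', χ', pr'⟩ := c'
  change χ = 1 at h
  change χ' = 1 at h'
  subst h
  subst h'
  have : NeZero r := ⟨hr⟩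
  have : NeZero r' := ⟨hr'⟩
  have e1 : r = 1 := by
    rw [DirichletCharacter.isPrimitive_def, DirichletCharacter.conductor_one] at pr
    exact pr.symm
  have e2 : r' = 1 := by
    rw [DirichletCharacter.isPrimitive_def, DirichletCharacter.conductor_one] at pr'
    exact pr'.symm
  subst e1
  subst e2
  rfl

private theorem ZS_le_ZER (hfin : StFin) {o : Option (PCh × ℝ)} {c : PCh} {η' η X lm : ℝ}
    (hη' : η' ≤ η) (hη : η ≤ 1 / 100) (hX : 0 < X)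
    (h : ∀ ρ ∈ Zex o c (2 * η') X, ρ.re ≤ 1 - lm / Real.log X) :
    ZS o c (2 * η') X (√X) ≤ ∑ ρ ∈ (ZF c (2 * η) X).filter
      (fun ρ => ρ.re ≤ 1 - lm / Real.log X), (mz c ρ : ℝ) * X ^ ((ρ.re - 1) / 2) := by
  classical
  unfold ZS
  have e : ∀ ρ : ℂ, (√X) ^ (ρ.re - 1) = X ^ ((ρ.re - 1) / 2) := by
    intro ρ
    rw [Real.sqrt_eq_rpow, ← Real.rpow_mul hX.le]
    congr 1
    ring
  simp only [e]
  refine sum_le_sum_of_subset_of_nonneg ?_ ?_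
  · intro ρ hρ
    have h1 := h ρ hρ
    rw [mem_filter]
    refine ⟨?_, h1⟩
    unfold Zex at hρ
    rw [mem_filter] at hρ
    have h2 := (hfin.2.1 c (2 * η') X ρ (by linarith)).1 hρ.1
    exact (hfin.2.1 c (2 * η) X ρ (by linarith)).2 ⟨h2.1, by linarith [h2.2.1], h2.2.2⟩
  · intro ρ _ _
    positivity

private theorem tot_ZER (hfin : StFin) {η₁ η₂ η' C X P lm : ℝ} {o : Option (PCh × ℝ)}
    (hη₁ : η₁ ≤ 1 / 100) (hη₂ : η₂ ≤ 1 / 100) (h1' : η' ≤ η₁) (h2' : η' ≤ η₂) (hX : 1 ≤ X)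
    (hP : P ≤ X ^ η₁) (hC : 0 ≤ C)
    (hs1 : ∑ c ∈ (PS (X ^ η₁)).filter (fun c => c.χ ≠ 1), ∑ ρ ∈ (ZF c (2 * η₁) X).filter
      (fun ρ => ρ.re ≤ 1 - lm / Real.log X),
      (mz c ρ : ℝ) * X ^ ((ρ.re - 1) / 2) ≤ C * Real.exp (-lm / 4))
    (hs2 : ∀ c : PCh, c.χ = 1 → ∑ ρ ∈ (ZF c (2 * η₂) X).filter
      (fun ρ => ρ.re ≤ 1 - lm / Real.log X),
      (mz c ρ : ℝ) * X ^ ((ρ.re - 1) / 2) ≤
        Real.exp (-(Real.log X) ^ (1 / 20 : ℝ)) * Real.exp (-lm / 8))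
    (hlm : 0 ≤ lm)
    (h : ∀ c ∈ PS P, ∀ ρ ∈ Zex o c (2 * η') X, ρ.re ≤ 1 - lm / Real.log X) :
    ∑ c ∈ PS P, ZS o c (2 * η') X (√X) ≤ (C + 1) * Real.exp (-lm / 8) := by
  classical
  have hX0 : 0 < X := by linarith
  have hL : 0 ≤ Real.log X := Real.log_nonneg hX
  rw [← sum_filter_add_sum_filter_not (PS P) (fun c => c.χ ≠ 1)]
  have a1 : ∑ c ∈ (PS P).filter (fun c => c.χ ≠ 1), ZS o c (2 * η') X (√X) ≤
      C * Real.exp (-lm / 4) := by
    refine le_trans ?_ hs1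
    refine le_trans (sum_le_sum (fun c hc => ZS_le_ZER hfin h1' hη₁ hX0
      (h c (mem_filter.1 hc).1))) ?_
    refine sum_le_sum_of_subset_of_nonneg ?_ ?_
    · intro c hc
      rw [mem_filter] at hc ⊢
      exact ⟨(hfin.1 _ _).2 (le_trans ((hfin.1 _ _).1 hc.1) hP), hc.2⟩
    · intro c _ _
      refine sum_nonneg fun ρ _ => ?_
      positivity
  have a2 : ∑ c ∈ (PS P).filter (fun c => ¬ c.χ ≠ 1), ZS o c (2 * η') X (√X) ≤
      Real.exp (-lm / 8) := by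
    by_cases hex : ∃ c₀ ∈ PS P, c₀.χ = 1
    · obtain ⟨c₀, hc₀, hχ⟩ := hex
      have e : (PS P).filter (fun c => ¬ c.χ ≠ 1) = {c₀} := by
        ext c
        rw [mem_filter, mem_singleton, not_not]
        constructor
        · rintro ⟨_, hc⟩
          exact triv_unique_ZER c c₀ hc hχ
        · rintro rfl
          exact ⟨hc₀, hχ⟩
      rw [e, sum_singleton]
      refine le_trans (ZS_le_ZER hfin h2' hη₂ hX0 (h c₀ hc₀)) ?_
      refine le_trans (hs2 c₀ hχ) ?_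
      have : Real.exp (-(Real.log X) ^ (1 / 20 : ℝ)) ≤ 1 := by
        rw [Real.exp_le_one_iff]
        have := Real.rpow_nonneg hL (1 / 20 : ℝ)
        linarith
      calc _ ≤ 1 * Real.exp (-lm / 8) :=
            mul_le_mul_of_nonneg_right this (Real.exp_pos _).le
        _ = _ := one_mul _
    · have e : (PS P).filter (fun c => ¬ c.χ ≠ 1) = ∅ := by
        ext c
        simp only [mem_filter, not_not, notMem_empty, iff_false, not_and]
        intro hc hc'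
        exact hex ⟨c, hc, hc'⟩
      rw [e, sum_empty]
      exact (Real.exp_pos _).le
  have a3 : Real.exp (-lm / 4) ≤ Real.exp (-lm / 8) := Real.exp_le_exp.2 (by linarith)
  calc _ ≤ C * Real.exp (-lm / 4) + Real.exp (-lm / 8) := add_le_add a1 a2
    _ ≤ C * Real.exp (-lm / 8) + Real.exp (-lm / 8) :=
        add_le_add (mul_le_mul_of_nonneg_left a3 hC) le_rfl
    _ = _ := by ring

/-- choice of `k₀` and `λ₀` -/
private theorem consts_ZER {C1 C2 ε : ℝ} (hC1 : 1 ≤ C1) (hC2 : 1 ≤ C2) (hε : 0 < ε) :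
    ∃ k₀ l₀ : ℝ, 0 < k₀ ∧ k₀ ≤ 1 / 2 ∧ C1 * k₀ ≤ 1 ∧ (C2 + 1) * C1 ^ 2 * √(C1 * k₀) ≤ ε ∧ 1 ≤ l₀ ∧
      (C2 + 1) * Real.exp (-l₀ / 8) ≤ ε * k₀ ^ 2 := by
  have p1 : 0 < C1 := by linarith
  have p2 : 0 < (C2 + 1) * C1 ^ 2 := by positivity
  set k₀ := min (1 / 2) (min (1 / C1) ((ε / ((C2 + 1) * C1 ^ 2)) ^ 2 / C1)) with hk
  have hk0 : 0 < k₀ := by
    rw [hk]
    refine lt_min (by norm_num) (lt_min (by positivity) (by positivity))
  have b1 : k₀ ≤ 1 / 2 := min_le_left _ _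
  have b2 : k₀ ≤ 1 / C1 := (min_le_right _ _).trans (min_le_left _ _)
  have b3 : k₀ ≤ (ε / ((C2 + 1) * C1 ^ 2)) ^ 2 / C1 := (min_le_right _ _).trans (min_le_right _ _)
  refine ⟨k₀, max 1 (8 * Real.log ((C2 + 1) / (ε * k₀ ^ 2))), hk0, b1, ?_, ?_, le_max_left _ _, ?_⟩
  · calc C1 * k₀ ≤ C1 * (1 / C1) := mul_le_mul_of_nonneg_left b2 p1.le
      _ = 1 := by field_simp
  · have b4 : √(C1 * k₀) ≤ ε / ((C2 + 1) * C1 ^ 2) := by
      rw [Real.sqrt_le_left (by positivity)]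
      rw [le_div_iff₀ p1] at b3
      linarith
    rw [le_div_iff₀ p2] at b4
    linarith
  · have h1 : 8 * Real.log ((C2 + 1) / (ε * k₀ ^ 2)) ≤
        max 1 (8 * Real.log ((C2 + 1) / (ε * k₀ ^ 2))) := le_max_right _ _
    have h2 : Real.exp (-(max 1 (8 * Real.log ((C2 + 1) / (ε * k₀ ^ 2)))) / 8) ≤
        Real.exp (-Real.log ((C2 + 1) / (ε * k₀ ^ 2))) := Real.exp_le_exp.2 (by linarith)
    have h3 : 0 < (C2 + 1) / (ε * k₀ ^ 2) := by positivity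
    rw [Real.exp_neg, Real.exp_log h3] at h2
    calc _ ≤ (C2 + 1) * ((C2 + 1) / (ε * k₀ ^ 2))⁻¹ := mul_le_mul_of_nonneg_left h2 (by linarith)
      _ = ε * k₀ ^ 2 := by
        have : C2 + 1 ≠ 0 := by positivity
        have : ε * k₀ ^ 2 ≠ 0 := by positivity
        field_simp

/-- large `X` -/
private theorem large_ZER {c₀ M : ℝ} (hc₀ : 0 < c₀) (A : ℝ) :
    ∃ X0 : ℝ, 3 ≤ X0 ∧ A ≤ X0 ∧ ∀ X : ℝ, X0 ≤ X → M ≤ Real.log X ∧
      2 * Real.log X ≤ X ^ (c₀ / 2) := by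
  have h1 : ∀ᶠ X : ℝ in Filter.atTop, M ≤ Real.log X := Real.tendsto_log_atTop.eventually_ge_atTop M
  have h2 : ∀ᶠ X : ℝ in Filter.atTop, 2 * Real.log X ≤ X ^ (c₀ / 2) := by
    have := (isLittleO_log_rpow_atTop (r := c₀ / 2) (by positivity)).bound
      (c := 1 / 2) (by norm_num)
    filter_upwards [this, Filter.eventually_ge_atTop 1] with X hX hX1
    rw [Real.norm_of_nonneg (Real.log_nonneg hX1),
      Real.norm_of_nonneg (Real.rpow_nonneg (by linarith) _)] at hX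
    linarith
  obtain ⟨X0, hX0⟩ := (h1.and h2).exists_forall_of_atTop
  refine ⟨max X0 (max 3 A), ?_, ?_, fun X hX => hX0 X ((le_max_left _ _).trans hX)⟩
  · exact (le_max_left _ _).trans (le_max_right _ _)
  · exact (le_max_right _ _).trans (le_max_right _ _)

set_option maxHeartbeats 1000000 in
/-- the part with an exceptional zero -/
private theorem exc_ZER (hfin : StFin) {C1 C2 ε c₀ δ₀ η₁ η₂ η' k₀ l₀ X δ : ℝ} {e : PCh}
    (hC1 : 1 ≤ C1) (hC2 : 1 ≤ C2) (hε : 0 < ε) (hc₀ : 0 < c₀)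
    (hk2 : k₀ ≤ 1 / 2) (hk3 : C1 * k₀ ≤ 1) (hk4 : (C2 + 1) * C1 ^ 2 * √(C1 * k₀) ≤ ε)
    (hl1 : 1 ≤ l₀) (hl2 : (C2 + 1) * Real.exp (-l₀ / 8) ≤ ε * k₀ ^ 2) (hk0 : 0 < k₀)
    (hη₁ : η₁ ≤ 1 / 100) (hη₂ : η₂ ≤ 1 / 100) (h1' : η' ≤ η₁) (h2' : η' ≤ η₂)
    (h3' : 2 * η' ≤ c₀) (hδ₀ : 0 < δ₀) (hδ1 : δ₀ ≤ η₁) (hδ2 : δ₀ ≤ c₀)
    (hX : 3 ≤ X) (hL : 2 * Real.log X ≤ X ^ (c₀ / 2))
    (hs1 : ∀ lm : ℝ, 0 ≤ lm → ∑ c ∈ (PS (X ^ η₁)).filter (fun c => c.χ ≠ 1),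
      ∑ ρ ∈ (ZF c (2 * η₁) X).filter (fun ρ => ρ.re ≤ 1 - lm / Real.log X),
      (mz c ρ : ℝ) * X ^ ((ρ.re - 1) / 2) ≤ C2 * Real.exp (-lm / 4))
    (hs2 : ∀ lm : ℝ, 0 ≤ lm → ∀ c : PCh, c.χ = 1 → ∑ ρ ∈ (ZF c (2 * η₂) X).filter
      (fun ρ => ρ.re ≤ 1 - lm / Real.log X),
      (mz c ρ : ℝ) * X ^ ((ρ.re - 1) / 2) ≤
        Real.exp (-(Real.log X) ^ (1 / 20 : ℝ)) * Real.exp (-lm / 8))
    (hdh : ∀ (c : PCh) (ρ : ℂ), (c.r : ℝ) ≤ X ^ c₀ → X ^ (-c₀) ≤ δ → δ * Real.log X ≤ 1 →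
      c.L ρ = 0 → 1 - c₀ ≤ ρ.re → |ρ.im| ≤ X → (c = e → X ^ (-c₀) ≤ ‖ρ + δ - 1‖) →
      1 ≤ C1 * (δ * Real.log X) * X ^ (5 * (1 / 100) * (1 - ρ.re)))
    (hδpos : 0 < δ) (hδX : X ^ (-c₀) ≤ δ)
    (hzf : ∀ (c : PCh) (ρ : ℂ), (c.r : ℝ) ≤ X ^ δ₀ → c.L ρ = 0 → |ρ.im| ≤ X →
      1 - l₀ / Real.log X < ρ.re → c = e ∧ ρ = 1 - (δ : ℂ))
    {P : ℝ} (hP : P ≤ X ^ δ₀) (o : Option (PCh × ℝ))
    (ho : ∀ c ∈ PS P, ∀ ρ ∈ Zex o c (2 * η') X, ¬ (c = e ∧ ρ = 1 - (δ : ℂ))) :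
    ∑ c ∈ PS P, ZS o c (2 * η') X (√X) ≤ ε * (min 1 (δ * Real.log X)) ^ 2 := by
  classical
  have hX1 : 1 ≤ X := by linarith
  have hX0 : 0 < X := by linarith
  have hLpos : 0 < Real.log X := Real.log_pos (by linarith)
  have hPη : P ≤ X ^ η₁ := hP.trans (Real.rpow_le_rpow_of_exponent_le hX1 hδ1)
  -- all zeros are away from the line
  have hfar : ∀ c ∈ PS P, ∀ ρ ∈ Zex o c (2 * η') X,
      c.L ρ = 0 ∧ 1 - 2 * η' ≤ ρ.re ∧ |ρ.im| ≤ X ∧ (c.r : ℝ) ≤ X ^ δ₀ ∧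
      ρ.re ≤ 1 - l₀ / Real.log X := by
    intro c hc ρ hρ
    have hρ' := hρ
    unfold Zex at hρ'
    rw [mem_filter] at hρ'
    have h2 := (hfin.2.1 c (2 * η') X ρ (by linarith)).1 hρ'.1
    have h3 : (c.r : ℝ) ≤ X ^ δ₀ := ((hfin.1 _ _).1 hc).trans hP
    refine ⟨h2.1, h2.2.1, h2.2.2, h3, ?_⟩
    by_contra hcon
    push Not at hcon
    exact ho c hc ρ hρ (hzf c ρ h3 h2.1 h2.2.2 hcon)
  by_cases hk : k₀ ≤ δ * Real.log X
  · have h4 := tot_ZER hfin hη₁ hη₂ h1' h2' hX1 hPη (by linarith) (hs1 l₀ (by linarith))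
      (hs2 l₀ (by linarith)) (by linarith) (fun c hc ρ hρ => (hfar c hc ρ hρ).2.2.2.2)
    refine h4.trans (hl2.trans ?_)
    exact mul_le_mul_of_nonneg_left (pow_le_pow_left₀ hk0.le (le_min (by linarith) hk) 2) hε.le
  · push Not at hk
    set k := δ * Real.log X with hkdef
    have hkpos : 0 < k := by positivity
    have hC1k : 0 < C1 * k := by positivity
    have hC1k1 : C1 * k ≤ 1 :=
      le_trans (mul_le_mul_of_nonneg_left hk.le (by linarith)) hk3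
    have hLam : 0 ≤ -(20 * Real.log (C1 * k)) := by
      have := Real.log_nonpos hC1k.le hC1k1
      linarith
    have hfar2 : ∀ c ∈ PS P, ∀ ρ ∈ Zex o c (2 * η') X,
        ρ.re ≤ 1 - (-(20 * Real.log (C1 * k))) / Real.log X := by
      intro c hc ρ hρ
      obtain ⟨g1, g2, g3, g4, g5⟩ := hfar c hc ρ hρ
      have g6 : (c.r : ℝ) ≤ X ^ c₀ := g4.trans (Real.rpow_le_rpow_of_exponent_le hX1 hδ2)
      have g7 := hdh c ρ g6 hδX (by linarith) g1 (by linarith) g3 (by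
        intro _
        have i1 : |(ρ + δ - 1).re| ≤ ‖ρ + δ - 1‖ := Complex.abs_re_le_norm _
        have i2 : (ρ + δ - 1).re = ρ.re + δ - 1 := by simp
        rw [i2] at i1
        have i3 : -(ρ.re + δ - 1) ≤ |ρ.re + δ - 1| := neg_le_abs _
        have i4 : δ = k / Real.log X := by
          rw [hkdef]
          field_simp
        have i5 : 1 / (2 * Real.log X) ≤ -(ρ.re + δ - 1) := by
          have j1 : (l₀ - k) / Real.log X ≤ -(ρ.re + δ - 1) := by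
            rw [sub_div, i4]
            linarith
          refine le_trans ?_ j1
          rw [div_le_div_iff₀ (by positivity) hLpos]
          have : 1 / 2 ≤ l₀ - k := by linarith
          calc 1 * Real.log X = 1 / 2 * (2 * Real.log X) := by ring
            _ ≤ _ := mul_le_mul_of_nonneg_right this (by positivity)
        have i6 : X ^ (-c₀) ≤ 1 / (2 * Real.log X) := by
          rw [le_div_iff₀ (by positivity)]
          calc X ^ (-c₀) * (2 * Real.log X) ≤ X ^ (-c₀) * X ^ (c₀ / 2) :=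
                mul_le_mul_of_nonneg_left hL (by positivity)
            _ = X ^ (-c₀ / 2) := by
                rw [← Real.rpow_add hX0]
                congr 1
                ring
            _ ≤ 1 := Real.rpow_le_one_of_one_le_of_nonpos hX1 (by linarith)
        linarith)
      have g8 : 0 ≤ Real.log (C1 * k * X ^ (5 * (1 / 100) * (1 - ρ.re))) :=
        Real.log_nonneg g7
      rw [Real.log_mul hC1k.ne' (by positivity), Real.log_rpow hX0] at g8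
      have g9 : -(20 * Real.log (C1 * k)) / Real.log X ≤ 1 - ρ.re := by
        rw [div_le_iff₀ hLpos]
        linarith
      linarith
    have h4 := tot_ZER hfin hη₁ hη₂ h1' h2' hX1 hPη (by linarith) (hs1 _ hLam)
      (hs2 _ hLam) hLam hfar2
    refine h4.trans ?_
    have h5 : Real.exp (-(-(20 * Real.log (C1 * k))) / 8) ≤ (C1 * k) ^ 2 * √(C1 * k) := by
      have e0 : √(C1 * k) = Real.exp (Real.log (C1 * k) / 2) := by
        rw [Real.sqrt_eq_rpow, Real.rpow_def_of_pos hC1k]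
        congr 1
        ring
      have e1 : (C1 * k) ^ 2 * √(C1 * k) = Real.exp (5 / 2 * Real.log (C1 * k)) := by
        rw [e0, show 5 / 2 * Real.log (C1 * k) = Real.log (C1 * k) + Real.log (C1 * k) +
          Real.log (C1 * k) / 2 by ring,
          Real.exp_add, Real.exp_add, Real.exp_log hC1k]
        ring
      rw [e1]
      exact Real.exp_le_exp.2 (by linarith)
    have h6 : min 1 k = k := min_eq_right (by linarith)
    rw [h6]
    have h7 : √(C1 * k) ≤ √(C1 * k₀) :=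
      Real.sqrt_le_sqrt (mul_le_mul_of_nonneg_left hk.le (by linarith))
    calc (C2 + 1) * Real.exp (-(-(20 * Real.log (C1 * k))) / 8)
        ≤ (C2 + 1) * ((C1 * k) ^ 2 * √(C1 * k)) := mul_le_mul_of_nonneg_left h5 (by linarith)
      _ ≤ (C2 + 1) * ((C1 * k) ^ 2 * √(C1 * k₀)) :=
          mul_le_mul_of_nonneg_left (mul_le_mul_of_nonneg_left h7 (by positivity)) (by linarith)
      _ = (C2 + 1) * C1 ^ 2 * √(C1 * k₀) * k ^ 2 := by ring
      _ ≤ ε * k ^ 2 := mul_le_mul_of_nonneg_right hk4 (by positivity)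

set_option maxHeartbeats 1000000 in
theorem hZer (hfin : StFin) (h1 : StSm1) (h2 : StSm2) (hz : StZfx) (hd : StDhr)
    (hs : StSgz) : StZer := by
  classical
  obtain ⟨η₁, C2, X1, hη₁p, hη₁, hC2, hX1, H1⟩ := h1
  obtain ⟨η₂, X2, hη₂p, hη₂, hX2, H2⟩ := h2
  obtain ⟨c₀, C1, X3, hc₀, -, hC1, hX3, H3⟩ := hd (1 / 100) (by norm_num) (by norm_num)
  obtain ⟨cs, hcs, H4⟩ := hs (1 / 100) (by norm_num)
  refine ⟨min η₁ (min η₂ (c₀ / 2)), lt_min hη₁p (lt_min hη₂p (by positivity)),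
    (min_le_left _ _).trans hη₁, ?_⟩
  intro η' hη'p hη' ε hε
  have hη'1 : η' ≤ η₁ := hη'.trans (min_le_left _ _)
  have hη'2 : η' ≤ η₂ := hη'.trans ((min_le_right _ _).trans (min_le_left _ _))
  have hη'3 : 2 * η' ≤ c₀ := by
    have : η' ≤ c₀ / 2 := hη'.trans ((min_le_right _ _).trans (min_le_right _ _))
    linarith
  obtain ⟨k₀, l₀, hk0, hk2, hk3, hk4, hl1, hl2⟩ := consts_ZER hC1 hC2 hε
  obtain ⟨cz, X4, hcz, hX4, H5⟩ := hz l₀ hl1
  set δ₀ := min (min η₁ c₀) (min cz (η' / 100000)) with hδ₀def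
  have hδ₀ : 0 < δ₀ := lt_min (lt_min hη₁p hc₀) (lt_min hcz (by positivity))
  have hδ1 : δ₀ ≤ η₁ := (min_le_left _ _).trans (min_le_left _ _)
  have hδ2 : δ₀ ≤ c₀ := (min_le_left _ _).trans (min_le_right _ _)
  have hδ3 : δ₀ ≤ cz := (min_le_right _ _).trans (min_le_left _ _)
  have hδ4 : δ₀ ≤ η' / 100000 := (min_le_right _ _).trans (min_le_right _ _)
  obtain ⟨X0, hX03, hX0A, HX⟩ := large_ZER (c₀ := c₀)
    (M := (l₀ / η' + 2 * l₀) + (l₀ * (1 + 1 / ε) / cs + 1 / cs)) hc₀ (X1 + X2 + X3 + X4)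
  refine ⟨δ₀, X0, hδ₀, hδ4, by linarith, ?_⟩
  intro X hX
  obtain ⟨hM, hLX⟩ := HX X hX
  have hX3' : 3 ≤ X := by linarith
  have hXone : 1 ≤ X := by linarith
  have hXpos : 0 < X := by linarith
  have hl0 : 0 < l₀ := by linarith
  have q1 : 0 ≤ l₀ / η' := by positivity
  have q2 : 0 ≤ l₀ * (1 + 1 / ε) / cs := by positivity
  have q3 : 0 ≤ 1 / cs := by positivity
  have hLpos : 0 < Real.log X := Real.log_pos (by linarith)
  have L1 : l₀ / η' ≤ Real.log X := by linarith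
  have L2 : 2 * l₀ ≤ Real.log X := by linarith
  have L3 : l₀ * (1 + 1 / ε) ≤ cs * Real.log X := by
    have : l₀ * (1 + 1 / ε) / cs ≤ Real.log X := by linarith
    rw [div_le_iff₀ hcs] at this
    linarith
  have L4 : 1 ≤ cs * Real.log X := by
    have : 1 / cs ≤ Real.log X := by linarith
    rw [div_le_iff₀ hcs] at this
    linarith
  have hs1 := fun lm (hlm : 0 ≤ lm) => H1 X lm (by linarith) hlm
  have hs2 := fun lm (hlm : 0 ≤ lm) (c : PCh) (hc : c.χ = 1) => H2 X lm c (by linarith) hlm hc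
  have hle : X ^ (δ₀ / 2) ≤ X ^ δ₀ := Real.rpow_le_rpow_of_exponent_le hXone (by linarith)
  by_cases hex : ∃ (c : PCh) (ρ : ℂ), (c.r : ℝ) ≤ X ^ δ₀ ∧ c.L ρ = 0 ∧ |ρ.im| ≤ X ∧
      1 - l₀ / Real.log X < ρ.re
  · obtain ⟨e, ρ₀, he1, he2, he3, he4⟩ := hex
    have hcr : ∀ c : PCh, (c.r : ℝ) ≤ X ^ δ₀ → (c.r : ℝ) ≤ X ^ cz := fun c hc =>
      hc.trans (Real.rpow_le_rpow_of_exponent_le hXone hδ3)
    obtain ⟨-, -, him, hRe, hmz⟩ := H5 X e e ρ₀ ρ₀ (by linarith) (hcr e he1) (hcr e he1)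
      he2 he2 he4.le he4.le he3 he3
    obtain ⟨δ, hδ⟩ : ∃ δ : ℝ, δ = 1 - ρ₀.re := ⟨_, rfl⟩
    have hρ₀ : ρ₀ = 1 - (δ : ℂ) := by
      apply Complex.ext
      · simp [hδ]
      · simp [him]
    have hlL : l₀ / Real.log X ≤ 1 / 2 := by
      rw [div_le_div_iff₀ hLpos (by norm_num)]
      linarith
    have hδpos : 0 < δ := by
      have := (hfin.2.2 e ρ₀ he2 (by linarith)).1
      rw [hδ]
      linarith
    have hδlt : δ < l₀ / Real.log X := by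
      rw [hδ]
      linarith
    have hδ1' : δ < 1 := by linarith
    have hδη : δ ≤ η' := by
      have : l₀ / Real.log X ≤ η' := by
        rw [div_le_iff₀ hLpos]
        rw [div_le_iff₀ hη'p] at L1
        linarith
      linarith
    have hLz : e.L (1 - (δ : ℂ)) = 0 := by rw [← hρ₀]; exact he2
    have hsg := H4 e δ hRe hδpos hδ1' hLz
    have hr1 : (1 : ℝ) ≤ (e.r : ℝ) := by
      have := Nat.one_le_iff_ne_zero.2 e.hr
      exact_mod_cast this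
    have hr0 : (0 : ℝ) < (e.r : ℝ) := by linarith
    -- `δ L ≥ r^{-1/50}`
    have hkr : (e.r : ℝ) ^ (-(1 / 100 : ℝ)) ≤ δ * Real.log X := by
      have a : 0 < (e.r : ℝ) ^ (-(1 / 100 : ℝ)) := by positivity
      calc (e.r : ℝ) ^ (-(1 / 100 : ℝ)) = 1 * (e.r : ℝ) ^ (-(1 / 100 : ℝ)) := (one_mul _).symm
        _ ≤ cs * Real.log X * (e.r : ℝ) ^ (-(1 / 100 : ℝ)) := mul_le_mul_of_nonneg_right L4 a.le
        _ = cs * (e.r : ℝ) ^ (-(1 / 100 : ℝ)) * Real.log X := by ring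
        _ ≤ δ * Real.log X := mul_le_mul_of_nonneg_right hsg hLpos.le
    have hmin : (e.r : ℝ) ^ (-(1 / 100 : ℝ)) ≤ min 1 (δ * Real.log X) := by
      refine le_min ?_ hkr
      exact Real.rpow_le_one_of_one_le_of_nonpos hr1 (by norm_num)
    have hδX : X ^ (-c₀) ≤ δ := by
      have b1 : (e.r : ℝ) ≤ X ^ c₀ := he1.trans (Real.rpow_le_rpow_of_exponent_le hXone hδ2)
      have b2 : X ^ (-(c₀ / 100)) ≤ (e.r : ℝ) ^ (-(1 / 100 : ℝ)) := by
        have : X ^ (-(c₀ / 100)) = (X ^ c₀) ^ (-(1 / 100 : ℝ)) := by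
          rw [← Real.rpow_mul hXpos.le]
          congr 1
          ring
        rw [this]
        exact Real.rpow_le_rpow_of_nonpos hr0 b1 (by norm_num)
      have b3 : X ^ (-(c₀ / 100)) ≤ δ * Real.log X := b2.trans hkr
      have b4 : Real.log X ≤ X ^ (c₀ / 2) := by linarith
      have b5 : X ^ (-(c₀ / 100)) ≤ δ * X ^ (c₀ / 2) :=
        b3.trans (mul_le_mul_of_nonneg_left b4 hδpos.le)
      have b6 : X ^ (-(c₀ / 100)) * X ^ (-(c₀ / 2)) ≤ δ := by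
        calc X ^ (-(c₀ / 100)) * X ^ (-(c₀ / 2)) ≤ δ * X ^ (c₀ / 2) * X ^ (-(c₀ / 2)) :=
              mul_le_mul_of_nonneg_right b5 (by positivity)
          _ = δ := by
              rw [mul_assoc, ← Real.rpow_add hXpos]
              simp
      refine le_trans ?_ b6
      rw [← Real.rpow_add hXpos]
      exact Real.rpow_le_rpow_of_exponent_le hXone (by linarith)
    have hdh : ∀ (c : PCh) (ρ : ℂ), (c.r : ℝ) ≤ X ^ c₀ → X ^ (-c₀) ≤ δ →
      δ * Real.log X ≤ 1 →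
      c.L ρ = 0 → 1 - c₀ ≤ ρ.re → |ρ.im| ≤ X → (c = e → X ^ (-c₀) ≤ ‖ρ + δ - 1‖) →
      1 ≤ C1 * (δ * Real.log X) * X ^ (5 * (1 / 100) * (1 - ρ.re)) :=
      fun c ρ g1 g2 g3 g4 g5 g6 g7 => H3 X e c δ ρ (by linarith)
        (he1.trans (Real.rpow_le_rpow_of_exponent_le hXone hδ2)) g1 hRe g2 g3 hLz g4 g5 g6 g7
    have hzf : ∀ (c : PCh) (ρ : ℂ), (c.r : ℝ) ≤ X ^ δ₀ → c.L ρ = 0 → |ρ.im| ≤ X →
        1 - l₀ / Real.log X < ρ.re → c = e ∧ ρ = 1 - (δ : ℂ) := by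
      intro c ρ g1 g2 g3 g4
      have := H5 X c e ρ ρ₀ (by linarith) (hcr c g1) (hcr e he1) g2 he2 g4.le he4.le g3 he3
      exact ⟨this.1, this.2.1.trans hρ₀⟩
    have key := fun (P : ℝ) (hP : P ≤ X ^ δ₀) (o : Option (PCh × ℝ))
      (ho : ∀ c ∈ PS P, ∀ ρ ∈ Zex o c (2 * η') X, ¬ (c = e ∧ ρ = 1 - (δ : ℂ))) =>
      exc_ZER hfin hC1 hC2 hε hc₀ hk2 hk3 hk4 hl1 hl2 hk0 hη₁ hη₂ hη'1 hη'2 hη'3 hδ₀ hδ1 hδ2 hX3'
        hLX hs1 hs2 hdh hδpos hδX hzf hP o ho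
    by_cases hr : (e.r : ℝ) ^ 2 ≤ X ^ δ₀
    · refine ⟨X ^ δ₀, hle, le_rfl, Or.inr ⟨e, δ, hRe, hr, hδpos, hδη, hLz, ?_, ?_, ?_⟩⟩
      · rw [← hρ₀]; exact hmz
      · refine le_trans ?_ (pow_le_pow_left₀ (by positivity) hmin 2)
        have c1 : (X ^ δ₀) ^ (-(1 / 100) : ℝ) ≤ ((e.r : ℝ) ^ 2) ^ (-(1 / 100) : ℝ) :=
          Real.rpow_le_rpow_of_nonpos (by positivity) hr (by norm_num)
        refine c1.trans (le_of_eq ?_)
        rw [← Real.rpow_natCast, ← Real.rpow_natCast, ← Real.rpow_mul hr0.le,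
          ← Real.rpow_mul hr0.le]
        norm_num
      · refine key _ le_rfl _ ?_
        rintro c - ρ hρ
        unfold Zex at hρ
        rw [mem_filter] at hρ
        exact hρ.2 e δ rfl
    · push Not at hr
      refine ⟨X ^ (δ₀ / 2), le_rfl, hle, Or.inl ?_⟩
      refine (key _ hle none ?_).trans ?_
      · rintro c hc ρ - ⟨hce, -⟩
        have c1 : (c.r : ℝ) ≤ X ^ (δ₀ / 2) := (hfin.1 _ _).1 hc
        rw [hce] at c1
        have c2 : (e.r : ℝ) ^ 2 ≤ (X ^ (δ₀ / 2)) ^ 2 := by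
          exact pow_le_pow_left₀ hr0.le c1 2
        have c3 : (X ^ (δ₀ / 2)) ^ 2 = X ^ δ₀ := by
          rw [← Real.rpow_natCast, ← Real.rpow_mul hXpos.le]
          congr 1
          push_cast
          ring
        linarith
      · have hm0 : 0 ≤ min 1 (δ * Real.log X) := le_min zero_le_one (by positivity)
        calc ε * (min 1 (δ * Real.log X)) ^ 2 ≤ ε * 1 :=
              mul_le_mul_of_nonneg_left (pow_le_one₀ hm0 (min_le_left _ _)) hε.le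
          _ = ε := mul_one _
  · push Not at hex
    refine ⟨X ^ δ₀, hle, le_rfl, Or.inl ?_⟩
    have h4 := tot_ZER (o := none) (η' := η') hfin hη₁ hη₂ hη'1 hη'2 hXone
      (Real.rpow_le_rpow_of_exponent_le hXone hδ1) (by linarith) (hs1 l₀ (by linarith))
      (hs2 l₀ (by linarith)) (by linarith) (fun c hc ρ hρ => by
        unfold Zex at hρ
        rw [mem_filter] at hρ
        have g := (hfin.2.1 c (2 * η') X ρ (by linarith)).1 hρ.1
        exact hex c ρ ((hfin.1 _ _).1 hc) g.1 g.2.2)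
    refine h4.trans (hl2.trans ?_)
    calc ε * k₀ ^ 2 ≤ ε * 1 :=
          mul_le_mul_of_nonneg_left (pow_le_one₀ hk0.le (by linarith)) hε.le
      _ = ε := mul_one _

end Pool.Agent.Helper23.MV
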