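import Pool.Agent.Helper23.GK.All
import Pool.Agent.Helper48.BK.Top
import Pool.Agent.Helper1.MV.M_HAR
import Pool.Agent.Helper88.MV.M_GAL
import Pool.Agent.Helper71.MV.M_FIN
import Pool.Agent.Helper73.MV.M_ES4
import Pool.Agent.Helper20.MV.M_TR1
import Pool.Agent.Helper8.MV.M_TR2
import Pool.Agent.Helper43.MV.M_GRW
import Pool.Agent.Helper23.MV.M_LD2
import Pool.Agent.Helper23.MV.M_LDR
import Pool.Agent.Helper88.MV.M_ZCT
import Pool.Agent.Helper7.MV.M_SEL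
import Pool.Agent.Helper80.MV.M_DEN
import Pool.Agent.Helper87.MV.M_MUH
import Pool.Agent.Helper69.MV.M_MUK
import Pool.Agent.Helper89.MV.M_PHK
import Pool.Agent.Helper47.MV.M_QTH
import Pool.Agent.Helper84.MV.M_AZ2
import Pool.Agent.Helper32.MV.M_AZ0
import Pool.Agent.Helper88.MV.M_LCS
import Pool.Agent.Helper74.MV.M_KER
import Pool.Agent.Helper33.MV.M_TNT
import Pool.Agent.Helper33.MV.M_DET
import Pool.Agent.Helper28.MV.M_PRD
import Pool.Agent.Helper12.MV.M_LFD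
import Pool.Agent.Helper61.MV.M_ZTD
import Pool.Agent.Helper6.MV.M_ZLW
import Pool.Agent.Helper6.MV.M_NUM
import Pool.Agent.Helper22.MV.M_WHB
import Pool.Agent.Helper96.MV.M_CSH
import Pool.Agent.Helper88.MV.M_PID
import Pool.Agent.Helper96.MV.M_PKR
import Pool.Agent.Helper94.MV.M_GRD
import Pool.Agent.Helper86.MV.M_PS1
import Pool.Agent.Helper32.MV.M_G0
import Pool.Agent.Helper34.MV.M_EXG
import Pool.Agent.Helper34.MV.M_GBF
import Pool.Agent.Helper26.MV.M_BDL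
import Pool.Agent.Helper40.MV.M_UN2
import Pool.Agent.Helper73.MV.M_IN2
import Pool.Agent.Helper86.MV.M_MGD
import Pool.Agent.Helper79.MV.M_AAM
import Pool.Agent.Helper42.MV.M_TG
import Pool.Agent.Helper28.MV.M_HG
import Pool.Agent.Helper46.MV.M_GG
import Pool.Agent.Helper87.MV.M_GWF
import Pool.Agent.Helper48.MV.M_SPB
import Pool.Agent.Helper37.MV.M_SHC
import Pool.Agent.Helper48.MV.M_GSX
import Pool.Agent.Helper1.MV.M_NEG
import Pool.Agent.Helper69.MV.M_SPA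
import Pool.Agent.Helper12.MV.M_FSX
import Pool.Agent.Helper79.MV.M_TAV
import Pool.Agent.Helper4.MV.M_TRF
import Pool.Agent.Helper36.MV.M_TRB
import Pool.Agent.Helper37.MV.M_TWB
import Pool.Agent.Helper83.MV.M_SER
import Pool.Agent.Helper71.MV.M_KFO
import Pool.Agent.Helper83.MV.M_KMN
import Pool.Agent.Helper20.MV.M_MNT
import Pool.Agent.Helper22.MV.M_MJA
import Pool.Agent.Helper39.MV.M_LDP
import Pool.Agent.Helper22.MV.M_ZF2
import Pool.Agent.Helper73.MV.M_SM1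
import Pool.Agent.Helper36.MV.M_SM2
import Pool.Agent.Helper85.MV.M_ZF1
import Pool.Agent.Helper4.MV.M_ZF3
import Pool.Agent.Helper40.MV.M_ZFX
import Pool.Agent.Helper69.MV.M_FFB
import Pool.Agent.Helper71.MV.M_HDI
import Pool.Agent.Helper99.MV.M_HYP
import Pool.Agent.Helper83.MV.M_TF1
import Pool.Agent.Helper90.MV.M_TF2
import Pool.Agent.Helper4.MV.M_LCT
import Pool.Agent.Helper83.MV.M_TF3
import Pool.Agent.Helper84.MV.M_GLO
import Pool.Agent.Helper70.MV.M_DH0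
import Pool.Agent.Helper47.MV.M_DHR
import Pool.Agent.Helper58.MV.M_SGZ
import Pool.Agent.Helper23.MV.M_ZER
import Pool.Agent.Helper89.MV.M_EXP
import Pool.Agent.Helper26.MV.M_MJF
import Pool.Agent.Helper28.MV.M_BSL
import Pool.Agent.Helper73.MV.M_NEF
import Pool.Agent.Helper69.MV.M_MIN
import Pool.Agent.Helper45.MV.MNB
import Pool.Agent.Helper99.MV.M_RRI
import Pool.Agent.Helper99.MV.M_JIN
import Pool.Agent.Helper47.MV.M_MJB
import Pool.Agent.Helper83.MV.M_FNC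
import Pool.Agent.Helper82.MV.M_COR

/-!
# Project MV: everything
-/

set_option autoImplicit false

namespace Pool.Agent.Helper23.MV.AllMV

theorem aHar : Pool.Agent.Helper23.MV.StHar :=
  Pool.Agent.Helper1.MV.hHar 
theorem aGal : Pool.Agent.Helper23.MV.StGal :=
  Pool.Agent.Helper88.MV.hGal 
theorem aFin : Pool.Agent.Helper23.MV.StFin :=
  Pool.Agent.Helper71.MV.hFin 
theorem aEs4 : Pool.Agent.Helper23.MV.StEs4 :=
  Pool.Agent.Helper73.MV.hEs4 Pool.Agent.Helper23.GK.AllGK.vin Pool.Agent.Helper23.GK.AllGK.ems Pool.Agent.Helper23.GK.AllGK.res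
theorem aTr1 : Pool.Agent.Helper23.MV.StTr1 :=
  Pool.Agent.Helper20.MV.hTr1 aEs4 Pool.Agent.Helper23.GK.AllGK.ap1
theorem aTr2 : Pool.Agent.Helper23.MV.StTr2 :=
  Pool.Agent.Helper8.MV.hTr2 aEs4
theorem aGrw : Pool.Agent.Helper23.MV.StGrw :=
  Pool.Agent.Helper43.MV.hGrw aTr1 aTr2
theorem aLd2 : Pool.Agent.Helper23.MV.StLd2 :=
  Pool.Agent.Helper23.MV.hLd2 
theorem aLdr : Pool.Agent.Helper23.MV.StLdr :=
  Pool.Agent.Helper23.MV.hLdr Pool.Agent.Helper23.GK.AllGK.tfo aGrw aLd2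
theorem aZct : Pool.Agent.Helper23.MV.StZct :=
  Pool.Agent.Helper88.MV.hZct aLdr
theorem aSel : Pool.Agent.Helper23.MV.StSel :=
  Pool.Agent.Helper7.MV.hSel 
theorem aDen : Pool.Agent.Helper23.MV.StDen :=
  Pool.Agent.Helper80.MV.hDen 
theorem aMuh : Pool.Agent.Helper23.MV.StMuh :=
  Pool.Agent.Helper87.MV.hMuh 
theorem aMuk : Pool.Agent.Helper23.MV.StMuk :=
  Pool.Agent.Helper69.MV.hMuk aMuh
theorem aPhk : Pool.Agent.Helper23.MV.StPhk :=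
  Pool.Agent.Helper89.MV.hPhk 
theorem aQth : Pool.Agent.Helper23.MV.StQth :=
  Pool.Agent.Helper47.MV.hQth aMuk aPhk
theorem aAz2 : Pool.Agent.Helper23.MV.StAz2 :=
  Pool.Agent.Helper84.MV.hAz2 aQth
theorem aAz0 : Pool.Agent.Helper23.MV.StAz0 :=
  Pool.Agent.Helper32.MV.hAz0 aAz2
theorem aLcs : Pool.Agent.Helper23.MV.StLcs :=
  Pool.Agent.Helper88.MV.hLcs 
theorem aKer : Pool.Agent.Helper23.MV.StKer :=
  Pool.Agent.Helper74.MV.hKer aTr1 aTr2 aLcs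
theorem aTnt : Pool.Agent.Helper23.MV.StTnt :=
  Pool.Agent.Helper33.MV.hTnt 
theorem aDet : Pool.Agent.Helper23.MV.StDet :=
  Pool.Agent.Helper33.MV.hDet aTr1 aAz0 aLcs
theorem aPrd : Pool.Agent.Helper23.MV.StPrd :=
  Pool.Agent.Helper28.MV.hPrd 
theorem aLfd : Pool.Agent.Helper23.MV.StLfd :=
  Pool.Agent.Helper12.MV.hLfd aSel aDen aHar aAz0 aKer aTnt aDet aPrd
theorem aZtd : Pool.Agent.Helper23.MV.StZtd :=
  Pool.Agent.Helper61.MV.hZtd aTr2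
theorem aZlw : Pool.Agent.Helper23.MV.StZlw :=
  Pool.Agent.Helper6.MV.hZlw 
theorem aNum : Pool.Agent.Helper23.MV.StNum :=
  Pool.Agent.Helper6.MV.hNum aFin aZct aLfd aZtd aZlw
theorem aWhb : Pool.Agent.Helper23.MV.StWhb :=
  Pool.Agent.Helper22.MV.hWhb 
theorem aCsh : Pool.Agent.Helper23.MV.StCsh :=
  Pool.Agent.Helper96.MV.hCsh 
theorem aPid : Pool.Agent.Helper23.MV.StPid :=
  Pool.Agent.Helper88.MV.hPid 
theorem aPkr : Pool.Agent.Helper23.MV.StPkr :=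
  Pool.Agent.Helper96.MV.hPkr 
theorem aGrd : Pool.Agent.Helper23.MV.StGrd :=
  Pool.Agent.Helper94.MV.hGrd aFin aGrw aLd2 aNum
theorem aPs1 : Pool.Agent.Helper23.MV.StPs1 :=
  Pool.Agent.Helper86.MV.hPs1 aFin aCsh aPid aPkr aNum aGrd
theorem aG0 : Pool.Agent.Helper23.MV.StG0 :=
  Pool.Agent.Helper32.MV.hG0 
theorem aExg : Pool.Agent.Helper23.MV.StExg :=
  Pool.Agent.Helper34.MV.hExg aFin aNum aPs1 aWhb aG0
theorem aGbf : Pool.Agent.Helper23.MV.StGbf :=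
  Pool.Agent.Helper34.MV.hGbf aFin aWhb aExg
theorem aBdl : Pool.Agent.Helper23.MV.StBdl :=
  Pool.Agent.Helper26.MV.hBdl aFin aNum aWhb aGbf
theorem aUn2 : Pool.Agent.Helper23.MV.StUn2 :=
  Pool.Agent.Helper40.MV.hUn2 
theorem aIn2 : Pool.Agent.Helper23.MV.StIn2 :=
  Pool.Agent.Helper73.MV.hIn2 Pool.Agent.Helper23.GK.AllGK.tfo Pool.Agent.Helper23.GK.AllGK.bca aGrw
theorem aMgd : Pool.Agent.Helper23.MV.StMgd :=
  Pool.Agent.Helper86.MV.hMgd aUn2 aCsh aPid aIn2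
theorem aAam : Pool.Agent.Helper23.MV.StAam :=
  Pool.Agent.Helper79.MV.hAam aMgd
theorem aTg : Pool.Agent.Helper23.MV.StTg :=
  Pool.Agent.Helper42.MV.hTg Pool.Agent.Helper23.GK.AllGK.mea Pool.Agent.Helper23.GK.AllGK.su0 Pool.Agent.Helper23.GK.AllGK.su2 Pool.Agent.Helper23.GK.AllGK.su3 aFin aAam
theorem aHg : Pool.Agent.Helper23.MV.StHg :=
  Pool.Agent.Helper28.MV.hHg Pool.Agent.Helper23.GK.AllGK.dec Pool.Agent.Helper23.GK.AllGK.mea Pool.Agent.Helper23.GK.AllGK.su0 aTg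
theorem aGg : Pool.Agent.Helper23.MV.StGg :=
  Pool.Agent.Helper46.MV.hGg aWhb aHg
theorem aGwf : Pool.Agent.Helper23.MV.StGwf :=
  Pool.Agent.Helper87.MV.hGwf 
theorem aSpb : Pool.Agent.Helper23.MV.StSpb :=
  Pool.Agent.Helper48.MV.hSpb aBdl aGg aGwf
theorem aShc : Pool.Agent.Helper23.MV.StShc :=
  Pool.Agent.Helper37.MV.hShc 
theorem aGs : Pool.Agent.Helper23.MV.StGs :=
  Pool.Agent.Helper48.MV.hGsx aFin aSpb aShc
theorem aNeg : Pool.Agent.Helper23.MV.StNeg :=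
  Pool.Agent.Helper1.MV.hNeg aGal aGs
theorem aSpa : Pool.Agent.Helper23.MV.StSpa :=
  Pool.Agent.Helper69.MV.hSpa aBdl aGwf
theorem aFs : Pool.Agent.Helper23.MV.StFs :=
  Pool.Agent.Helper12.MV.hFsx aFin aSpa aShc
theorem aTav : Pool.Agent.Helper23.MV.StTav :=
  Pool.Agent.Helper79.MV.hTav 
theorem aTrf : Pool.Agent.Helper23.MV.StTrf :=
  Pool.Agent.Helper4.MV.hTrf aTav
theorem aTrb : Pool.Agent.Helper23.MV.StTrb :=
  Pool.Agent.Helper36.MV.hTrb 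
theorem aTwb : Pool.Agent.Helper23.MV.StTwb :=
  Pool.Agent.Helper37.MV.hTwb 
theorem aSer : Pool.Agent.Helper23.MV.StSer :=
  Pool.Agent.Helper83.MV.hSer 
theorem aKfo : Pool.Agent.Helper23.MV.StKfo :=
  Pool.Agent.Helper71.MV.hKfo aTrf aTrb aTwb aSer
theorem aKmn : Pool.Agent.Helper23.MV.StKmn :=
  Pool.Agent.Helper83.MV.hKmn aKfo aTwb aSer
theorem aMnt : Pool.Agent.Helper23.MV.StMnt :=
  Pool.Agent.Helper20.MV.hMnt aFin aKmn
theorem aMja : Pool.Agent.Helper23.MV.StMja :=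
  Pool.Agent.Helper22.MV.hMja 
theorem aLdp : Pool.Agent.Helper23.MV.StLdp :=
  Pool.Agent.Helper39.MV.hLdp Pool.Agent.Helper23.GK.AllGK.tfo aGrw aLd2 aLdr
theorem aZf2 : Pool.Agent.Helper23.MV.StZf2 :=
  Pool.Agent.Helper22.MV.hZf2 aLdr aLdp
theorem aSm1 : Pool.Agent.Helper23.MV.StSm1 :=
  Pool.Agent.Helper73.MV.hSm1 aFin aZct aLfd
theorem aSm2 : Pool.Agent.Helper23.MV.StSm2 :=
  Pool.Agent.Helper36.MV.hSm2 aFin aZct aZtd aZlw Pool.Agent.Helper23.GK.AllGK.zfr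
theorem aZf1 : Pool.Agent.Helper23.MV.StZf1 :=
  Pool.Agent.Helper85.MV.hZf1 aFin aLdr aLdp aZlw
theorem aZf3 : Pool.Agent.Helper23.MV.StZf3 :=
  Pool.Agent.Helper4.MV.hZf3 aLdr aLdp aPrd
theorem aZfx : Pool.Agent.Helper23.MV.StZfx :=
  Pool.Agent.Helper40.MV.hZfx aZf1 aZf2 aZf3
theorem aFfb : Pool.Agent.Helper23.MV.StFfb :=
  Pool.Agent.Helper69.MV.hFfb 
theorem aHdi : Pool.Agent.Helper23.MV.StHdi :=
  Pool.Agent.Helper71.MV.hHdi aFfb
theorem aHyp : Pool.Agent.Helper23.MV.StHyp :=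
  Pool.Agent.Helper99.MV.hHyp 
theorem aTf1 : Pool.Agent.Helper23.MV.StTf1 :=
  Pool.Agent.Helper83.MV.hTf1 aTr1 aTr2 aPrd aHyp
theorem aTf2 : Pool.Agent.Helper23.MV.StTf2 :=
  Pool.Agent.Helper90.MV.hTf2 aTr1 aTr2 aHyp
theorem aLct : Pool.Agent.Helper23.MV.StLct :=
  Pool.Agent.Helper4.MV.hLct aHdi
theorem aTf3 : Pool.Agent.Helper23.MV.StTf3 :=
  Pool.Agent.Helper83.MV.hTf3 aTr1 aTr2 aPrd aHyp
theorem aGlo : Pool.Agent.Helper23.MV.StGlo :=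
  Pool.Agent.Helper84.MV.hGlo aFfb
theorem aDh0 : Pool.Agent.Helper23.MV.StDh0 :=
  Pool.Agent.Helper70.MV.hDh0 aFfb aHdi aTf3 aGlo aLct aSel
theorem aDhr : Pool.Agent.Helper23.MV.StDhr :=
  Pool.Agent.Helper47.MV.hDhr aFfb aHdi aTf1 aTf2 aLct aZlw aDh0
theorem aSgz : Pool.Agent.Helper23.MV.StSgz :=
  Pool.Agent.Helper58.MV.hSgz Pool.Agent.Helper23.GK.AllGK.ap1 Pool.Agent.Helper48.BK.tSg
theorem aZer : Pool.Agent.Helper23.MV.StZer :=
  Pool.Agent.Helper23.MV.hZer aFin aSm1 aSm2 aZfx aDhr aSgz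
theorem aExp : Pool.Agent.Helper23.MV.StExp :=
  Pool.Agent.Helper89.MV.hExp 
theorem aMjf : Pool.Agent.Helper23.MV.StMjf :=
  Pool.Agent.Helper26.MV.hMjf aFin aExp
theorem aBsl : Pool.Agent.Helper23.MV.StBsl :=
  Pool.Agent.Helper28.MV.hBsl 
theorem aNef : Pool.Agent.Helper23.MV.StNef :=
  Pool.Agent.Helper73.MV.hNef aGal aFs
theorem aMin : Pool.Agent.Helper23.MV.StMin :=
  Pool.Agent.Helper69.MV.hMin Pool.Agent.Helper48.BK.tVau Pool.Agent.Helper48.BK.hTh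
theorem aMnb : Pool.Agent.Helper23.MV.StMnb :=
  Pool.Agent.Helper45.MV.hMnb aMin aBsl
theorem aRri : Pool.Agent.Helper23.MV.StRri :=
  Pool.Agent.Helper99.MV.hRri 
theorem aJin : Pool.Agent.Helper23.MV.StJin :=
  Pool.Agent.Helper99.MV.hJin 
theorem aMjb : Pool.Agent.Helper23.MV.StMjb :=
  Pool.Agent.Helper47.MV.hMjb aFin aKfo aJin
theorem aFinC : Pool.Agent.Helper23.MV.StFinC :=
  Pool.Agent.Helper83.MV.hFnc aFin aZer aNef aNeg aMnb aMja aRri aMjf aMjb aMnt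
theorem aCor : Pool.Agent.Helper23.MV.StCor :=
  Pool.Agent.Helper82.MV.hCor aFinC

end Pool.Agent.Helper23.MV.AllMV
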