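import Pool.Agent.Helper23.MV.StC

/-!
# Project MV: the final form
-/

set_option autoImplicit false

namespace Pool.Agent.Helper23.MV

open Finset

/-- conversion of COR into the form of the hand-in -/
theorem final_of_cor (h : StCor) : ∃ C δ : ℝ, 0 < δ ∧ ∀ X : ℕ, 1 ≤ X →
    ({N : ℕ | 4 < N ∧ N ≤ X ∧ Even N ∧
      ¬ ∃ p : ℕ, p.Prime ∧ √(N : ℝ) < p ∧ (p : ℝ) < 4 * √(N : ℝ) ∧ (N - p).Prime}.ncard : ℝ) ≤
      C * (X : ℝ) ^ (1 - δ) := by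
  classical
  obtain ⟨C, d, hd, h⟩ := h
  refine ⟨C, d, hd, fun X hX => le_trans ?_ (h X hX)⟩
  rw [← Set.ncard_coe_finset]
  have hfin : ((((Icc 1 X).filter (fun N => Even N ∧ ¬ ∃ p : ℕ, p.Prime ∧ (N - p).Prime ∧ p < N ∧
    √(N : ℝ) < p ∧ (p : ℝ) < 4 * √(N : ℝ))) : Finset ℕ) : Set ℕ).Finite := Finset.finite_toSet _
  have : {N : ℕ | 4 < N ∧ N ≤ X ∧ Even N ∧
      ¬ ∃ p : ℕ, p.Prime ∧ √(N : ℝ) < p ∧ (p : ℝ) < 4 * √(N : ℝ) ∧ (N - p).Prime} ⊆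
      ((((Icc 1 X).filter (fun N => Even N ∧ ¬ ∃ p : ℕ, p.Prime ∧ (N - p).Prime ∧ p < N ∧
    √(N : ℝ) < p ∧ (p : ℝ) < 4 * √(N : ℝ))) : Finset ℕ) : Set ℕ) := by
    rintro N ⟨h4, hNX, hE, hno⟩
    simp only [coe_filter, mem_Icc, Set.mem_setOf_eq]
    refine ⟨⟨by omega, hNX⟩, hE, ?_⟩
    rintro ⟨p, hp, hq, -, h1, h2⟩
    exact hno ⟨p, hp, h1, h2, hq⟩
  exact_mod_cast Set.ncard_le_ncard this hfin

end Pool.Agent.Helper23.MV
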