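import Pool.Agent.Helper23.GK.StF

/-!
# Project MV (MP_b454d1_nt): a power saving for the exceptional set in the
Goldbach-Knjzek-Rivera conjecture. Definitions.

Reused notation: `ex t = exp(2πit)`, `th n = log n` on primes, `ch t n = n^{-it}`, `IsW` (weights),
`AA, blk2, cmu, cone, clog, PP, EU, Te, GA` (block polynomials), `cR` (Ramanujan sums).
-/

set_option autoImplicit false

namespace Pool.Agent.Helper23.MV

open Finset ArithmeticFunction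
open Pool.Agent.Helper48.BK (ex th Sx Apx)
open Pool.Agent.Helper2.MR (ch)
open Pool.Agent.Helper15.AB (IsW)
open Pool.Agent.Helper23.GK (cR GA)

/-! ### primitive characters and their zeros -/

/-- a primitive Dirichlet character together with its modulus -/
structure PCh where
  r : ℕ
  hr : r ≠ 0
  χ : DirichletCharacter ℂ r
  prim : χ.IsPrimitive

instance instNeZeroPCh (c : PCh) : NeZero c.r := ⟨c.hr⟩

/-- the value at a natural number -/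
noncomputable def PCh.ev (c : PCh) (n : ℕ) : ℂ := c.χ (n : ZMod c.r)

/-- the L-function -/
noncomputable def PCh.L (c : PCh) (s : ℂ) : ℂ := DirichletCharacter.LFunction c.χ s

/-- real and nonprincipal -/
def PCh.Re (c : PCh) : Prop := c.χ ^ 2 = 1 ∧ c.χ ≠ 1

open Classical in
/-- the primitive characters of conductor at most `Q` (a finite set, see `mem_PS`) -/
noncomputable def PS (Q : ℝ) : Finset PCh :=
  if h : {c : PCh | (c.r : ℝ) ≤ Q}.Finite then h.toFinset else ∅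

/-- zeros with `1 - η ≤ Re ρ`, `|Im ρ| ≤ T` -/
def Zs (c : PCh) (η T : ℝ) : Set ℂ := {ρ | c.L ρ = 0 ∧ 1 - η ≤ ρ.re ∧ |ρ.im| ≤ T}

open Classical in
/-- the same as a finite set (see `mem_ZF`, valid for `η ≤ 1/2`) -/
noncomputable def ZF (c : PCh) (η T : ℝ) : Finset ℂ :=
  if h : (Zs c η T).Finite then h.toFinset else ∅

/-- multiplicity of a zero -/
noncomputable def mz (c : PCh) (ρ : ℂ) : ℕ := analyticOrderNatAt c.L ρ

open Classical in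
/-- zeros other than the exceptional one; `o = some (e, δ)` means that `1 - δ` is the exceptional
zero, of the character `e` -/
noncomputable def Zex (o : Option (PCh × ℝ)) (c : PCh) (η T : ℝ) : Finset ℂ :=
  (ZF c η T).filter (fun ρ => ∀ (e : PCh) (δ : ℝ), o = some (e, δ) → ¬ (c = e ∧ ρ = 1 - (δ : ℂ)))

open Classical in
/-- main weight: `1` for the trivial character, `-u^{-δ}` for the exceptional character, `0` for
the others -/
noncomputable def mwt (o : Option (PCh × ℝ)) (c : PCh) (u : ℝ) : ℝ :=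
  (if c.χ = 1 then 1 else 0) -
    (match o with
      | none => 0
      | some (e, δ) => if c = e then u ^ (-δ) else 0)

/-- the sum `∑ m(ρ) Y^{Re ρ - 1}` over the nonexceptional zeros -/
noncomputable def ZS (o : Option (PCh × ℝ)) (c : PCh) (η T Y : ℝ) : ℝ :=
  ∑ ρ ∈ Zex o c η T, (mz c ρ : ℝ) * Y ^ (ρ.re - 1)

/-! ### truncated L-series -/

/-- `∑_{m ≤ y} ψ(m) m^{-s}` -/
noncomputable def DS {q : ℕ} (ψ : DirichletCharacter ℂ q) (y : ℝ) (s : ℂ) : ℂ :=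
  ∑ m ∈ Ioc 0 ⌊y⌋₊, ψ (m : ZMod q) * (m : ℂ) ^ (-s)

open Classical in
/-- `φ(q)/q` if `ψ` is principal, `0` otherwise -/
noncomputable def pc {q : ℕ} (ψ : DirichletCharacter ℂ q) : ℝ :=
  if ψ = 1 then (q.totient : ℝ) / q else 0

/-! ### sieve weights -/

/-- `∑_{d ∣ n, d ≤ z} μ(d) log(z/d)` -/
noncomputable def AZ (z : ℝ) (n : ℕ) : ℝ :=
  ∑ d ∈ n.divisors.filter (fun d : ℕ => (d : ℝ) ≤ z), (moebius d : ℝ) * Real.log (z / d)

/-- Barban-Vehov weights -/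
noncomputable def lam (z₁ z₂ : ℝ) (d : ℕ) : ℝ :=
  (moebius d : ℝ) * (Real.posLog (z₂ / d) - Real.posLog (z₁ / d)) / Real.log (z₂ / z₁)

/-- `∑_{d ∣ n} θ_d` -/
noncomputable def sd (θ : ℕ → ℝ) (n : ℕ) : ℝ := ∑ d ∈ n.divisors, θ d

/-- tent of height `2` in logarithmic scale: at least `1` on `|log u - Y₀| ≤ Y₁/2`, zero for
`|log u - Y₀| ≥ Y₁` -/
noncomputable def tn (Y₀ Y₁ u : ℝ) : ℝ := max 0 (2 * (1 - |Real.log u - Y₀| / Y₁))

/-- the weight used in the large value estimate: `Y₀ = 6.5 κ log X`, `Y₁ = 3 κ log X` -/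
noncomputable def tk (κ X u : ℝ) : ℝ := tn (13 / 2 * κ * Real.log X) (3 * κ * Real.log X) u

/-- `∏_{p ∣ d} g p` -/
noncomputable def gD (g : ℕ → ℝ) (d : ℕ) : ℝ := ∏ p ∈ d.primeFactors, g p

/-! ### the exceptional multiplicative function -/

/-- `∑_{d ∣ n} e(d) d^{-δ}` (real part) -/
noncomputable def ff (e : PCh) (δ : ℝ) (n : ℕ) : ℝ :=
  ∑ d ∈ n.divisors, (e.ev d).re * (d : ℝ) ^ (-δ)

/-- `∑_{n ≤ y} f(n) c(n) n^{-s}` -/
noncomputable def TF (e : PCh) (δ : ℝ) (c : PCh) (y : ℝ) (s : ℂ) : ℂ :=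
  ∑ n ∈ Ioc 0 ⌊y⌋₊, ((ff e δ n : ℝ) : ℂ) * c.ev n * (n : ℂ) ^ (-s)

/-- the coefficients `h_d(m)`, `d ∣ m ∣ d²`: `∏_{p ∣ d}` of `f(p)` (if `p ∥ m`) or `-e(p)p^{-δ}` -/
noncomputable def hd (e : PCh) (δ : ℝ) (d m : ℕ) : ℝ :=
  if d ∣ m ∧ m ∣ d ^ 2 then
    ∏ p ∈ d.primeFactors, (if p ^ 2 ∣ m then -((e.ev p).re * (p : ℝ) ^ (-δ)) else ff e δ p)
  else 0

/-- the density `g(p) = 1 - (1 - 1/p)(1 - e(p)p^{-1-δ})` -/
noncomputable def gf (e : PCh) (δ : ℝ) (p : ℕ) : ℝ :=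
  1 - (1 - 1 / (p : ℝ)) * (1 - (e.ev p).re * (p : ℝ) ^ (-1 - δ))

/-! ### explicit formula -/

/-- `∫_0^1 w(v) e^{zv} dv` -/
noncomputable def wh (w : ℝ → ℝ) (z : ℂ) : ℂ := ∫ v in (0 : ℝ)..1, (w v : ℂ) * Complex.exp (z * v)

/-- `∑_{n ≤ x} Λ(n) c(n) n^{-it} log(x/n)` -/
noncomputable def Ps (c : PCh) (t x : ℝ) : ℂ :=
  ∑ n ∈ Ioc 0 ⌊x⌋₊, ((Λ n : ℝ) : ℂ) * c.ev n * ch t n * ((Real.log (x / n) : ℝ) : ℂ)

/-- the balanced weight `w(log(m/X)) (Λ(m) c(m) - mwt(m))` -/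
noncomputable def gm (o : Option (PCh × ℝ)) (c : PCh) (w : ℝ → ℝ) (X m : ℕ) : ℂ :=
  ((w (Real.log (m / X)) : ℝ) : ℂ) * (((Λ m : ℝ) : ℂ) * c.ev m - ((mwt o c m : ℝ) : ℂ))

/-- `∑ gm(m) m^{-1-it}` -/
noncomputable def GO (o : Option (PCh × ℝ)) (c : PCh) (w : ℝ → ℝ) (X : ℕ) (t : ℝ) : ℂ :=
  ∑ m ∈ Icc 1 (3 * X), gm o c w X m / m * ch t m

/-- bad frequencies -/
def Bd (c : PCh) (η : ℝ) (X : ℕ) : Set ℝ :=
  {t | |t| ≤ (X : ℝ) ^ (η / 10) ∨ ∃ ρ ∈ ZF c (2 * η) X, |ρ.im - t| ≤ (X : ℝ) ^ (η / 10)}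

/-! ### circle method -/

/-- exponential sum with complex coefficients -/
noncomputable def Sc (f : ℕ → ℂ) (y : ℕ) (α : ℝ) : ℂ := ∑ n ∈ Ioc 0 y, f n * ex (n * α)

open Classical in
/-- `log p` on the primes of `(2H, 3H]` -/
noncomputable def fa (H n : ℕ) : ℝ := if 2 * H < n ∧ n ≤ 3 * H then th n else 0

/-- trapezoid: `1` on `[N₀ - 3H, N₀ - H]`, `0` outside `[N₀ - 4H, N₀]`, slopes `±1/H` -/
noncomputable def vt (N₀ H : ℕ) (u : ℝ) : ℝ :=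
  max 0 (min 1 (min ((u - ((N₀ : ℝ) - 4 * H)) / H) (((N₀ : ℝ) - u) / H)))

open Classical in
/-- error of the character sum over `(2H, 3H]` -/
noncomputable def Ef (o : Option (PCh × ℝ)) (c : PCh) (H : ℕ) (β : ℝ) : ℂ :=
  ∑ n ∈ Ioc (2 * H) (3 * H), (((th n : ℝ) : ℂ) * c.ev n - ((mwt o c n : ℝ) : ℂ)) * ex (n * β)

open Classical in
/-- error of the weighted character sum over the window of the block `[N₀, N₀ + H)` -/
noncomputable def Eg (o : Option (PCh × ℝ)) (c : PCh) (N₀ H : ℕ) (β : ℝ) : ℂ :=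
  ∑ m ∈ Icc 1 N₀, (((th m : ℝ) : ℂ) * c.ev m - ((mwt o c m : ℝ) : ℂ)) * ((vt N₀ H m : ℝ) : ℂ) *
    ex (m * β)

/-- main sums -/
noncomputable def Mf (o : Option (PCh × ℝ)) (c : PCh) (H : ℕ) (β : ℝ) : ℂ :=
  ∑ n ∈ Ioc (2 * H) (3 * H), ((mwt o c n : ℝ) : ℂ) * ex (n * β)

/-- main sums -/
noncomputable def Mg (o : Option (PCh × ℝ)) (c : PCh) (N₀ H : ℕ) (β : ℝ) : ℂ :=
  ∑ m ∈ Icc 1 N₀, ((mwt o c m : ℝ) : ℂ) * ((vt N₀ H m : ℝ) : ℂ) * ex (m * β)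

/-- Gauss sum modulo `q` of the character induced by the conjugate of `c` -/
noncomputable def ta (c : PCh) (q : ℕ) : ℂ :=
  ∑ b ∈ (range q).filter (fun b => Nat.Coprime b q), (starRingEnd ℂ) (c.ev b) * ex ((b : ℝ) / q)

/-- `∑_{a mod q}^* c₁(a) c₂(a) e(-aN/q)` -/
noncomputable def cq (c₁ c₂ : PCh) (q N : ℕ) : ℂ :=
  ∑ a ∈ (range q).filter (fun a => Nat.Coprime a q), c₁.ev a * c₂.ev a * ex (-((a : ℝ) * N / q))

/-- L2 norm over `|β| ≤ B` -/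
noncomputable def nrm (F : ℝ → ℂ) (B : ℝ) : ℝ := √(∫ β in (-B)..B, ‖F β‖ ^ 2)

end Pool.Agent.Helper23.MV
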