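import Pool.Agent.Helper23.MV.StP

/-!
# Project MV: statements, part C (circle method). `H = ⌊√X⌋`, `L = log X`.

The number `∑_{2H<n≤3H} th n · th(N-n)` is positive for all even `N ∈ (X, 2X]` outside a set of size `X^{1-d}`.
Major arcs `|α - a/q| ≤ P/H`, `q ≤ P`. Blocks `N ∈ (N₀, N₀+H]`, `N₀ = X + jH`.
-/

set_option autoImplicit false

namespace Pool.Agent.Helper23.MV

open Finset ArithmeticFunction MeasureTheory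
open Pool.Agent.Helper48.BK (ex th Sx Apx)
open Pool.Agent.Helper2.MR (ch)
open Pool.Agent.Helper23.GK (cR SS)

/-! ### definitions -/

/-- the sum over the primes of `(2H, 3H]` -/
noncomputable def SfH (H : ℕ) (α : ℝ) : ℂ := ∑ n ∈ Ioc (2 * H) (3 * H), ((th n : ℝ) : ℂ) * ex (n * α)

/-- the weighted sum over the primes of the window of a block -/
noncomputable def SgH (N₀ H : ℕ) (α : ℝ) : ℂ :=
  ∑ m ∈ Icc 1 N₀, ((th m : ℝ) : ℂ) * ((vt N₀ H m : ℝ) : ℂ) * ex (m * α)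

/-- minor arcs -/
def mn (P B : ℝ) : Set ℝ :=
  {α | α ∈ Set.Icc (0 : ℝ) 1 ∧ ∀ q : ℕ, 1 ≤ q → (q : ℝ) ≤ P → ∀ a : ℤ, B < |α - a / q|}

open Classical in
/-- `∑ c₁(n) c₂(N-n)` over the `n` modulo `R` with `n`, `N-n` prime to `R` (`N - n ≡ N + (R-1)n`) -/
noncomputable def tw (c₁ c₂ : PCh) (R N : ℕ) : ℂ :=
  ∑ n ∈ (range R).filter (fun n => Nat.Coprime n R ∧ Nat.Coprime (N + (R - 1) * n) R),
    c₁.ev n * c₂.ev (N + (R - 1) * n)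

open Classical in
/-- the number of `n` modulo `R` with `n`, `N-n` prime to `R` -/
noncomputable def nu (R N : ℕ) : ℕ :=
  ((range R).filter (fun n => Nat.Coprime n R ∧ Nat.Coprime (N + (R - 1) * n) R)).card

open Classical in
/-- local factor of the singular series -/
noncomputable def spf (N p : ℕ) : ℝ :=
  if p ∣ N then (p : ℝ) / (p - 1) else (p : ℝ) * (p - 2) / (p - 1) ^ 2

/-- `∏_{p ∣ R}` of the local factors -/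
noncomputable def SPr (R N : ℕ) : ℝ := ∏ p ∈ R.primeFactors, spf N p

open Classical in
/-- `∑_{s ≤ y} μ²(s) c_s(N) / φ(s)²` over `(s, R) = 1` -/
noncomputable def GS (R : ℕ) (y : ℝ) (N : ℕ) : ℝ :=
  ∑ s ∈ (Icc 1 ⌊y⌋₊).filter (fun s => Squarefree s ∧ Nat.Coprime s R),
    (cR s N : ℝ) / (Nat.totient s : ℝ) ^ 2

open Classical in
/-- coefficients of the pairs of characters -/
noncomputable def KK (c₁ c₂ : PCh) (P : ℝ) (N : ℕ) : ℂ :=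
  ∑ q ∈ (Icc 1 ⌊P⌋₊).filter (fun q => c₁.r ∣ q ∧ c₂.r ∣ q),
    ta c₁ q * ta c₂ q * cq c₁ c₂ q N / (Nat.totient q : ℂ) ^ 2

/-! ### errors -/

/-- GAL (Gallagher's inequality, discrete).

Proof. `K(β) = ∑_{j<h} e(-jβ)`; `F(β)K(β) = ∑_y (∑_{y<n≤y+h} c_n) e((y+1)β)` (sum over all integers `y`; the window meets `(a,b]`
only for `a - h < y < b`), Parseval over `[-1/2,1/2]`, and `|K(β)| = |sin(πhβ)/sin(πβ)| ≥ 2h/π` for `|β| ≤ 1/(2h)`. -/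
def StGal : Prop := ∀ (c : ℕ → ℂ) (a b h : ℕ) (B : ℝ), 1 ≤ h → h ≤ a → a ≤ b → 0 ≤ B →
  B ≤ 1 / (2 * h) →
  ∫ β in (-B)..B, ‖∑ n ∈ Ioc a b, c n * ex (n * β)‖ ^ 2 ≤ Real.pi ^ 2 / (4 * (h : ℝ) ^ 2) *
    ∑ y ∈ Ico (a - h) b, ‖∑ n ∈ (Ioc y (y + h)).filter (fun n => a < n ∧ n ≤ b), c n‖ ^ 2

/-- NEF (norm of the errors at the primes of size `√X`).

Proof. GAL with `a = 2H`, `b = 3H`, `h = ⌊H/(2P)⌋ ≥ H/(4P)` (`B = P/H ≤ 1/(2h)`); each window is an interval of length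
`≤ h` in `(2H,3H]`, FS; at most `2H` windows: `nrm² ≤ (π²/4h²) 2H C² (h ZS + √X X^{-η/100})²`, and
`√X/h ≤ 5P ≤ 5X^{η/100000}`. -/
def StNef : Prop := ∃ η₁ : ℝ, 0 < η₁ ∧ η₁ ≤ 1 / 100 ∧ ∀ η : ℝ, 0 < η → η ≤ η₁ →
  ∃ C X0 : ℝ, 1 ≤ C ∧ 2 ≤ X0 ∧ ∀ (X : ℕ) (o : Option (PCh × ℝ)) (c : PCh) (P : ℝ), X0 ≤ X →
  OKo o η X → (c.r : ℝ) ≤ (X : ℝ) ^ (η / 1000) → 1 ≤ P → P ≤ (X : ℝ) ^ (η / 100000) →
  nrm (Ef o c (Nat.sqrt X)) (P / Nat.sqrt X) ≤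
    C * √(Nat.sqrt X : ℝ) * (ZS o c (2 * η) X (√(X : ℝ)) + (X : ℝ) ^ (-(η / 200)))

/-- NEG (norm of the errors at the primes of the windows, all but few blocks).

Proof. GAL with `a = N₀ - 4H`, `b = N₀`, `h = ⌊H/(2P)⌋`, `c_m = (th m c(m) - mwt m) vt(m)` (`vt = 0` outside `(a,b)`, so the
filter in GAL may be dropped). With `D(y,j) = |∑_{y<m≤y+j}(th c - mwt)|`, Abel summation (`|vt| ≤ 1`, differences `≤ 1/H`):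
`|∑_{y<m≤y+h} c_m| ≤ D(y,h) + (1/H)∑_{1≤j<h} D(y,j)`. Let `E(y,j)` be the positive part in GS, `D ≤ C(j ZS + √X X^{-η/2000}) + E`.
So `|window|² ≤ 8C²(h ZS + √X X^{-η/2000})² + 4E(y,h)² + (4/H)∑_{j<h}E(y,j)²`. A block is bad if the sum of the last two terms
over its windows exceeds `H X^{1-η/200}`; each `y` belongs to at most `6` blocks and GS gives `≤ 48 X^{2-η/100}` for the sum
over all blocks, so at most `100 X^{1/2-η/200}` blocks are bad. For the others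
`nrm² ≤ (π²/4h²)(5H·8C²(..)² + H X^{1-η/200})`, `√X/h ≤ 5X^{η/100000}`. -/
def StNeg : Prop := ∃ η₁ : ℝ, 0 < η₁ ∧ η₁ ≤ 1 / 100 ∧ ∀ η : ℝ, 0 < η → η ≤ η₁ →
  ∃ C X0 : ℝ, 1 ≤ C ∧ 2 ≤ X0 ∧ ∀ (X : ℕ) (o : Option (PCh × ℝ)) (c : PCh) (P : ℝ), X0 ≤ X →
  OKo o η X → (c.r : ℝ) ≤ (X : ℝ) ^ (η / 1000) → 1 ≤ P → P ≤ (X : ℝ) ^ (η / 100000) →
  (((range X).filter (fun j => j * Nat.sqrt X < X ∧
    C * √(Nat.sqrt X : ℝ) * (ZS o c (2 * η) X (√(X : ℝ)) + (X : ℝ) ^ (-(η / 4000))) <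
      nrm (Eg o c (X + j * Nat.sqrt X) (Nat.sqrt X)) (P / Nat.sqrt X))).card : ℝ) ≤
    (X : ℝ) ^ (1 / 2 - η / 250)

/-! ### minor arcs -/

/-- MIN (minor arcs).

Proof. Dirichlet with `Q = ⌊H/P⌋`: `(a,q) = 1`, `1 ≤ q ≤ Q`, `|α - a/q| ≤ 1/(q(Q+1)) ≤ P/(qH) ≤ P/H`, so `q > P` by the
hypothesis, and `|α - a/q| ≤ 1/q²`. `StVau` of `Helper48/BK` (`hVau`) with `x = 3H`, `U = ⌊(3H)^{1/3}⌋`, `y = 3H` and `y = 2H`: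
`≤ C(H/√q + H^{5/6} + √(Hq) + H^{2/3})L^6`, `H^{5/6} ≤ H P^{-1/2}`, `√(Hq) ≤ H P^{-1/2}`. `Λ - th` contributes `≤ C√H L²`. -/
def StMin : Prop := ∃ C X0 : ℝ, 1 ≤ C ∧ 2 ≤ X0 ∧ ∀ (H : ℕ) (P α : ℝ), X0 ≤ H → 1 ≤ P →
  P ≤ (H : ℝ) ^ (1 / 10 : ℝ) → α ∈ mn P (P / H) →
  ‖SfH H α‖ ≤ C * H * P ^ (-(1 / 2) : ℝ) * Real.log H ^ 6

/-- BSL (Bessel). The functions `e(Nα)` are orthonormal in `L²[0,1]`. -/
def StBsl : Prop := ∀ (F : ℝ → ℂ) (M : Set ℝ) (S : Finset ℕ), Continuous F → MeasurableSet M →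
  M ⊆ Set.Icc 0 1 → ∑ N ∈ S, ‖∫ α in M, F α * ex (-(N * α))‖ ^ 2 ≤ ∫ α in M, ‖F α‖ ^ 2

/-- MNB (minor arcs in a block). Proof. BSL with `F = SfH·SgH`, `M = mn` (closed conditions fail: it is a Borel set, a
countable intersection of open sets and `[0,1]`), MIN, and Parseval: `∫_0^1 |SgH|² = ∑ th² vt² ≤ 4H log²(2X)`. -/
def StMnb : Prop := ∃ C X0 : ℝ, 1 ≤ C ∧ 2 ≤ X0 ∧ ∀ (X j : ℕ) (P : ℝ), X0 ≤ X → 1 ≤ P →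
  P ≤ (X : ℝ) ^ (1 / 100 : ℝ) → j * Nat.sqrt X < X →
  ∑ N ∈ Ioc (X + j * Nat.sqrt X) (X + j * Nat.sqrt X + Nat.sqrt X),
    ‖∫ α in mn P (P / Nat.sqrt X), SfH (Nat.sqrt X) α * SgH (X + j * Nat.sqrt X) (Nat.sqrt X) α *
      ex (-(N * α))‖ ^ 2 ≤ C * (X : ℝ) ^ (3 / 2 : ℝ) / P * Real.log X ^ 14

/-- MJA (dissection). Proof. Two fractions `a/q ≠ a'/q'` (also modulo `1`) with `q, q' ≤ P` have distance
`≥ 1/P² > 2B`, so the arcs `[a/q - B, a/q + B]`, `0 ≤ a < q`, are disjoint modulo `1`; their union modulo `1` is the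
complement of `mn` (up to a null set); `G` has period `1`. -/
def StMja : Prop := ∀ (G : ℝ → ℂ) (P B : ℝ), Continuous G → (∀ x, G (x + 1) = G x) → 1 ≤ P →
  0 < B → 2 * B * P ^ 2 < 1 →
  ∫ α in (0 : ℝ)..1, G α = (∫ α in mn P B, G α) +
    ∑ q ∈ Icc 1 ⌊P⌋₊, ∑ a ∈ (range q).filter (fun a => Nat.Coprime a q),
      ∫ β in (-B)..B, G ((a : ℝ) / q + β)

/-! ### characters -/

/-- EXP (expansion of `e(na/q)` in primitive characters).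

Proof. The characters `χ` modulo `q` correspond to the primitive characters `c` with `c.r ∣ q` (Mathlib:
`primitiveCharacter`, `changeLevel`), `χ(n) = c(n)` for `(n,q) = 1`. Orthogonality: `∑_χ χ(na) conj χ(b) = φ(q) 1_{b ≡ na}`;
multiply by `e(b/q)` and sum over `b`. -/
def StExp : Prop := ∀ (q n a : ℕ), 1 ≤ q → Nat.Coprime n q → Nat.Coprime a q →
  ex ((n : ℝ) * a / q) = (1 / (Nat.totient q : ℂ)) *
    ∑ c ∈ (PS q).filter (fun c => c.r ∣ q), ta c q * c.ev a * c.ev n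

/-- TAV (vanishing of Gauss sums). Proof. Let `p` be a prime with `p ∣ q/r` and (`p ∣ r` or `p² ∣ q/r`), `q' = q/p`. Then
`r ∣ q'` and `q'` has the same prime factors as `q`. So `b ↦ b + q'` permutes the units modulo `q`, `c(b+q') = c(b)`,
`e((b+q')/q) = e(b/q)e(1/p)`; hence `ta = e(1/p) ta = 0`. -/
def StTav : Prop := ∀ (c : PCh) (q : ℕ), q ≠ 0 → c.r ∣ q → ta c q ≠ 0 →
  Squarefree (q / c.r) ∧ Nat.Coprime (q / c.r) c.r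

/-- TRF (the moduli `q = R s`, `R = [r₁, r₂]`).

Proof. If `p² ∣ s` or `p ∣ (s, R)` then TAV for `c₁` or `c₂` (if `p ∣ s`, `p ∣ r_i` then `p ∣ (q/r_i, r_i)`; if `p² ∣ s` then
`p² ∣ q/r_1`). Otherwise CRT, `b = b₁ s + b₂ R`: `ta c (Rs) = conj c(s) μ(s) ta c R` (`∑_{b₂} e(b₂/s) = μ(s)`),
`cq c₁ c₂ (Rs) N = c₁(s)c₂(s) cq c₁ c₂ R N · c_s(N)` (`AllGK.ram`), and `|c_i(s)| = 1`, `μ(s)² = 1`. -/
def StTrf : Prop := ∀ (c₁ c₂ : PCh) (s N : ℕ), 1 ≤ s →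
  (Squarefree s → Nat.Coprime s (Nat.lcm c₁.r c₂.r) →
    ta c₁ (Nat.lcm c₁.r c₂.r * s) * ta c₂ (Nat.lcm c₁.r c₂.r * s) *
        cq c₁ c₂ (Nat.lcm c₁.r c₂.r * s) N =
      ta c₁ (Nat.lcm c₁.r c₂.r) * ta c₂ (Nat.lcm c₁.r c₂.r) * cq c₁ c₂ (Nat.lcm c₁.r c₂.r) N *
        ((cR s N : ℤ) : ℂ)) ∧
  (¬ (Squarefree s ∧ Nat.Coprime s (Nat.lcm c₁.r c₂.r)) →
    ta c₁ (Nat.lcm c₁.r c₂.r * s) * ta c₂ (Nat.lcm c₁.r c₂.r * s) = 0)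

/-- TRB (physical form of the term `q = R = [r₁, r₂]`).

Proof. `f_i(n) = c_i(n) 1_{(n,R)=1}` on `ℤ/R`, `f^(a) = (1/R)∑ f(n)e(-an/R)`. `(1/R) tw = (1/R)∑_n f₁(n)f₂(N-n) =
∑_{a mod R} f₁^(a) f₂^(a) e(aN/R)`. For `(a,R) = 1`: `f_i^(a) = (1/R) conj c_i(a) conj(ta c_i R)`; these `a` give
`R^{-2} conj(ta ta cq)`. For `(a,R) = g > 1` put `R' = R/g`; some `r_i ∤ R'`. Then `f_i^(a) = 0`: there is a unit `u` modulo `R`,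
`u ≡ 1 (mod R')`, with `c_i(u) ≠ 1` (otherwise `c_i` lifted to `R` factors through `R'`,
`DirichletCharacter.factorsThrough_iff_ker_unitsMap`, and the conductor `r_i` would divide `R'`), and the substitution
`n → un` gives `f_i^(a) = c_i(u) f_i^(a)`. -/
def StTrb : Prop := ∀ (c₁ c₂ : PCh) (N : ℕ),
  ta c₁ (Nat.lcm c₁.r c₂.r) * ta c₂ (Nat.lcm c₁.r c₂.r) * cq c₁ c₂ (Nat.lcm c₁.r c₂.r) N =
    (Nat.lcm c₁.r c₂.r : ℂ) * (starRingEnd ℂ) (tw c₁ c₂ (Nat.lcm c₁.r c₂.r) N)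

/-- TWB (bounds). Proof. `|c(n)| ≤ 1`. `nu` is multiplicative in `R` (CRT), `nu (p^k) = p^{k-1}(p-1)` if `p ∣ N` and
`p^{k-1}(p-2)` otherwise; `R/φ(R)² = ∏ p^k/(p^{k-1}(p-1))²`. -/
def StTwb : Prop := (∀ (c₁ c₂ : PCh) (R N : ℕ), ‖tw c₁ c₂ R N‖ ≤ nu R N) ∧
  ∀ (R N : ℕ), 1 ≤ R → (R : ℝ) / (Nat.totient R : ℝ) ^ 2 * nu R N = SPr R N

/-- SER (the singular series outside `R`), `N ≥ 1` even.

Proof. `f(s) = μ²(s)1_{(s,R)=1} c_s(N)/φ(s)²` is multiplicative, `|c_s(N)| ≤ (s,N)` for squarefree `s` (`c_p(N) = p-1` if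
`p ∣ N`, else `-1`). (a) `∑_{s≤y}|f(s)| ≤ ∏_{p∣N,p∤R} p/(p-1) ∏_p (1+1/(p-1)²)`; `SPr R N ≤ ∏_{p∣(R,N)} p/(p-1)`; and
`∏_{p∣N} p/(p-1) ≤ 2 SS N` (`p/(p-1) ≤ (p-1)/(p-2)`, twice the twin prime constant is at least `1`, see `StSsa`). (b) Euler
product (see `StSsb`, `AllGK.ssb`): `∑_s f(s) = ∏_{p∤R} spf N p = SS N / SPr R N` (the factor of `p` is `spf N p ≠ 0`, `N` even),
and the tail: `∑_{s>y}(s,N)/φ(s)² ≤ ∑_{d∣N} d ∑_{s>y, d∣s} 1/φ(s)² ≤ C∑_{d∣N} d·d^{-1}y^{-1/2}` (`φ(s)² ≥ c s^{3/2}`). -/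
def StSer : Prop := ∃ C : ℝ, 1 ≤ C ∧ ∀ (R N : ℕ) (y : ℝ), 1 ≤ R → 1 ≤ N → Even N → 0 < y →
  SPr R N * ∑ s ∈ (Icc 1 ⌊y⌋₊).filter (fun s => Squarefree s ∧ Nat.Coprime s R),
    |(cR s N : ℝ)| / (Nat.totient s : ℝ) ^ 2 ≤ C * SS N ∧
  SPr R N ≤ 2 * SS N ∧
  |SPr R N * GS R y N - SS N| ≤ C * SPr R N * (N.divisors.card : ℝ) * y ^ (-(1 / 2) : ℝ)

/-- KFO (the coefficients). Proof. Write `q = R s`; TRF, TRB, `φ(Rs) = φ(R)φ(s)` for `(R,s) = 1`. Second part: TWB and SER. -/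
def StKfo : Prop := (∀ (c₁ c₂ : PCh) (P : ℝ) (N : ℕ), 1 ≤ P →
    KK c₁ c₂ P N = (((Nat.lcm c₁.r c₂.r : ℝ) / (Nat.totient (Nat.lcm c₁.r c₂.r) : ℝ) ^ 2 *
      GS (Nat.lcm c₁.r c₂.r) (P / Nat.lcm c₁.r c₂.r) N : ℝ) : ℂ) *
        (starRingEnd ℂ) (tw c₁ c₂ (Nat.lcm c₁.r c₂.r) N)) ∧
  ∃ C : ℝ, 1 ≤ C ∧ ∀ (c₁ c₂ : PCh) (P : ℝ) (N : ℕ), 1 ≤ P → 1 ≤ N → Even N →
    ‖KK c₁ c₂ P N‖ ≤ C * SS N

/-- KMN (main terms; `t` is the trivial character).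

Proof. (i) KFO with `R = 1`, `tw = 1`, SER. (ii) `R = e.r =: r` for the three pairs with `e`, `y = P/r ≥ √P`. By KFO and SER, up to
the error: `KK e t = (r/φ(r)²) tw(e,t,r) · SS N/SPr r N` and similarly for the others, and `KK t t = SS N =
(r/φ(r)²) nu r N · SS N/SPr r N` (TWB). `tw` is real here (`e` real). So the combination is
`SS N/SPr r N · (r/φ(r)²) ∑_n (1 - u e(n))(1 - v e(N-n))` over the `nu r N` values `n`, each factor is `≥ (1-u)(1-v)`. If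
`SPr r N = 0`... this does not happen for even `N` (`spf N 2 = 2`, `spf N p > 0` for `p > 2`). Errors: four terms
`C SPr r N τ(N) y^{-1/2}`, `y^{-1/2} ≤ P^{-1/4}`, multiplied by `(r/φ(r)²)|tw|/SPr ≤ 1`. -/
def StKmn : Prop := ∃ C : ℝ, 1 ≤ C ∧ ∀ (t : PCh) (P : ℝ) (N : ℕ), t.χ = 1 → 1 ≤ P → 1 ≤ N → Even N →
  ‖KK t t P N - ((SS N : ℝ) : ℂ)‖ ≤ C * (N.divisors.card : ℝ) * P ^ (-(1 / 2) : ℝ) ∧
  ∀ (e : PCh) (u v : ℝ), e.Re → (e.r : ℝ) ^ 2 ≤ P → 0 ≤ u → u ≤ 1 → 0 ≤ v → v ≤ 1 →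
    (1 - u) * (1 - v) * SS N - C * SS N * (N.divisors.card : ℝ) * P ^ (-(1 / 4) : ℝ) ≤
      (KK t t P N - (u : ℂ) * KK e t P N - (v : ℂ) * KK t e P N + (u * v : ℂ) * KK e e P N).re

/-- JIN (integrals of the main sums), `N ∈ (N₀, N₀+H]`, `4H < N₀`.

Proof. Parseval over `[-1/2,1/2]`: `∑_n mwt c₁ n · mwt c₂ (N-n) vt(N-n)` and `vt(N-n) = 1` because
`N₀ - 3H < N - n < N₀ - H` for `2H < n ≤ 3H`. For `B < |β| ≤ 1/2`: `|∑_{n≤y} e(nβ)| ≤ 1/(2|β|)`, and by Abel summation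
`|Mf| ≤ 1/|β|` (monotone weight in `[0,1]` up to sign), `|Mg| ≤ 2/|β|` (total variation at most `3`), so the rest is at most
`2∫_B^∞ 2β^{-2}dβ`. -/
def StJin : Prop := ∀ (o : Option (PCh × ℝ)) (c₁ c₂ : PCh) (H N₀ N : ℕ) (B : ℝ), OKb o 1 → 1 ≤ H →
  4 * H < N₀ → N₀ < N → N ≤ N₀ + H → 0 < B → B ≤ 1 / 2 →
  ‖(∫ β in (-B)..B, Mf o c₁ H β * Mg o c₂ N₀ H β * ex (-(N * β))) -
    ((∑ n ∈ Ioc (2 * H) (3 * H), mwt o c₁ n * mwt o c₂ ((N - n : ℕ) : ℝ) : ℝ) : ℂ)‖ ≤ 4 / B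

/-- MJF (major arcs). Proof. The primes `n > 2H` and `m ≥ N₀ - 4H` with nonzero weight are `> P ≥ q`, hence prime to `q`; EXP
for both sums at `a/q + β`; sum over `a` (definition of `cq`); interchange the sums. -/
def StMjf : Prop := ∀ (o : Option (PCh × ℝ)) (H N₀ N : ℕ) (P B : ℝ), 1 ≤ H → 1 ≤ P → P < H →
  5 * H < N₀ → 0 ≤ B →
  ∑ q ∈ Icc 1 ⌊P⌋₊, ∑ a ∈ (range q).filter (fun a => Nat.Coprime a q),
      ∫ β in (-B)..B, SfH H ((a : ℝ) / q + β) * SgH N₀ H ((a : ℝ) / q + β) *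
        ex (-(N * ((a : ℝ) / q + β))) =
    ∑ c₁ ∈ PS P, ∑ c₂ ∈ PS P, KK c₁ c₂ P N *
      ∫ β in (-B)..B, (Mf o c₁ H β + Ef o c₁ H β) * (Mg o c₂ N₀ H β + Eg o c₂ N₀ H β) *
        ex (-(N * β))

/-! ### conclusion -/

open Classical in
/-- `1`, or `min 1 (δ log X)` if there is an exceptional zero `1 - δ` -/
noncomputable def mm (o : Option (PCh × ℝ)) (X : ℝ) : ℝ :=
  match o with
  | none => 1
  | some (_, δ) => min 1 (δ * Real.log X)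

/-- RRI (the number of representations). Proof. Orthogonality; `vt(N-n) = 1` as in JIN. -/
def StRri : Prop := ∀ (H N₀ N : ℕ), 1 ≤ H → 4 * H < N₀ → N₀ < N → N ≤ N₀ + H →
  ((∑ n ∈ Ioc (2 * H) (3 * H), th n * th (N - n) : ℝ) : ℂ) =
    ∫ α in (0 : ℝ)..1, SfH H α * SgH N₀ H α * ex (-(N * α))

/-- MJB (errors on the major arcs). `a c`, `b c` bound the norms of `Ef`, `Eg`.

Proof. For each pair `|∫(Mf+Ef)(Mg+Eg)e(-Nβ) - ∫ Mf Mg e(-Nβ)| ≤ nrm Ef nrm Mg + nrm Mf nrm Eg + nrm Ef nrm Eg`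
(Cauchy-Schwarz); by Parseval `nrm Mf ≤ √H m(c)`, `nrm Mg ≤ 2√H m(c)`, `m(c) = 1` for the trivial and the exceptional character and
`0` otherwise (`mwt = 0`). KFO: `|KK| ≤ C SS N`. Sum: `C SS N H (4ε + 2ε + ε²)`. JIN for the at most four main pairs:
`4 · C SS N · 4H/P`. -/
def StMjb : Prop := ∃ C : ℝ, 1 ≤ C ∧ ∀ (o : Option (PCh × ℝ)) (H N₀ N : ℕ) (P ε : ℝ)
  (a b : PCh → ℝ), OKb o 1 → 1 ≤ H → 4 * H < N₀ → N₀ < N → N ≤ N₀ + H → Even N → 1 ≤ P →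
  2 * P ≤ H → 0 ≤ ε → ε ≤ 1 →
  (∀ c ∈ PS P, 0 ≤ a c ∧ 0 ≤ b c ∧ nrm (Ef o c H) (P / H) ≤ √(H : ℝ) * a c ∧
    nrm (Eg o c N₀ H) (P / H) ≤ √(H : ℝ) * b c) →
  ∑ c ∈ PS P, a c ≤ ε → ∑ c ∈ PS P, b c ≤ ε →
  ‖(∑ c₁ ∈ PS P, ∑ c₂ ∈ PS P, KK c₁ c₂ P N *
      ∫ β in (-(P / H))..(P / H), (Mf o c₁ H β + Ef o c₁ H β) * (Mg o c₂ N₀ H β + Eg o c₂ N₀ H β) *
        ex (-(N * β))) -
    ∑ c₁ ∈ PS P, ∑ c₂ ∈ PS P, KK c₁ c₂ P N *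
      ((∑ n ∈ Ioc (2 * H) (3 * H), mwt o c₁ n * mwt o c₂ ((N - n : ℕ) : ℝ) : ℝ) : ℂ)‖ ≤
    C * SS N * H * (ε + 1 / P)

/-- MNT (the main term).

Proof. Only the trivial character `t` (there is exactly one primitive `t` with `t.χ = 1`, of conductor `1`) and `e` contribute.
`o = none`: `H · KK t t`, KMN (i). `o = some (e,δ)`: the sum over `n` of the expression in KMN (ii) with `u = n^{-δ}`,
`v = (N-n)^{-δ}`; `n ≥ 2H ≥ √X`, `N - n ≥ √X`, so `u, v ≤ X^{-δ/2}` and `1 - X^{-δ/2} = 1 - e^{-δL/2} ≥ 0.39 min(1,δL)`. -/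
def StMnt : Prop := ∃ C : ℝ, 1 ≤ C ∧ ∀ (X : ℕ) (o : Option (PCh × ℝ)) (N : ℕ) (P : ℝ), 100 ≤ X →
  OKb o 1 → (∀ (e : PCh) (δ : ℝ), o = some (e, δ) → (e.r : ℝ) ^ 2 ≤ P) → 1 ≤ P → X < N → N ≤ 2 * X →
  Even N →
  (Nat.sqrt X : ℝ) * SS N * (mm o X ^ 2 / 10 - C * (N.divisors.card : ℝ) * P ^ (-(1 / 4) : ℝ)) ≤
    (∑ c₁ ∈ PS P, ∑ c₂ ∈ PS P, KK c₁ c₂ P N *
      ((∑ n ∈ Ioc (2 * Nat.sqrt X) (3 * Nat.sqrt X), mwt o c₁ n * mwt o c₂ ((N - n : ℕ) : ℝ) : ℝ) :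
        ℂ)).re

/-- FNC: proof of FinC.

`η` = minimum of the constants of ZER, NEF, NEG; `C` = the constants of NEF, NEG, MNB, MJB, MNT; `ε` small in terms of them; ZER gives
`δ₀ ≤ η/100000`, and for each large `X` (real `X` = the natural number) `P ∈ [X^{δ₀/2}, X^{δ₀}]` and `o`; `m = mm o X`,
`m² ≥ P^{-1/100}`. `card (PS P) ≤ 2P² ≤ X^{η/40000}` (`∑_{r≤P} r`). For `c ∈ PS P` the bad blocks of NEG: altogether at most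
`2P² X^{1/2-η/250}` blocks `j`, at most `X^{1-η/300}` numbers `N`. For a good block `N₀ = X + jH`, `jH < X`: MJB with
`a c = C(ZS + X^{-η/200})`, `b c = C(ZS + X^{-η/4000})`, sums `≤ C(ε m² + X^{-η/5000}) ≤ 2Cε m²`. RRI, MJA
(`G(α) = SfH SgH e(-Nα)`, `B = P/H`, `2BP² < 1`), MJF: `∑ th th ≥ H SS N (m²/10 - C τ(N)P^{-1/4} - C(2Cεm² + 1/P)) - |∫_{mn}|`.
`τ(N) ≤ C X^{δ₀/100}`, so the bracket is `≥ m²/20`. By MNB the number of `N` in a block with `|∫_{mn}| > m² H/30` is at most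
`C X^{3/2}P^{-1}L^{14}/(m²H/30)² ≤ X^{1/2} P^{-0.9}` (`m^{-4} ≤ P^{1/50}`), and there are at most `2√X` blocks. `SS N ≥ 1`
(`AllGK.ssa`). So the sum is positive: some `p ∈ (2H,3H]` and `N - p` are primes. Every `N ∈ (X,2X]` lies in the block
`j = (N-X-1)/H`. -/
def StFnc : Prop := StZer → StNef → StNeg → StMnb → StMja → StRri → StMjf → StMjb → StMnt → StFinC

open Classical in
/-- COR (final result).

Proof. FinC at `Y = ⌈X/2^i⌉`-type scales: every `N` with `X₁ < N ≤ X` lies in some `(Y, 2Y]` with `Y = ⌊X/2^i⌋` or `Y = ⌊X/2^i⌋ + 1`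
(or: `Y = ⌈N/2⌉..`; simplest: strong induction on `X` via `Y = ⌈X/2⌉`: `Icc 1 X ⊆ Icc 1 Y ∪ Ioc Y (2Y)`, bound
`C X^{1-d}` with `C` large, since `C Y^{1-d} + Y^{1-d} ≤ C X^{1-d}` for large `X`, `C(1 - 2^{-(1-d)}·1.01) ≥ 1`). For
`p ∈ (2H,3H]`, `H = ⌊√Y⌋`, `Y < N ≤ 2Y`: `p > 2H ≥ √(2Y) ≥ √N` (`2⌊√Y⌋ ≥ 2√Y - 2 ≥ √(2Y)` for `Y ≥ 12`) and
`p ≤ 3√Y < 4√N`. -/
def StCor : Prop := ∃ C d : ℝ, 0 < d ∧ ∀ X : ℕ, 1 ≤ X →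
  (((Icc 1 X).filter (fun N => Even N ∧ ¬ ∃ p : ℕ, p.Prime ∧ (N - p).Prime ∧ p < N ∧
    √(N : ℝ) < p ∧ (p : ℝ) < 4 * √(N : ℝ))).card : ℝ) ≤ C * (X : ℝ) ^ (1 - d)

end Pool.Agent.Helper23.MV
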