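import Pool.Agent.Helper23.MV.Defs

/-!
# Project MV: statements, part E (exponential sums, truncated L-series, zeros near `σ = 1`)

Each statement is a `Prop`; the docstring contains a complete proof. A module proves
`theorem hX (dependencies) : StX`. Throughout `L = log X`. The library `AllGK`
(`Pool.Agent.Helper23.GK.All`) contains `StVin, StEms, StRes, StEs2, StAp1, StAp2, StLan, StBca, StTfo,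
StZfr, StPer` as theorems; they may be imported (`AllGK.vin` ...) or taken as hypotheses.
-/

set_option autoImplicit false

namespace Pool.Agent.Helper23.MV

open Finset ArithmeticFunction
open Pool.Agent.Helper48.BK (ex th Sx Apx)
open Pool.Agent.Helper2.MR (ch)

/-- FIN: the finite sets `PS Q`, `ZF c η T`.

Proof. `PS`: the map `c ↦ ⟨c.r, c.χ⟩` into `Σ r, DirichletCharacter ℂ r` is injective and the image lies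
over `r ≤ ⌊Q⌋`; each `DirichletCharacter ℂ r` (`r ≠ 0`) is finite. `ZF`: the zeros of the L-function
(analytic on `ℂ`, for `c.χ = 1`, i.e. `r = 1`, analytic off `1` and `ζ(1)` is not zero in Mathlib) in a compact
rectangle are finite in number, as the function is not identically zero; the zeros have
`Re ρ ≤ 1` because `L(s,χ) ≠ 0` for `Re s ≥ 1` (Mathlib: `DirichletCharacter.LFunction_ne_zero_of_one_le_re`), so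
`Zs c η T` is contained in `[1-η, 1] × [-T, T]`. Multiplicities are positive (not identically zero). -/
def StFin : Prop := (∀ (Q : ℝ) (c : PCh), c ∈ PS Q ↔ (c.r : ℝ) ≤ Q) ∧
  (∀ (c : PCh) (η T : ℝ) (ρ : ℂ), η ≤ 1 / 2 →
    (ρ ∈ ZF c η T ↔ c.L ρ = 0 ∧ 1 - η ≤ ρ.re ∧ |ρ.im| ≤ T)) ∧
  (∀ (c : PCh) (ρ : ℂ), c.L ρ = 0 → 1 / 2 ≤ ρ.re → ρ.re < 1 ∧ 1 ≤ mz c ρ)

/-- ES4 (residue classes, `|t| ≤ X²`, `N ≥ X^κ`): power saving. Proof exactly as `StEs2` (`κ = 1/6` there, see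
`Pool.Agent.Helper19.GK.M_ES2`): if `q > N^{1/2}` the trivial bound `N/q + 1` suffices. Otherwise RES with
`m0 ≥ N/(2q) - 1`, so `m0 ≥ c N^{1/2} ≥ c X^{κ/2}`; if `|t| < m0^{1/2}` use EMS, `m0^{-1/2} ≤ C X^{-κ/4}`; if
`|t| ≥ m0^{1/2}` use VIN with `log|t|/log m0 ≤ 2 log X/(κ log X/2 - C) ≤ 5/κ`, which gives
`C log(m0+1) m0^{1 - c/(1+5/κ)²}`. Small `X` are covered by the constant. -/
def StEs4 : Prop := ∀ κ : ℝ, 0 < κ → κ ≤ 1 → ∃ C c : ℝ, 0 < C ∧ 0 < c ∧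
  ∀ (X : ℝ) (N N' q u : ℕ) (t : ℝ), 2 ≤ X →
  X ^ κ ≤ N → N ≤ N' → N' ≤ 2 * N → 1 ≤ q → 1 ≤ |t| → |t| ≤ X ^ 2 →
  ‖∑ n ∈ (Ioc N N').filter (fun n => n ≡ u [MOD q]), ch t n‖ ≤ C * q * N * (1 / |t| + X ^ (-c))

/-- TR1 (truncated L-series, nonprincipal characters).

Proof. Let `s = σ + it`. (i) `|t| ≤ X^{κ/2}`: AP1 at `N = ⌊y⌋ ≥ X^κ/2` gives the error
`4 q |s| N^{-σ} ≤ 16 X^c X^{κ/2} X^{-κ(1-c)}`. (ii) `y ≥ X^8`: AP1 gives `4 q |s| ⌊y⌋^{-σ} ≤ C X^{c+2-8(1-c)}`.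
(iii) `X^κ ≤ y < X^8`, `|t| > X^{κ/2}`: compare with the truncation at `X^8` (case (ii)); the difference is
`∑_{y<n≤X^8} ψ(n) n^{-s}`, cut into at most `C log X` dyadic pieces `(N, N']`, split each into residue
classes mod `q` and use partial summation and ES4 (with `X^κ/2 ≥ X^{κ/2}` in the role of the lower
bound for `N`): each piece is at most `q · C q N^{1-σ} (X^{-κ/2} + X^{-c'})` and `N^{1-σ} ≤ X^{8c}`. Choose `c`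
small compared to `κ` and `c'`, then `X0` large. -/
def StTr1 : Prop := ∀ κ : ℝ, 0 < κ → κ ≤ 1 → ∃ c X0 : ℝ, 0 < c ∧ c ≤ κ / 4 ∧ 2 ≤ X0 ∧
  ∀ (X y : ℝ) (q : ℕ) [NeZero q] (ψ : DirichletCharacter ℂ q) (s : ℂ), X0 ≤ X → (q : ℝ) ≤ X ^ c →
  X ^ κ ≤ y → ψ ≠ 1 → 1 - c ≤ s.re → s.re ≤ 2 → |s.im| ≤ X ^ 2 →
  ‖DS ψ y s - DirichletCharacter.LFunction ψ s‖ ≤ X ^ (-c)

/-- TR2 (truncated L-series, principal characters).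

Proof. `DS 1 y s = ∑_{d ∣ q} μ(d) d^{-s} ∑_{k ≤ y/d} k^{-s}`; by AP2 at `N = ⌊y/d⌋ ≥ 1` and
`|N^{1-s}/(1-s) - (y/d)^{1-s}/(1-s)| = |∫_N^{y/d} u^{-s} du| ≤ N^{-σ}` the inner sum is
`ζ(s) + (y/d)^{1-s}/(1-s) + O((|s|+1) (2d/y)^σ)`; `∑_{d∣q} μ(d) d^{-s} ζ(s) = L(s, 1_q)`
(`DirichletCharacter.LFunctionTrivChar_eq_mul_riemannZeta`), `∑_{d∣q} μ(d)/d = φ(q)/q`. Total error
`≤ C q (|s|+1) (2q/y)^σ · ...≤ C X^{3c}(|s|+1) y^{-σ}`, fine if `|t| ≤ X^{κ/2}` or `y ≥ X^8`. If `|t| > X^{κ/2}` and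
`y < X^8`: as in TR1 compare with the truncation at `X^8` by ES4; the pole terms
`|y^{1-s}/(1-s)| ≤ X^{8c-κ/2}` are negligible. -/
def StTr2 : Prop := ∀ κ : ℝ, 0 < κ → κ ≤ 1 → ∃ c X0 : ℝ, 0 < c ∧ c ≤ κ / 4 ∧ 2 ≤ X0 ∧
  ∀ (X y : ℝ) (q : ℕ) [NeZero q] (s : ℂ), X0 ≤ X → (q : ℝ) ≤ X ^ c →
  X ^ κ ≤ y → s ≠ 1 → 1 - c ≤ s.re → s.re ≤ 2 → |s.im| ≤ X ^ 2 →
  ‖DS (1 : DirichletCharacter ℂ q) y s - DirichletCharacter.LFunction (1 : DirichletCharacter ℂ q) s -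
    ((q.totient : ℂ) / q) * ((y : ℂ) ^ (1 - s) / (1 - s))‖ ≤ X ^ (-c)

/-- GRW (growth). Proof: TR1, TR2 with `y = X^κ`: `|DS| ≤ ∑_{n ≤ X^κ} n^{-σ} ≤ X^{κ max(0,1-σ)} (1 + κ L)`. In the
principal case (first part) the pole term is at most `4 X^{κ max(0,1-σ)}` as `|s-1| ≥ 1/4`; second part: multiply TR2
by `s - 1`. -/
def StGrw : Prop := ∀ κ : ℝ, 0 < κ → κ ≤ 1 → ∃ c X0 : ℝ, 0 < c ∧ c ≤ 1 / 8 ∧ 2 ≤ X0 ∧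
  ∀ (X : ℝ) (q : ℕ) [NeZero q] (ψ : DirichletCharacter ℂ q) (s : ℂ), X0 ≤ X → (q : ℝ) ≤ X ^ c →
  1 - c ≤ s.re → s.re ≤ 2 → |s.im| ≤ X ^ 2 →
  ((ψ = 1 → 1 / 4 ≤ ‖s - 1‖) →
    ‖DirichletCharacter.LFunction ψ s‖ ≤ X ^ (κ * max 0 (1 - s.re)) * Real.log X ^ 2) ∧
  (s ≠ 1 → ‖s - 1‖ ≤ 4 →
    ‖(s - 1) * DirichletCharacter.LFunction ψ s‖ ≤ X ^ (κ * max 0 (1 - s.re)) * Real.log X ^ 3)

/-- LD2 (Landau's lemma, with all zeros and multiplicities). Compare `StLan` and its proof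
(`Pool.Agent.Helper92.GK.M_LAN`).

Proof. Let `Z` be the set of zeros in `|s - s0| ≤ r/2` (finite), `m(ρ)` the orders,
`g(s) = f(s) ∏_{ρ ∈ Z} (s - ρ)^{-m(ρ)}` (extended analytically), without zeros in `|s - s0| ≤ r/2`. Number of
zeros: `G(s) = f(s) ∏_ρ ((r² - conj(ρ-s0)(s-s0)) / (r(s-ρ)))^{m(ρ)}` satisfies `|G| ≤ e^M |f(s0)|` on `|s-s0| = r`,
hence at `s0`, where `|G(s0)| = |f(s0)| ∏ (r/|s0-ρ|)^{m(ρ)} ≥ |f(s0)| 2^{∑ m}`; so `∑ m ≤ M/log 2` (or use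
Jensen's formula of Mathlib). On `|s - s0| = r`: `|s-ρ| ≥ r/2 ≥ |s0-ρ|`, so `|g(s)/g(s0)| ≤ e^M`, also inside. On
the ball of radius `r/2` write `g/g(s0) = e^h`, `h(s0) = 0`, `Re h ≤ M`; Borel-Carathéodory gives
`|h| ≤ 2M(3r/8)/(r/2 - 3r/8) = 6M` on `|s-s0| ≤ 3r/8`, and Cauchy's estimate `|h'| ≤ 6M/(r/8)` on
`|s - s0| ≤ r/4`. There `f'/f = ∑ m(ρ)/(s-ρ) + h'`. -/
def StLd2 : Prop := ∃ C : ℝ, 1 ≤ C ∧ ∀ (f : ℂ → ℂ) (s0 : ℂ) (r M : ℝ), 0 < r → 1 ≤ M →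
  DifferentiableOn ℂ f (Metric.ball s0 (2 * r)) → f s0 ≠ 0 →
  (∀ s ∈ Metric.closedBall s0 r, ‖f s‖ ≤ Real.exp M * ‖f s0‖) →
  ∃ Z : Finset ℂ, (∀ ρ, ρ ∈ Z ↔ f ρ = 0 ∧ ‖ρ - s0‖ ≤ r / 2) ∧
    (∑ ρ ∈ Z, (analyticOrderNatAt f ρ : ℝ)) ≤ C * M ∧
    ∀ s : ℂ, ‖s - s0‖ ≤ r / 4 → f s ≠ 0 →
      ‖deriv f s / f s - ∑ ρ ∈ Z, (analyticOrderNatAt f ρ : ℂ) / (s - ρ)‖ ≤ C * M / r

/-- LDR (logarithmic derivative to the right of `1`).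

Proof. Let `c1` be the constant of GRW for `κ`, `r = c1/8`, `s0 = σ + it`, `1 + 1/L ≤ σ ≤ 1 + c`, `c ≤ r/2`. On
`|s - s0| ≤ r` GRW gives `|L(s,ψ)| ≤ X^{κ r} L²` (in the principal case `|t| ≥ 2`, so `|s-1| ≥ 1`), and by TFO
`|L(s0)|^{-1} ≤ σ/(σ-1) ≤ 2L`. So LD2 applies with `M = κ r L + 3 log L + 1 ≤ 2 κ r L` for `X ≥ X0(κ)`, and at
`s = s0`: `Re(-L'/L(s0)) ≤ 2Cκ L - ∑_{ρ∈Z} m(ρ) Re 1/(s0-ρ)`; all terms `Re 1/(s0-ρ)` are positive (zeros have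
`Re ρ ≤ 1`), so the sum over `Z` may be replaced by the sum over a subset `S`. -/
def StLdr : Prop := ∃ A : ℝ, 1 ≤ A ∧ ∀ κ : ℝ, 0 < κ → κ ≤ 1 → ∃ c X0 : ℝ, 0 < c ∧ c ≤ 1 / 8 ∧ 2 ≤ X0 ∧
  ∀ (X : ℝ) (q : ℕ) [NeZero q] (ψ : DirichletCharacter ℂ q) (σ t : ℝ) (S : Finset ℂ), X0 ≤ X →
  (q : ℝ) ≤ X ^ c → 1 + 1 / Real.log X ≤ σ → σ ≤ 1 + c → |t| ≤ X → (ψ = 1 → 2 ≤ |t|) →
  (∀ ρ ∈ S, DirichletCharacter.LFunction ψ ρ = 0 ∧ ‖ρ - (σ + t * Complex.I)‖ ≤ c) →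
  (-(deriv (DirichletCharacter.LFunction ψ) (σ + t * Complex.I) /
      DirichletCharacter.LFunction ψ (σ + t * Complex.I))).re ≤
    A * κ * Real.log X - ∑ ρ ∈ S, (analyticOrderNatAt (DirichletCharacter.LFunction ψ) ρ : ℝ) *
      (1 / ((σ + t * Complex.I : ℂ) - ρ)).re

/-- LDP (the same for principal characters, at every height).

Proof. `|t| ≥ 2`: LDR with `S = ∅` (and `Re 1/(s-1) > 0`). `|t| < 2`: apply LD2 to `f(s) = (s-1) L(s,1_q)` (entire,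
with the value `φ(q)/q` at `1`: use `Function.update` or `DirichletCharacter.LFunctionTrivChar₁`) at `s0 = σ + it`: by the second
part of GRW `|f| ≤ X^{κr} L³` on the disc of radius `r` and `|f(s0)| ≥ |σ-1| (σ-1)/σ ≥ 1/(4L²)`; zeros of `f` have
real part `< 1` or `≤ 1 < σ`. `-L'/L = -f'/f + 1/(s-1)`. -/
def StLdp : Prop := ∃ A : ℝ, 1 ≤ A ∧ ∀ κ : ℝ, 0 < κ → κ ≤ 1 → ∃ c X0 : ℝ, 0 < c ∧ c ≤ 1 / 8 ∧ 2 ≤ X0 ∧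
  ∀ (X : ℝ) (q : ℕ) [NeZero q] (σ t : ℝ), X0 ≤ X →
  (q : ℝ) ≤ X ^ c → 1 + 1 / Real.log X ≤ σ → σ ≤ 1 + c → |t| ≤ X →
  (-(deriv (DirichletCharacter.LFunction (1 : DirichletCharacter ℂ q)) (σ + t * Complex.I) /
      DirichletCharacter.LFunction (1 : DirichletCharacter ℂ q) (σ + t * Complex.I))).re ≤
    (1 / ((σ + t * Complex.I : ℂ) - 1)).re + A * κ * Real.log X

/-- ZCT (zeros in small discs touching the line `σ = 1`).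

Proof. LDR with `κ = 1` at `s = 1 + u + it`: every `ρ ∈ S` satisfies `|ρ - s| ≤ 2u` and `Re(s-ρ) ≥ u`, so
`Re 1/(s-ρ) ≥ u/(2u)² = 1/(4u)`. And `|L'/L(s)| ≤ ∑Λ(n)n^{-1-u} ≤ 1/u + C`. So
`∑ m(ρ) ≤ 4u (A L + 1/u + C) ≤ A'(1 + u L)`. -/
def StZct : Prop := ∃ A c X0 : ℝ, 1 ≤ A ∧ 0 < c ∧ c ≤ 1 / 8 ∧ 2 ≤ X0 ∧
  ∀ (X : ℝ) (e : PCh) (t u : ℝ) (S : Finset ℂ), X0 ≤ X →
  (e.r : ℝ) ≤ X ^ c → |t| ≤ X → (e.χ = 1 → 2 ≤ |t|) → 1 / Real.log X ≤ u → u ≤ c →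
  (∀ ρ ∈ S, e.L ρ = 0 ∧ ‖ρ - (1 + t * Complex.I)‖ ≤ u) →
  ∑ ρ ∈ S, (mz e ρ : ℝ) ≤ A * (1 + u * Real.log X)

/-- ZLW: `ζ` has no zeros near the line `σ = 1` at small heights (`ζ(s) ≠ 0` on `Re s = 1`, continuity and
compactness; near `s = 1` the function `(s-1)ζ(s)` is close to `1`). -/
def StZlw : Prop := ∃ c : ℝ, 0 < c ∧ c ≤ 1 / 8 ∧ ∀ s : ℂ, 1 - c ≤ s.re → |s.im| ≤ 20 → s ≠ 1 →
  riemannZeta s ≠ 0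

/-- ZF1 (zeros very close to `1`, complex case).

Proof. Let `ρ = β + iγ`, `1 - β = λ/L`, `λ ≤ λ0`. If `χ = 1` then `e.L = ζ` and `|γ| > 20` by ZLW (for large `X`). `b = 6λ0`,
`σ = 1 + b/L`, `κ = 1/(200 A λ0)` (`A` the larger constant of LDR, LDP). TFO (3-4-1):
`0 ≤ 3 Re D(1,σ) + 4 Re D(χ,σ+iγ) + Re D(χ²,σ+2iγ)`, `D = -L'/L`. LDP at `t = 0`: `Re D(1,σ) ≤ L/b + AκL`. LDR with
`S = {ρ}` (`m(ρ) ≥ 1`): `Re D(χ,σ+iγ) ≤ AκL - L/(b+λ) ≤ AκL - L/(b+λ0)`. If `χ² ≠ 1`: `Re D(χ²,·) ≤ AκL`. If `χ² = 1`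
and `|γ| ≥ 60 λ0/L = 10b/L`: LDP gives `Re D(χ²,σ+2iγ) ≤ Re 1/(σ-1+2iγ) + AκL ≤ L b/(4·100 b²) + AκL =
L/(2400 λ0) + AκL`. Dividing by `L`: `0 ≤ (3λ0 - b)/(b(b+λ0)) + 1/(2400λ0) + 8Aκ = -1/(14λ0) + 1/(2400λ0) +
8/(200λ0) < 0`, a contradiction. So `χ² = 1` and `|γ| < 60λ0/L` (in particular `χ ≠ 1`). (Heights up to
`2X`: apply the lemmas with `X²` in place of `X` and `κ/2`, or with `2X`.) -/
def StZf1 : Prop := ∀ lam0 : ℝ, 1 ≤ lam0 → ∃ c X0 : ℝ, 0 < c ∧ 2 ≤ X0 ∧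
  ∀ (X : ℝ) (e : PCh) (ρ : ℂ), X0 ≤ X → (e.r : ℝ) ≤ X ^ c → e.L ρ = 0 →
  1 - lam0 / Real.log X ≤ ρ.re → |ρ.im| ≤ X → e.Re ∧ |ρ.im| ≤ 60 * lam0 / Real.log X

/-- ZF2 (zeros very close to `1`, one real character).

Proof. `σ = 1 + 600λ0/L`, `κ = 1/(10^5 A λ0)`. `0 ≤ Re D(1_r,σ) + Re D(χ,σ)` (`1 + χ(n) ≥ 0`), `≤ L/(600λ0) + 2AκL -
∑_{ρ∈S} m(ρ) Re 1/(σ-ρ)`. For `ρ ∈ S`: `x = L(σ - β) ∈ [600λ0, 601λ0]`, `|γ|L ≤ 60λ0`, so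
`Re 1/(σ-ρ) = L x/(x² + (γL)²) ≥ L/(1.01 x) ≥ L/(607.1 λ0)`. Hence `∑ m(ρ) ≤ 607.1λ0 (1/(600λ0) + 2·10^{-5}/λ0) < 2`. -/
def StZf2 : Prop := ∀ lam0 : ℝ, 1 ≤ lam0 → ∃ c X0 : ℝ, 0 < c ∧ 2 ≤ X0 ∧
  ∀ (X : ℝ) (e : PCh) (S : Finset ℂ), X0 ≤ X → (e.r : ℝ) ≤ X ^ c → e.Re →
  (∀ ρ ∈ S, e.L ρ = 0 ∧ 1 - lam0 / Real.log X ≤ ρ.re ∧ |ρ.im| ≤ 60 * lam0 / Real.log X) →
  ∑ ρ ∈ S, (mz e ρ : ℝ) < 2

/-- ZF3 (two real characters; Landau-Page).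

Proof. `σ = 1 + 2λ0/L`, `χ1 χ2` is a nonprincipal character mod `r1 r2` (PRD). From
`(1 + χ1(n))(1 + χ2(n)) ≥ 0`: `0 ≤ Re(D(1,σ) + D(χ1,σ) + D(χ2,σ) + D(χ1χ2,σ)) ≤ L/(2λ0) + 4AκL - 2 L/(3λ0) =
L(-1/(6λ0) + 4Aκ) < 0` for `κ = 1/(100Aλ0)`. -/
def StZf3 : Prop := ∀ lam0 : ℝ, 1 ≤ lam0 → ∃ c X0 : ℝ, 0 < c ∧ 2 ≤ X0 ∧
  ∀ (X : ℝ) (e e' : PCh) (b b' : ℝ), X0 ≤ X → (e.r : ℝ) ≤ X ^ c → (e'.r : ℝ) ≤ X ^ c → e.Re →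
  e'.Re → e.L b = 0 → e'.L b' = 0 → 1 - lam0 / Real.log X ≤ b → 1 - lam0 / Real.log X ≤ b' → e = e'

/-- PRD (products of primitive characters). First part: `ψ = (changeLevel χ1)·(changeLevel χ2)^{-1}` modulo
`r1 r2`; if it were principal then the two changed characters would be equal, hence they would have
the same conductor `r1 = r2` and the same primitive character, so `c1 = c2`. Second part: on integers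
prime to `r` the product is `|χ(n)|² = 1`. Third part: `ψ = changeLevel χ1 · changeLevel χ2`, principal iff
`χ2 = χ1^{-1}` as primitive characters. -/
def StPrd : Prop := (∀ c₁ c₂ : PCh, c₁ ≠ c₂ → ∃ ψ : DirichletCharacter ℂ (c₁.r * c₂.r), ψ ≠ 1 ∧
    ∀ n : ℕ, ψ (n : ZMod (c₁.r * c₂.r)) = c₁.ev n * (starRingEnd ℂ) (c₂.ev n)) ∧
  (∀ (c : PCh) (n : ℕ), (1 : DirichletCharacter ℂ c.r) (n : ZMod c.r) =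
    c.ev n * (starRingEnd ℂ) (c.ev n)) ∧
  (∀ c e : PCh, e.χ ^ 2 = 1 → ∃ ψ : DirichletCharacter ℂ (c.r * e.r), (ψ = 1 ↔ c = e) ∧
    ∀ n : ℕ, ψ (n : ZMod (c.r * e.r)) = c.ev n * e.ev n)

/-- ZFX (at most one zero very close to `1`). Proof: ZF1 gives `e.Re` and small heights; ZF2 with
`S = {ρ, conj ρ}` (`χ` is real, so `L(conj s) = conj L(s)`) gives `ρ` real and simple, and uniqueness for one character;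
ZF3 for two characters. -/
def StZfx : Prop := ∀ lam0 : ℝ, 1 ≤ lam0 → ∃ c X0 : ℝ, 0 < c ∧ 2 ≤ X0 ∧
  ∀ (X : ℝ) (e e' : PCh) (ρ ρ' : ℂ), X0 ≤ X → (e.r : ℝ) ≤ X ^ c → (e'.r : ℝ) ≤ X ^ c →
  e.L ρ = 0 → e'.L ρ' = 0 → 1 - lam0 / Real.log X ≤ ρ.re → 1 - lam0 / Real.log X ≤ ρ'.re →
  |ρ.im| ≤ X → |ρ'.im| ≤ X → e = e' ∧ ρ = ρ' ∧ ρ.im = 0 ∧ e.Re ∧ mz e ρ = 1

end Pool.Agent.Helper23.MV
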