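import Pool.Agent.Helper23.MV.StL

/-!
# Project MV: statements, part H (sums over zeros, Deuring-Heilbronn phenomenon, final statement on
zeros). `L = log X`.
-/

set_option autoImplicit false

namespace Pool.Agent.Helper23.MV

open Finset ArithmeticFunction
open Pool.Agent.Helper2.MR (ch)

/-- SM1 (sum over the zeros of nonprincipal characters).

Proof. Take `κ` (at most `1/1000`), constants of LFD and ZCT, `η` small, `X` large. Let `N_j` be the number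
(with multiplicity) of the pairs (character, zero) with `j ≤ (1-β)L < j+1`, `0 ≤ j ≤ 2ηL`. Sort the zeros into boxes
`k ≤ γL < k+1`. Choosing one zero from each nonempty (character, box) with `k` even, and similarly odd,
gives two families as in LFD (`a = (j+1)/L`), so at most `2C e^{20κ(j+1)}` nonempty boxes; by ZCT with
`u = 2(j+1)/L` (the box lies in the disc around `1 + it`, `t` = height of a zero in the box) each has at most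
`A(2j+3)` zeros. So
`N_j ≤ C'(j+1) e^{20κ j}`. The sum is at most `∑_{j ≥ ⌊Λ⌋} N_j e^{-j/2} ≤ C'' e^{-Λ/4}` as `20κ ≤ 1/50`. -/
def StSm1 : Prop := ∃ η C X0 : ℝ, 0 < η ∧ η ≤ 1 / 100 ∧ 1 ≤ C ∧ 2 ≤ X0 ∧
  ∀ (X lm : ℝ), X0 ≤ X → 0 ≤ lm →
  ∑ c ∈ (PS (X ^ η)).filter (fun c => c.χ ≠ 1), ∑ ρ ∈ (ZF c (2 * η) X).filter
      (fun ρ => ρ.re ≤ 1 - lm / Real.log X),
    (mz c ρ : ℝ) * X ^ ((ρ.re - 1) / 2) ≤ C * Real.exp (-lm / 4)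

/-- SM2 (sum over the zeros of `ζ`).

Proof. By ZLW the zeros have `|γ| > 20`; by `StZfr` (`AllGK.zfr`, `q = 1`, `log 1 = 0`) `1 - β ≥ c/wq 1 γ` and
`wq 1 γ ≤ (log X)^{0.93}` for large `X`, so `(1-β)L ≥ λ1 := c L^{0.07}`. For `j ≤ (1-β)L < j+1` sort into unit boxes in
`γ`; ZTD (odd and even boxes) bounds the number of nonempty boxes by `2C e^{20κ(j+1)} L^6`, and each has at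
most `C L` zeros (cover it by `O(1/c)` discs of radius `c` touching `σ = 1`, ZCT). So the sum is at most
`C L^7 ∑_{j ≥ max(λ1,Λ) - 1} e^{20κj - j/2} ≤ C L^7 e^{-0.48 max(λ1,Λ)} ≤ C L^7 e^{-λ1/4} e^{-Λ/8}`. -/
def StSm2 : Prop := ∃ η X0 : ℝ, 0 < η ∧ η ≤ 1 / 100 ∧ 2 ≤ X0 ∧
  ∀ (X lm : ℝ) (c : PCh), X0 ≤ X → 0 ≤ lm → c.χ = 1 →
  ∑ ρ ∈ (ZF c (2 * η) X).filter (fun ρ => ρ.re ≤ 1 - lm / Real.log X),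
    (mz c ρ : ℝ) * X ^ ((ρ.re - 1) / 2) ≤ Real.exp (-(Real.log X) ^ (1 / 20 : ℝ)) * Real.exp (-lm / 8)

/-- NUM (few zeros). Proof as SM1, SM2 (with `κ = 1/10000`), for one character: the number of zeros with
`Re ρ ≥ 1 - 2η` is at most `∑_{j ≤ 2ηL} N_j ≤ C (ηL+1)² e^{20κ(2ηL+1)} L^7 ≤ X^{η/50}` (`40κη = η/250`). -/
def StNum : Prop := ∃ η₀ : ℝ, 0 < η₀ ∧ η₀ ≤ 1 / 100 ∧ ∀ η : ℝ, 0 < η → η ≤ η₀ → ∃ X0 : ℝ, 2 ≤ X0 ∧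
  ∀ (X : ℝ) (c : PCh), X0 ≤ X → (c.r : ℝ) ≤ X ^ η →
  ∑ ρ ∈ ZF c (2 * η) X, (mz c ρ : ℝ) ≤ X ^ (η / 50)

/-! ### the exceptional multiplicative function -/

/-- FFB (basic facts). `e` is real-valued (`e.ev n ∈ {-1,0,1}`), completely multiplicative, so `ff e δ` is
multiplicative, `ff(p^k) = ∑_{j≤k} x^j`, `x = e(p)p^{-δ} ∈ [-1,1]`, which is `≥ 0`, and `ff n ≤ τ(n)`. -/
def StFfb : Prop := ∀ (e : PCh) (δ : ℝ), e.χ ^ 2 = 1 → 0 ≤ δ →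
  (∀ n, (e.ev n).im = 0 ∧ |(e.ev n).re| ≤ 1) ∧ ff e δ 1 = 1 ∧
  (∀ m n : ℕ, Nat.Coprime m n → ff e δ (m * n) = ff e δ m * ff e δ n) ∧
  (∀ n, 0 ≤ ff e δ n) ∧ (∀ n : ℕ, 1 ≤ n → ff e δ n ≤ n.divisors.card) ∧
  (∀ p : ℕ, p.Prime → 0 < gf e δ p ∧ gf e δ p < 1)

/-- HDI (restriction to multiples of a squarefree `d`).

Proof. Both sides are multiplicative in `n` (write `n = n1 n2`, `n1 ∣ d^∞`, `(n2,d) = 1`), so it suffices that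
for a prime `p ∣ d` and `k ≥ 1`: `ff(p)ff(p^{k-1}) - x ff(p^{k-2}) = ff(p^k)` (`ff(p^{-1}) = 0`), `x = e(p)p^{-δ}`, true since
`(1+x)(1+..+x^{k-1}) - x(1+..+x^{k-2}) = 1+..+x^k`, and that the right side is `0` if `p ∤ n` (then `d ∣ m ∣ n` is
impossible). Bounds: `|ff p| ≤ 2`, `|x| ≤ 1`; the number of `m` with `d ∣ m ∣ d²` is `2^{ω(d)}`, so
`∑_m |h_d(m)| ≤ 3^{ω(d)} ≤ τ(d)²`. Density: `∑_m h_d(m)/m = ∏_{p∣d} (ff(p)/p - x/p²) = ∏ gf(p)`. -/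
def StHdi : Prop := ∀ (e : PCh) (δ : ℝ), e.χ ^ 2 = 1 → 0 ≤ δ → ∀ d : ℕ, Squarefree d →
  (∀ n : ℕ, 1 ≤ n → (if d ∣ n then ff e δ n else 0) = ∑ m ∈ n.divisors, hd e δ d m * ff e δ (n / m)) ∧
  ∑ m ∈ Icc 1 (d ^ 2), |hd e δ d m| ≤ (d.divisors.card : ℝ) ^ 2 ∧
  ∑ m ∈ Icc 1 (d ^ 2), hd e δ d m / m = gD (gf e δ) d

/-- HYP (hyperbola identity), `B = √y`. Proof. `TF = ∑_{ab ≤ y} c(a)a^{-s} c(b)e(b) b^{-s-δ}` (`ff(n)c(n) = ∑_{ab=n} c(a) c(b)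
e(b) b^{-δ}`, `e` real), and for `ab ≤ y` at least one of `a, b` is `≤ √y`. -/
def StHyp : Prop := ∀ (c e : PCh) (δ : ℝ) (ψ : DirichletCharacter ℂ (c.r * e.r)) (y : ℝ) (s : ℂ),
  e.χ ^ 2 = 1 → (∀ n : ℕ, ψ (n : ZMod (c.r * e.r)) = c.ev n * e.ev n) → 1 ≤ y →
  TF e δ c y s =
    ∑ a ∈ Ioc 0 ⌊√y⌋₊, c.ev a * (a : ℂ) ^ (-s) * DS ψ (y / a) (s + δ) +
    ∑ b ∈ Ioc 0 ⌊√y⌋₊, ψ (b : ZMod (c.r * e.r)) * (b : ℂ) ^ (-s - δ) * DS c.χ (y / b) s -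
    DS c.χ (√y) s * DS ψ (√y) (s + δ)

/-- TF1 (nontrivial `c`, at a zero of `c.L`).

Proof. HYP, and TR1, TR2 with `κ/2` (all truncations are `≥ √y ≥ X^{κ/2}`). `D_c(v) := DS c.χ v ρ = O(X^{-c'})` for `v ≥ √y`
as `c.L ρ = 0`, so the second sum is `O(X^{-c'} ∑_{b≤√y} b^{-Re ρ})`; for `y ≤ X^4`... to have no upper bound on `y` use
only `y ≤ X`. If `c ≠ e` (`ψ` nonprincipal): `DS ψ (y/a)(ρ+δ) = L(ρ+δ,ψ) + O(X^{-c'})`, the first sum is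
`L(ρ+δ,ψ) D_c(√y) + O(..)`, and `|L(ρ+δ,ψ)| ≤ X^{small}`; the last term is `O(X^{-c'+small})`. If `c = e`:
`ψ = 1` modulo `r²`, `DS ψ (y/a)(ρ+δ) = L(ρ+δ,1) + pc (y/a)^{1-ρ-δ}/(1-ρ-δ) + O(X^{-c'})`, so the first sum has the extra
term `pc y^{1-ρ-δ}/(1-ρ-δ) ∑_{a≤√y} e(a) a^{-(1-δ)}` and `∑_{a≤√y} e(a)a^{-(1-δ)} = e.L(1-δ) + O(X^{-c'}) = O(X^{-c'})`; the
denominators are `≥ X^{-c}` by hypothesis, and `|L(ρ+δ,1)| ≤ X^{small}/|ρ+δ-1|`. -/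
def StTf1 : Prop := ∀ κ : ℝ, 0 < κ → κ ≤ 1 → ∃ c₀ X0 : ℝ, 0 < c₀ ∧ c₀ ≤ κ / 4 ∧ 2 ≤ X0 ∧
  ∀ (X y : ℝ) (c e : PCh) (δ : ℝ) (ρ : ℂ), X0 ≤ X → (c.r : ℝ) ≤ X ^ c₀ → (e.r : ℝ) ≤ X ^ c₀ →
  e.Re → c.χ ≠ 1 → 0 ≤ δ → δ ≤ c₀ → c.L ρ = 0 → 1 - c₀ ≤ ρ.re → |ρ.im| ≤ X →
  (c = e → e.L (1 - (δ : ℂ)) = 0 ∧ X ^ (-c₀) ≤ ‖ρ + δ - 1‖) → X ^ κ ≤ y → y ≤ X →
  ‖TF e δ c y ρ‖ ≤ X ^ (-c₀)

/-- TF2 (`c` trivial, at a zero of `ζ`).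

Proof. HYP with `c.r = 1`, `ψ = e` nonprincipal. `DS c.χ v ρ = v^{1-ρ}/(1-ρ) + O(X^{-c'})`. First sum: `L(ρ+δ,e)·
DS 1 (√y) ρ + O(..)`; second: `∑_{b≤√y} e(b)b^{-ρ-δ}(y/b)^{1-ρ}/(1-ρ) + O(..) = y^{1-ρ}/(1-ρ) (L(1+δ,e) + O(X^{-c'}))`; last:
`DS 1 (√y) ρ · (L(ρ+δ,e) + O(X^{-c'}))` cancels the first. (`ψ` has modulus `1·e.r`; it agrees with `e.χ` on the
integers, apply TR1 to `e.χ`.) -/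
def StTf2 : Prop := ∀ κ : ℝ, 0 < κ → κ ≤ 1 → ∃ c₀ X0 : ℝ, 0 < c₀ ∧ c₀ ≤ κ / 4 ∧ 2 ≤ X0 ∧
  ∀ (X y : ℝ) (c e : PCh) (δ : ℝ) (ρ : ℂ), X0 ≤ X → c.χ = 1 → (e.r : ℝ) ≤ X ^ c₀ →
  e.Re → 0 ≤ δ → δ ≤ c₀ → c.L ρ = 0 → 1 - c₀ ≤ ρ.re → 2 ≤ |ρ.im| → |ρ.im| ≤ X →
  X ^ κ ≤ y → y ≤ X →
  ‖TF e δ c y ρ - (y : ℂ) ^ (1 - ρ) / (1 - ρ) * e.L (1 + δ)‖ ≤ X ^ (-c₀)

/-- TF3 (`c` trivial, at `1 - 2δ`, when `e.L(1-δ) = 0`).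

Proof. As TF2 at `s = 1 - 2δ`: `ψ = e`, `DS 1 v s = ζ(s) + v^{2δ}/(2δ) + O(X^{-c'})`, `DS e v (s+δ) = 0 + O(X^{-c'})`
(`s + δ = 1 - δ`); the first and the last terms are `O(X^{-c'} /δ)`, the second is `ζ(s) ∑_{b≤√y} e(b)b^{-(1-δ)} +
(y^{2δ}/2δ)∑_{b≤√y} e(b) b^{-(1+δ)} + O(..)`. All factors `1/δ` are at most `X^{c₀}`. Real parts: `TF` is real here. -/
def StTf3 : Prop := ∀ κ : ℝ, 0 < κ → κ ≤ 1 → ∃ c₀ X0 : ℝ, 0 < c₀ ∧ c₀ ≤ κ / 4 ∧ 2 ≤ X0 ∧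
  ∀ (X y : ℝ) (e : PCh) (δ : ℝ), X0 ≤ X → (e.r : ℝ) ≤ X ^ c₀ →
  e.Re → X ^ (-c₀) ≤ δ → δ ≤ c₀ → e.L (1 - (δ : ℂ)) = 0 → X ^ κ ≤ y → y ≤ X →
  |∑ n ∈ Ioc 0 ⌊y⌋₊, ff e δ n * (n : ℝ) ^ (-(1 - 2 * δ)) - y ^ (2 * δ) / (2 * δ) * (e.L (1 + δ)).re| ≤
    X ^ (-c₀)

/-- GLO. Proof. `gf(p)/(1-gf(p)) = ∑_{k≥1} ff(p^k)/p^k`, so `gD (..) d = ∑_{rad n = d} ff(n)/n` for squarefree `d`; the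
numbers `n ≤ z` have `rad n ≤ z`. -/
def StGlo : Prop := ∀ (e : PCh) (δ : ℝ) (z : ℕ), e.χ ^ 2 = 1 → 0 ≤ δ → 1 ≤ z →
  ∑ n ∈ Icc 1 z, ff e δ n / n ≤
    ∑ d ∈ (Icc 1 z).filter Squarefree, gD (fun p => gf e δ p / (1 - gf e δ p)) d

/-- LCT (error sums). Proof. For squarefree `d1,d2 ≤ z`, `D = [d1,d2] ≤ z²`; `|hd|` is supported on `D ∣ m ∣ D²`, there
`m^{-σ} = m^{1-σ}/m ≤ D^{2(1-σ)}/D ≤ z^{4(1-σ)}/D`, so `∑_m |hd(m)| m^{-σ} ≤ τ(D)² z^{4(1-σ)}/D`, and `τ(D) ≤ τ(d1)τ(d2)`,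
`∑ τ(d1)²τ(d2)² (d1,d2)/(d1d2) ≤ ∑_g τ(g)^4 g^{-1}(∑ τ(m)²/m)² ≤ (1+log z)^{C}`. -/
def StLct : Prop := ∃ C : ℕ, ∀ (e : PCh) (δ σ z : ℝ), e.χ ^ 2 = 1 → 0 ≤ δ → 1 ≤ z → σ ≤ 1 →
  ∑ d₁ ∈ (Icc 1 ⌊z⌋₊).filter Squarefree, ∑ d₂ ∈ (Icc 1 ⌊z⌋₊).filter Squarefree,
    ∑ m ∈ Icc 1 ((Nat.lcm d₁ d₂) ^ 2), |hd e δ (Nat.lcm d₁ d₂) m| * (m : ℝ) ^ (-σ) ≤
  z ^ (4 * (1 - σ)) * (2 + Real.log z) ^ C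

/-- DH0 (the sifted mass is small).

Proof. `s1 = 1 - 2δ`, `Λ1 = Re e.L(1+δ)/(2δ)`, `z = ⌊X^κ⌋`, `θ`: SEL with `g = gf e δ` and this `z`, form `1/G`. TF3 at `y = z`
and at `y = X^{κ}`: the sum over `n ≤ y` is `≥ 1` (the term `n = 1`, all terms `≥ 0`), so `Λ1 y^{2δ} ≥ 1 - X^{-c'}` and
`Λ1 ≥ 1/10` (as `δL ≤ 1`). GLO: `G ≥ ∑_{n≤z} ff(n)/n ≥ z^{-2δ} ∑_{n≤z} ff(n)n^{-s1} ≥ Λ1 - z^{-2δ} X^{-c'}`. HDI and TF3 for the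
sums over `n ≤ x/m`, `x/m ≥ X^κ` (`m ≤ D² ≤ z⁴`): for `x ∈ [X^{5κ}, X^{6κ}]`:
`∑_{n≤x} ff(n) sd(θ)(n)² n^{-s1} = ∑_{d1,d2} θθ ∑_m hd(m)m^{-s1}(Λ1 (x/m)^{2δ} + O(X^{-c'})) = Λ1 x^{2δ} ∑∑θθ gD g D + O(X^{-c''})
= Λ1 x^{2δ}/G + O(X^{-c''}) ≤ x^{2δ}(1 + C X^{-c'}) + X^{-c''} ≤ 1 + C δ L + C X^{-c''}` (LCT for the errors; `m^{-s1-2δ} = 1/m`).
(TF3 is used with `κ/2`, or at `y = X^κ`, since `⌊X^κ⌋ < X^κ`.) Subtract the term `n = 1` (which is `1`); `X^{-c''} ≤ δL` if `δ ≥ X^{-c₀}` with small `c₀`. Finally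
`n^{-s1} ≥ n^{-1}`. -/
def StDh0 : Prop := ∀ κ : ℝ, 0 < κ → κ ≤ 1 / 10 → ∃ c₀ C X0 : ℝ, 0 < c₀ ∧ c₀ ≤ κ / 4 ∧ 1 ≤ C ∧ 2 ≤ X0 ∧
  ∀ (X : ℝ) (e : PCh) (δ : ℝ), X0 ≤ X → (e.r : ℝ) ≤ X ^ c₀ → e.Re → X ^ (-c₀) ≤ δ →
  δ * Real.log X ≤ 1 → e.L (1 - (δ : ℂ)) = 0 →
  ∃ θ : ℕ → ℝ, θ 1 = 1 ∧ (∀ d, |θ d| ≤ 1) ∧ (∀ d : ℕ, X ^ κ < d → θ d = 0) ∧
    (∀ d, ¬ Squarefree d → θ d = 0) ∧
    ∑ n ∈ Ioc 1 ⌊X ^ (5 * κ)⌋₊, ff e δ n * sd θ n ^ 2 / n ≤ C * (δ * Real.log X) ∧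
    0 ≤ ∑ d₁ ∈ Icc 1 ⌊X ^ κ⌋₊, ∑ d₂ ∈ Icc 1 ⌊X ^ κ⌋₊, θ d₁ * θ d₂ * gD (gf e δ) (Nat.lcm d₁ d₂) ∧
    (∑ d₁ ∈ Icc 1 ⌊X ^ κ⌋₊, ∑ d₂ ∈ Icc 1 ⌊X ^ κ⌋₊, θ d₁ * θ d₂ * gD (gf e δ) (Nat.lcm d₁ d₂)) *
      |(e.L (1 + δ)).re| ≤ C * δ

/-- DHR (repulsion: Deuring-Heilbronn phenomenon).

Proof. `θ` from DH0, `x = X^{5κ}`. `S = ∑_{n≤x} ff(n) sd(θ)(n)² c(n) n^{-ρ} = ∑_{d1,d2} θθ ∑_m hd(m)c(m)m^{-ρ} TF(x/m)` (HDI, `c`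
completely multiplicative). If `c` is nontrivial: TF1 gives `|S| ≤ X^{-c'}·(LCT) ≤ X^{-c''}`. The term `n = 1` is
`1`, so `1/2 ≤ ∑_{1<n≤x} ff(n)sd(θ)(n)² n^{-Re ρ} ≤ x^{1-Re ρ} C δL`. If `c` is trivial (`|Im ρ| > 20` by ZLW): TF2: the main term
of `S` is `x^{1-ρ}/(1-ρ) e.L(1+δ) ∑∑ θθ gD(gf)(D)` (`∑_m hd(m) m^{-1} = gD`), at most `x^{1-Re ρ} Cδ` by DH0 (`e.L(1+δ)` is
real: L-series of a real character); same conclusion. (If `c = e` the hypothesis of TF1 holds: `‖ρ+δ-1‖ ≥ X^{-c₀}` is assumed.) -/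
def StDhr : Prop := ∀ κ : ℝ, 0 < κ → κ ≤ 1 / 10 → ∃ c₀ C X0 : ℝ, 0 < c₀ ∧ c₀ ≤ κ / 4 ∧ 1 ≤ C ∧ 2 ≤ X0 ∧
  ∀ (X : ℝ) (e c : PCh) (δ : ℝ) (ρ : ℂ), X0 ≤ X → (e.r : ℝ) ≤ X ^ c₀ → (c.r : ℝ) ≤ X ^ c₀ → e.Re →
  X ^ (-c₀) ≤ δ → δ * Real.log X ≤ 1 → e.L (1 - (δ : ℂ)) = 0 →
  c.L ρ = 0 → 1 - c₀ ≤ ρ.re → |ρ.im| ≤ X → (c = e → X ^ (-c₀) ≤ ‖ρ + δ - 1‖) →
  1 ≤ C * (δ * Real.log X) * X ^ (5 * κ * (1 - ρ.re))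

/-- SGZ (Siegel's bound for exceptional zeros).

Proof. Siegel's theorem `StSg` of `Helper48/BK` (proved, see `Top.lean` there): `|L(1,χ)| ≥ c(θ/2) q^{-θ/2}`. If
`δ > 1/(2 log(3q))` the claim is trivial. Otherwise `L(1) = L(1) - L(1-δ) = ∫_{1-δ}^1 L'`, `|L'| ≤ C log²(3q)` on `[1-δ,1]` by
Cauchy's estimate on circles of radius `1/(2 log(3q))` and `|L(s,χ)| ≤ C log(3q)` there (AP1 with `N = q`). So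
`δ ≥ c q^{-θ/2}/(C log²(3q)) ≥ c' q^{-θ}`. -/
def StSgz : Prop := ∀ th0 : ℝ, 0 < th0 → ∃ c : ℝ, 0 < c ∧ ∀ (e : PCh) (δ : ℝ), e.Re → 0 < δ → δ < 1 →
  e.L (1 - (δ : ℂ)) = 0 → c * (e.r : ℝ) ^ (-th0) ≤ δ

/-- ZER (all zeros).

Proof. `η`: the minimum of the constants of SM1, SM2 (both hold for smaller `η` too: the sums decrease) and
`c₀/2`, `c₀` the constant of DHR for `κ = 1/100` (so that all zeros considered have `Re ρ ≥ 1 - c₀`).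
Let `ε > 0`. `κ = 1/100`; `C1` the constant of DHR; `C2` that of SM1. Choose
`0 < k0 ≤ min(1/2, 1/C1)` such that for `0 < k ≤ k0`: `(C2+1)(C1 k)^{5/2} ≤ ε k²/2`. Then `λ0 ≥ 2` with
`(C2+1)e^{-λ0/8} ≤ ε k0²/4`. Then `δ0` smaller than the constants `c` of ZFX(λ0), `c₀` of DHR and `η`, all divided by 10.
Let `X ≥ X0`. If no `c ∈ PS(X^{δ0})` has a zero with `Re ρ > 1 - λ0/L`, `|Im ρ| ≤ X`: SM1, SM2 with `Λ = λ0` give the first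
alternative with `P = X^{δ0}` (`o = none`). Otherwise by ZFX there is exactly one, `(e, 1-δ)`, real and simple, `e.Re`,
`δL < λ0`. The others have `Re ρ ≤ 1 - λ0/L`, sum `≤ C2 e^{-λ0/4} + e^{-λ0/8} ≤ ε k0²/4`. If `k := δL ≥ k0` this is
`≤ ε min(1,k)²`. If `k < k0`: SGZ gives `δ ≥ X^{-c₀}`; for another zero `ρ` DHR gives `(1-Re ρ)L ≥ 20 log(1/(C1k)) =: Λ`
(`5κ = 1/20`), (for `c = e`: `‖ρ+δ-1‖ ≥ 1 - δ - Re ρ ≥ (λ0 - k)/L`), and SM1, SM2 give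
`C2 (C1k)^5 + (C1k)^{5/2} ≤ ε k²`. So in all cases the sum
over `PS(X^{δ0})` without `(e,1-δ)` is `≤ ε min(1,δL)²`. SGZ with `th0` small: `min(1,δL)² ≥ X^{-δ0/1000}` and `δ ≤ λ0/L ≤ η'`.
If `e.r² ≤ X^{δ0}` take `P = X^{δ0}`, second alternative. Otherwise
take `P = X^{δ0/2}`: `e ∉ PS P`, first alternative. (`X^{(Re ρ-1)/2}` is the weight of SM1, SM2, and
`ZS o c (2η) X √X` is the sum.) -/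
def StZer : Prop := ∃ η : ℝ, 0 < η ∧ η ≤ 1 / 100 ∧ ∀ η' : ℝ, 0 < η' → η' ≤ η → ∀ ε : ℝ, 0 < ε →
  ∃ δ₀ X0 : ℝ, 0 < δ₀ ∧ δ₀ ≤ η' / 100000 ∧ 2 ≤ X0 ∧ ∀ X : ℝ, X0 ≤ X →
  ∃ P : ℝ, X ^ (δ₀ / 2) ≤ P ∧ P ≤ X ^ δ₀ ∧
    ((∑ c ∈ PS P, ZS none c (2 * η') X (√X) ≤ ε) ∨
    ∃ (e : PCh) (δ : ℝ), e.Re ∧ (e.r : ℝ) ^ 2 ≤ P ∧ 0 < δ ∧ δ ≤ η' ∧ e.L (1 - (δ : ℂ)) = 0 ∧
      mz e (1 - (δ : ℂ)) = 1 ∧ P ^ (-(1 / 100) : ℝ) ≤ (min 1 (δ * Real.log X)) ^ 2 ∧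
      ∑ c ∈ PS P, ZS (some (e, δ)) c (2 * η') X (√X) ≤ ε * (min 1 (δ * Real.log X)) ^ 2)

end Pool.Agent.Helper23.MV
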