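import Pool.Agent.Helper23.MV.StH

/-!
# Project MV: interface between the explicit formula part (StP) and the circle method part (StC)

`H = √X` (integer part). The number of representations uses the primes `p ∈ (2H, 3H]`, so
`√N < p < 4√N` for `X < N ≤ 2X`.
-/

set_option autoImplicit false

namespace Pool.Agent.Helper23.MV

open Finset ArithmeticFunction
open Pool.Agent.Helper48.BK (ex th Sx Apx)
open Pool.Agent.Helper2.MR (ch)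

/-- admissible exceptional data -/
def OKo (o : Option (PCh × ℝ)) (η X : ℝ) : Prop :=
  ∀ (e : PCh) (δ : ℝ), o = some (e, δ) → e.Re ∧ (e.r : ℝ) ≤ X ^ (η / 1000) ∧ 0 < δ ∧ δ ≤ η ∧
    e.L (1 - (δ : ℂ)) = 0 ∧ mz e (1 - (δ : ℂ)) = 1

/-- FS (primes of size `√X` in intervals of length up to `√X`). Proved from part P. -/
def StFs : Prop := ∃ η₁ : ℝ, 0 < η₁ ∧ η₁ ≤ 1 / 100 ∧ ∀ η : ℝ, 0 < η → η ≤ η₁ →
  ∃ C X0 : ℝ, 1 ≤ C ∧ 2 ≤ X0 ∧ ∀ (X : ℕ) (o : Option (PCh × ℝ)) (c : PCh) (x l : ℕ), X0 ≤ X →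
  OKo o η X → (c.r : ℝ) ≤ (X : ℝ) ^ (η / 1000) → 2 * Nat.sqrt X ≤ x → x + l ≤ 3 * Nat.sqrt X →
  ‖∑ n ∈ Ioc x (x + l), (((th n : ℝ) : ℂ) * c.ev n - ((mwt o c n : ℝ) : ℂ))‖ ≤
    C * (l * ZS o c (2 * η) X (√(X : ℝ)) + √(X : ℝ) * (X : ℝ) ^ (-(η / 100)))

/-- GS (primes of size `X` in intervals of length up to `√X`, in the mean). Proved from part P. -/
def StGs : Prop := ∃ η₁ : ℝ, 0 < η₁ ∧ η₁ ≤ 1 / 100 ∧ ∀ η : ℝ, 0 < η → η ≤ η₁ →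
  ∃ C X0 : ℝ, 1 ≤ C ∧ 2 ≤ X0 ∧ ∀ (X : ℕ) (o : Option (PCh × ℝ)) (c : PCh) (l : ℕ), X0 ≤ X →
  OKo o η X → (c.r : ℝ) ≤ (X : ℝ) ^ (η / 1000) → l ≤ Nat.sqrt X →
  ∑ y ∈ Icc (X - 6 * Nat.sqrt X) (2 * X + Nat.sqrt X),
    (max 0 (‖∑ m ∈ Ioc y (y + l), (((th m : ℝ) : ℂ) * c.ev m - ((mwt o c m : ℝ) : ℂ))‖ -
      C * (l * ZS o c (2 * η) X (√(X : ℝ)) + √(X : ℝ) * (X : ℝ) ^ (-(η / 2000))))) ^ 2 ≤
  (X : ℝ) * X * (X : ℝ) ^ (-(η / 100))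

open Classical in
/-- FIN-C (final statement of the circle method part): all but `O(X^{1-δ})` even `N ∈ (X, 2X]`. -/
def StFinC : Prop := ∃ (d X0 : ℝ), 0 < d ∧ 2 ≤ X0 ∧ ∀ X : ℕ, X0 ≤ X →
  (((Ioc X (2 * X)).filter (fun N => Even N ∧ ¬ ∃ p : ℕ, p.Prime ∧ (N - p).Prime ∧ p < N ∧
    Nat.sqrt X * 2 < p ∧ p ≤ 3 * Nat.sqrt X)).card : ℝ) ≤ (X : ℝ) ^ (1 - d)

end Pool.Agent.Helper23.MV
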