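import Pool.Agent.Helper23.MV.StE

/-!
# Project MV: statements, part L (log-free zero density with exponent `ε` in the `t`-aspect)

The idea: Barban-Vehov mollifier `a(n) = ∑_{d∣n} lam d` (`a(1) = 1`, `a(n) = 0` for `1 < n ≤ z1`), Selberg
weights `θ` in the dual sum, all lengths are powers `X^{cκ}` because TR1, TR2 (Vinogradov) give
truncated L-series of length `X^κ` with a power saving at all heights `≤ X`. `L = log X`.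
-/

set_option autoImplicit false

namespace Pool.Agent.Helper23.MV

open Finset ArithmeticFunction
open Pool.Agent.Helper2.MR (ch)

/-- MUH. Proof. `|∑_{m≤y} μ(m)/m| ≤ 1` (from `∑_{m≤N} μ(m)⌊N/m⌋ = 1`). `1 = ∑_{k≤y} (1/k)∑_{m∣k} μ(m) =
∑_{m≤y} (μ(m)/m) ∑_{n≤y/m} 1/n` and `∑_{n≤v} 1/n = log v + γ + O(1/v)` (`v ≥ 1`), so
`1 = ∑ (μ(m)/m) log(y/m) + γ ∑ μ(m)/m + O(∑_{m≤y} 1/y)`. -/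
def StMuh : Prop := ∃ C : ℝ, 1 ≤ C ∧ ∀ y : ℝ, 1 ≤ y →
  |∑ m ∈ Icc 1 ⌊y⌋₊, (moebius m : ℝ) / m * Real.log (y / m)| ≤ C

/-- MUK. Let `ϑ ≥ 0`, `ϑ log y ≤ 1`.

Proof. (1) `k = 1`. `Y = log y`, `Φ(a) = e^{-ϑa}(Y-a)`; for `0 ≤ a ≤ Y`:
`Φ(a) = e^{-ϑY}(Y-a) + ∫_a^Y Φ''(b)(b-a) db`, `Φ''(b) = ϑ² e^{-ϑb}(Y-b) + 2ϑ e^{-ϑb} ≥ 0`. Put `a = log m`, multiply by
`μ(m)/m` and sum over `m ≤ y`: with `g(v) = ∑_{m≤v} (μ(m)/m) log(v/m)` the sum is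
`e^{-ϑY} g(y) + ∫_0^Y Φ''(b) g(e^b) db`, at most `C(1 + ϑ²Y²/2 + 2ϑY) ≤ 4C` by MUH. (2) General `k`: as arithmetic
functions `μ(m) 1_{(m,k)=1} = ∑_{dm'=m, d∣k^∞} μ(m')` (`d ∣ k^∞`: all prime factors of `d` divide `k`), so the sum is
`∑_{d ≤ y, d∣k^∞} d^{-1-ϑ} g_ϑ(y/d)` and `∑_{d∣k^∞} 1/d = ∏_{p∣k}(1-1/p)^{-1} = k/φ(k)`. -/
def StMuk : Prop := ∃ C : ℝ, 1 ≤ C ∧ ∀ (k : ℕ) (y th0 : ℝ), 1 ≤ k → 1 ≤ y → 0 ≤ th0 →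
  th0 * Real.log y ≤ 1 →
  |∑ m ∈ (Icc 1 ⌊y⌋₊).filter (fun m => Nat.Coprime m k),
    (moebius m : ℝ) * (m : ℝ) ^ (-1 - th0) * Real.log (y / m)| ≤ C * ((k : ℝ) / k.totient)

/-- PHK: `∑_{k ≤ z} μ²(k) k/φ(k)² ≤ C log z` and similar. Proof. `k/φ(k) = ∑_{d∣k} μ²(d)/φ(d)`;
`(k/φ(k))² ≤ C ∑_{d∣k} μ²(d) 4^{ω(d)}/d...`; or: `∑_{k≤z} μ²(k)k/φ(k)² ≤ ∏_{p≤z}(1 + p/(p-1)²) ≤ ∏ (1+1/p)(1+C/p²)`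
and `∏_{p≤z}(1+1/p) ≤ ∑_{n : p∣n ⇒ p ≤ z} ...`; alternatively with `f(k) = (k/φ(k))²`, `f = 1 * g`,
`∑ g(d)/d < ∞`: `∑_{k≤z} f(k)/k ≤ (∑_{n≤z}1/n) ∑_d |g(d)|/d`. -/
def StPhk : Prop := ∃ C : ℝ, 1 ≤ C ∧ ∀ z : ℝ, 2 ≤ z →
  ∑ k ∈ (Icc 1 ⌊z⌋₊).filter Squarefree, (k : ℝ) / (k.totient : ℝ) ^ 2 ≤ C * Real.log z

/-- QTH (the quadratic form of Barban and Vehov), `ϑ = 1/log z`.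

Proof. For squarefree `d1, d2`: `[d1,d2]^{-1-ϑ} = (d1d2)^{-1-ϑ} ∑_{k∣(d1,d2)} J(k)`, `J(k) = ∏_{p∣k}(p^{1+ϑ}-1) ≤ k^{1+ϑ}`. So the
form is `∑_{k≤z} μ²(k) J(k) (∑_{k∣d≤z} μ(d) d^{-1-ϑ} log(z/d))²`, and writing `d = km`, `(m,k)=1`: the inner sum is
`μ(k) k^{-1-ϑ} ∑_{m≤z/k,(m,k)=1} μ(m)m^{-1-ϑ} log(z/(km))`, at most `C k^{-1-ϑ} k/φ(k)` by MUK. Total
`≤ C² ∑_{k≤z} μ²(k) k^{-1-ϑ} (k/φ(k))² ≤ C² ∑ μ²(k) k/φ(k)²`; PHK. It is `≥ 0`. -/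
def StQth : Prop := ∃ C : ℝ, 1 ≤ C ∧ ∀ z : ℝ, 3 ≤ z →
  ∑ d₁ ∈ Icc 1 ⌊z⌋₊, ∑ d₂ ∈ Icc 1 ⌊z⌋₊, (moebius d₁ : ℝ) * Real.log (z / d₁) *
    ((moebius d₂ : ℝ) * Real.log (z / d₂)) * (Nat.lcm d₁ d₂ : ℝ) ^ (-1 - 1 / Real.log z) ≤
  C * Real.log z

/-- AZ2. Proof. `ϑ = 1/log z`: `∑_{n≤x} AZ(n)²/n ≤ x^ϑ ∑_{n≥1} AZ(n)² n^{-1-ϑ}`, `x^ϑ ≤ e^B`, and the last sum is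
`ζ(1+ϑ)·(form of QTH) ≤ (1 + log z) C log z` (expand `AZ(n)²`, sum over multiples of `[d1,d2]`). -/
def StAz2 : Prop := ∃ C : ℝ, 1 ≤ C ∧ ∀ z x B : ℝ, 3 ≤ z → 1 ≤ B → x ≤ z ^ B →
  ∑ n ∈ Icc 1 ⌊x⌋₊, AZ z n ^ 2 / n ≤ C * Real.exp B * Real.log z ^ 2

/-- AZ0. For `z1 ≥ 1`, `n ≤ z`: `AZ z n = log z ∑_{d∣n}μ(d) - ∑_{d∣n} μ(d) log d = log z·1_{n=1} + Λ(n)`. So the sum of the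
Barban-Vehov weights over the divisors of `n` is `1` for `n = 1` and `0` for `1 < n ≤ z1`; in general it is
`(AZ z2 n - AZ z1 n)/log(z2/z1)`; `|lam d| ≤ 1`, `lam d = 0` for `d > z2`. With AZ2 (`B = 2`):
`z1 = X^{5κ}`, `z2 = X^{6κ}`, `x ≤ X^{10κ}`: `∑_{n≤x} sd(lam)(n)²/n ≤ 2·C e²(25 + 36)(κL)²/(κL)²`. -/
def StAz0 : Prop := (∀ z₁ z₂ : ℝ, 1 ≤ z₁ → z₁ < z₂ →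
    sd (lam z₁ z₂) 1 = 1 ∧ (∀ n : ℕ, 1 < n → (n : ℝ) ≤ z₁ → sd (lam z₁ z₂) n = 0) ∧
    (∀ d, |lam z₁ z₂ d| ≤ 1) ∧ (∀ d : ℕ, z₂ < d → lam z₁ z₂ d = 0) ∧ lam z₁ z₂ 0 = 0) ∧
  ∃ C : ℝ, 1 ≤ C ∧ ∀ κ X : ℝ, 0 < κ → 1 ≤ X → 3 ≤ X ^ κ →
    ∑ n ∈ Icc 1 ⌊X ^ (10 * κ)⌋₊, sd (lam (X ^ (5 * κ)) (X ^ (6 * κ))) n ^ 2 / n ≤ C

/-- SEL (Selberg's optimal weights). `g(p) ∈ (0,1)` for the primes, `h(p) = g(p)/(1-g(p))`, `gD g` multiplicative.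

Proof. For squarefree `d`: `1/gD g d = ∑_{k∣d} 1/gD h k`. Put `G = ∑_{d≤z} μ²(d) gD h d`,
`G_k = ∑_{m≤z/k,(m,k)=1} μ²(m) gD h m`, `θ_d = μ(d) (gD h d/gD g d) G_d/G` for squarefree `d ≤ z`. `θ_1 = 1`. `|θ_d| ≤ 1`:
group `G` by
`(n,d) = k`: `G = ∑_{k∣d} h(k) ∑_{m≤z/k,(m,d)=1} h(m) ≥ ∑_{k∣d} h(k) ∑_{m≤z/d,(m,d)=1} h(m) = ∏_{p∣d}(1+h(p)) G_d` and
`1 + h(p) = h(p)/g(p)`. The form: `gD g [d1,d2] =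
g(d1)g(d2)/g((d1,d2)) = g(d1)g(d2)∑_{k∣(d1,d2)} 1/h(k)`, so it equals `∑_{k≤z} (1/h(k)) (∑_{k∣d} g(d)θ_d)²` and
`∑_{k∣d≤z} g(d)θ_d = μ(k)h(k)/G`; total `∑ μ²(k)h(k)/G² = 1/G`. Mathlib's `SelbergSieve` file has several of these
identities. -/
def StSel : Prop := ∀ (g : ℕ → ℝ) (z : ℕ), 1 ≤ z → (∀ p : ℕ, p.Prime → 0 < g p ∧ g p < 1) →
  ∃ θ : ℕ → ℝ, θ 1 = 1 ∧ (∀ d, |θ d| ≤ 1) ∧ (∀ d, z < d → θ d = 0) ∧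
    (∀ d, ¬ Squarefree d → θ d = 0) ∧
    ∑ d₁ ∈ Icc 1 z, ∑ d₂ ∈ Icc 1 z, θ d₁ * θ d₂ * gD g (Nat.lcm d₁ d₂) =
      1 / ∑ d ∈ (Icc 1 z).filter Squarefree, gD (fun p => g p / (1 - g p)) d

/-- DEN (densities). Proof. `M = r·lcm(1..z)`: `∑_{n≤M} sd(θ)(n)² = M ∑∑ θθ/[d1,d2]` and `∑_{n≤M,(n,r)=1} sd(θ)(n)² =
M (φ(r)/r) ∑_{(d1d2,r)=1} θθ/[d1,d2]` (the number of `n ≤ M` divisible by `D ∣ M`, `(D,r)=1`, and prime to `r`, is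
`(M/D) φ(r)/r`); the second sum is at most the first, and nonnegative. -/
def StDen : Prop := ∀ (θ : ℕ → ℝ) (z r : ℕ), 1 ≤ r → (∀ d, z < d → θ d = 0) →
  0 ≤ (r.totient : ℝ) / r * ∑ d₁ ∈ Icc 1 z, ∑ d₂ ∈ Icc 1 z,
      (if Nat.Coprime (Nat.lcm d₁ d₂) r then θ d₁ * θ d₂ / Nat.lcm d₁ d₂ else 0) ∧
  (r.totient : ℝ) / r * ∑ d₁ ∈ Icc 1 z, ∑ d₂ ∈ Icc 1 z,
      (if Nat.Coprime (Nat.lcm d₁ d₂) r then θ d₁ * θ d₂ / Nat.lcm d₁ d₂ else 0) ≤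
    ∑ d₁ ∈ Icc 1 z, ∑ d₂ ∈ Icc 1 z, θ d₁ * θ d₂ / Nat.lcm d₁ d₂

/-- HAR: `∑_{d≤z} μ²(d)/φ(d) ≥ log z` (`μ²(d)/φ(d) = ∑_{rad n = d} 1/n`, so the sum is `≥ ∑_{n≤z} 1/n`), in the form
`h(p) = (1/p)/(1-1/p)`. -/
def StHar : Prop := ∀ z : ℕ, 1 ≤ z → Real.log (z + 1) ≤
  ∑ d ∈ (Icc 1 z).filter Squarefree, gD (fun p => (1 / (p : ℝ)) / (1 - 1 / (p : ℝ))) d

/-- LCS (sums over pairs). Proof. `∑_{d1,d2≤z} 1/[d1,d2] = ∑ (d1,d2)/(d1d2) ≤ ∑_g g·g^{-2} (∑ 1/m)²`, and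
`[d1,d2]^{-σ} ≤ z^{2(1-σ)}/[d1,d2]` for `σ ≤ 1` as `[d1,d2] ≤ z²`. -/
def StLcs : Prop := ∀ (z σ : ℝ) (w : ℝ), 1 ≤ z → 1 ≤ w → σ ≤ 1 →
  ∑ d₁ ∈ Icc 1 ⌊z⌋₊, ∑ d₂ ∈ Icc 1 ⌊w⌋₊, (Nat.lcm d₁ d₂ : ℝ) ^ (-σ) ≤
    (z * w) ^ (1 - σ) * (1 + Real.log z) * (1 + Real.log w) * (1 + Real.log (min z w))

/-- KER (the kernel of the dual form).

Proof. `sd(θ)(n)² = ∑_{d1,d2∣n} θθ`. With `D = [d1,d2] ≤ X^{2κ}` and `W = tk κ X`, supported in `[X^{3.5κ}, X^{9.5κ}]`, total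
variation `4`, `W(v) = -∫_v^∞ W'(u)du`: `∑_m ψ(m)m^{-s}W(Dm) = -∫ W'(u) DS ψ (u/D) s du`, where
`u/D ≥ X^{1.5κ}`; by TR1/TR2 (`κ`) `DS = L(s,ψ) + pc ψ (u/D)^{1-s}/(1-s) + O(X^{-c'})`; `∫W' = 0` kills the first term and
an integration by parts turns the second into `pc ψ D^{s-1} ∫ W(u)u^{-s}du` (for `s = 1`, `ψ` principal, by continuity
in `s`). Multiply by `θθψ(D)D^{-s}` and sum; the error is `≤ 4X^{-c'} ∑ D^{-Re s}`, LCS with `z = w = X^κ`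
(`c` small compared to `c'`). -/
def StKer : Prop := ∀ κ : ℝ, 0 < κ → κ ≤ 1 / 10 → ∃ c X0 : ℝ, 0 < c ∧ c ≤ κ / 4 ∧ 2 ≤ X0 ∧
  ∀ (X : ℝ) (q : ℕ) [NeZero q] (ψ : DirichletCharacter ℂ q) (θ : ℕ → ℝ) (s : ℂ), X0 ≤ X →
  (q : ℝ) ≤ X ^ c → (∀ d, |θ d| ≤ 1) → (∀ d : ℕ, X ^ κ < d → θ d = 0) → 1 - c ≤ s.re → s.re ≤ 1 →
  |s.im| ≤ 2 * X →
  ‖∑ n ∈ Icc 1 ⌊X ^ (10 * κ)⌋₊, ((sd θ n ^ 2 * tk κ X n : ℝ) : ℂ) * ψ (n : ZMod q) * (n : ℂ) ^ (-s) -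
    (pc ψ : ℂ) * (∑ d₁ ∈ Icc 1 ⌊X ^ κ⌋₊, ∑ d₂ ∈ Icc 1 ⌊X ^ κ⌋₊,
      ((θ d₁ * θ d₂ / Nat.lcm d₁ d₂ : ℝ) : ℂ) * ψ ((Nat.lcm d₁ d₂ : ℕ) : ZMod q)) *
      ∫ u in Set.Ioi (1 : ℝ), ((tk κ X u : ℝ) : ℂ) * (u : ℂ) ^ (-s)‖ ≤ X ^ (-c)

/-- TNT (transform of the tent). Proof. `u = e^y`, `b = 1 - s`: `∫ = 2e^{bY0} Y1 (e^{w} + e^{-w} - 2)/w²`, `w = bY1`
(`∫_{-1}^{1}(1-|x|)e^{wx}dx`), `Y0 = 6.5κL`, `Y1 = 3κL`; trivially at most `2Y1 e^{Re b (Y0+Y1)}`, and at most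
`8 e^{Re b(Y0+Y1)}/(|b|²Y1)`. -/
def StTnt : Prop := ∀ (κ X : ℝ) (s : ℂ), 0 < κ → 1 < X → s.re ≤ 1 →
  ‖∫ u in Set.Ioi (1 : ℝ), ((tk κ X u : ℝ) : ℂ) * (u : ℂ) ^ (-s)‖ ≤
    6 * κ * Real.log X * X ^ (10 * κ * (1 - s.re)) ∧
  (s.im ≠ 0 → ‖∫ u in Set.Ioi (1 : ℝ), ((tk κ X u : ℝ) : ℂ) * (u : ℂ) ^ (-s)‖ ≤
    3 * X ^ (10 * κ * (1 - s.re)) / (κ * Real.log X * s.im ^ 2))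

/-- DET (detection of zeros).

Proof. `z1 = X^{5κ}`, `z2 = X^{6κ}`, `x = X^{8κ}`. `∑_{n≤x} sd(lam)(n) sd(θ)(n) χ(n) n^{-ρ} = ∑_{d1,d2} lam(d1) θ(d2) χ(D)
D^{-ρ} DS χ (x/D) ρ`, `D = [d1,d2] ≤ X^{7κ}`, so `x/D ≥ X^κ` and by TR1 with `L(ρ,χ) = 0`: `|DS| ≤ X^{-c'}`; LCS bounds
`∑∑ D^{-Re ρ} ≤ X^{7κc}(1+L)^3`. The term `n = 1` is `1`, the terms `1 < n ≤ z1` vanish (AZ0). -/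
def StDet : Prop := ∀ κ : ℝ, 0 < κ → κ ≤ 1 / 10 → ∃ c X0 : ℝ, 0 < c ∧ c ≤ κ / 4 ∧ 2 ≤ X0 ∧
  ∀ (X : ℝ) (e : PCh) (θ : ℕ → ℝ) (ρ : ℂ), X0 ≤ X → (e.r : ℝ) ≤ X ^ c → e.χ ≠ 1 →
  θ 1 = 1 → (∀ d, |θ d| ≤ 1) → (∀ d : ℕ, X ^ κ < d → θ d = 0) → e.L ρ = 0 → 1 - c ≤ ρ.re →
  |ρ.im| ≤ X →
  1 / 2 ≤ ‖∑ n ∈ (Icc 1 ⌊X ^ (8 * κ)⌋₊).filter (fun n : ℕ => X ^ (5 * κ) < n),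
    ((sd (lam (X ^ (5 * κ)) (X ^ (6 * κ))) n * sd θ n : ℝ) : ℂ) * e.ev n * (n : ℂ) ^ (-ρ)‖

/-- LFD (log-free density for well spaced zeros).

Proof. `θ`: SEL with `g(p) = 1/p`, `z = ⌊X^κ⌋`, form `Q = 1/G ≤ 1/(κL)` (HAR). For the family `F` choose unimodular
`η_j` so that DET gives `R/2 ≤ ∑_{z1<n≤X^{8κ}} a(n)θ*(n) ∑_j η_j χ_j(n) n^{-ρ_j}` (`R = card F`, `a = sd lam`, `θ* = sd θ`).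
Cauchy-Schwarz with the weights `1/n` and `tk κ X n ≥ 1` on `[X^{5κ}, X^{8κ}]`:
`R²/4 ≤ (∑ a(n)²/n) · ∑_n θ*(n)² tk(n) n |∑_j η_j χ_j(n) n^{-ρ_j}|² ≤ C ∑_{i,j} |K_ij|`,
`K_ij = ∑_n θ*(n)² tk(n) χ_i conj χ_j (n) n^{-s_ij}`, `s_ij = ρ_i + conj ρ_j - 1`, `1 - 2a ≤ Re s_ij ≤ 1`, `|Im s_ij| ≤ 2X`.
KER with PRD: for `χ_i ≠ χ_j`: `|K_ij| ≤ X^{-c'}` (modulus `r_i r_j ≤ X^{2c}`); for `χ_i = χ_j`: KER with `ψ = 1` mod `r`, DEN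
and TNT: `|K_ij| ≤ Q·min(6κL, 3/(κL τ²)) X^{20κa} + X^{-c'}`, `τ = Im ρ_i - Im ρ_j`. As the `Im ρ` of one character are
`1/L`-spaced, `∑_i min(6κL, 3/(κLτ_ij²)) ≤ 6κL + 2∑_{k≥1} 3L/(κ k²) ≤ C_κ L`. So
`R²/4 ≤ C(R·C_κ' X^{20κa} + R² X^{-c'})`, and `C X^{-c'} ≤ 1/8` for large `X`. -/
def StLfd : Prop := ∀ κ : ℝ, 0 < κ → κ ≤ 1 / 10 → ∃ c C X0 : ℝ, 0 < c ∧ c ≤ κ / 4 ∧ 1 ≤ C ∧ 2 ≤ X0 ∧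
  ∀ (X a : ℝ) (F : Finset (PCh × ℂ)), X0 ≤ X → 0 ≤ a → a ≤ c →
  (∀ v ∈ F, (v.1.r : ℝ) ≤ X ^ c ∧ v.1.χ ≠ 1 ∧ v.1.L v.2 = 0 ∧ 1 - a ≤ v.2.re ∧ |v.2.im| ≤ X) →
  (∀ v ∈ F, ∀ v' ∈ F, v ≠ v' → v.1 = v'.1 → 1 / Real.log X ≤ |v.2.im - v'.2.im|) →
  (F.card : ℝ) ≤ C * X ^ (20 * κ * a)

/-- ZTD (density for `ζ`, with a loss of logarithms).

Proof. `z = X^{3κ}`, `c(n) = ∑_{d∣n,d≤z} μ(d)`, `x0 = X^{5κ}`; `c(1) = 1`, `c(n) = 0` for `1 < n ≤ z`, `|c(n)| ≤ τ(n)`. For a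
zero `ρ = 1 - b + iγ`, TR2 (`κ`, `q = 1`): `S(x) = ∑_{n≤x} c(n)n^{-ρ} = ∑_{d≤z} μ(d)d^{-ρ}(0 + (x/d)^{1-ρ}/(1-ρ) + O(X^{-c'}))
= M x^{1-ρ}/(1-ρ) + O(X^{-c''})` for `x0 ≤ x ≤ 5x0`, `M = ∑_{d≤z} μ(d)/d`. With `x1 = x0 e^{π/|γ|} ≤ 5 x0` we have
`x1^{1-ρ} = -e^{πb/|γ|} x0^{1-ρ}`, so `S(x1) + E S(x0) = O(X^{-c''})`, `E = e^{πb/|γ|} ∈ [1, 5]`. Hence
`|∑_{z<n≤x1} c(n)n^{-ρ}(1 + E·1_{n≤x0})| ≥ 1`. Duality for `R` zeros, `w_j(n) = 1_{n≤x_j} + E_j 1_{n≤x0}`: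
`R² ≤ (∑_{n≤5x0} τ(n)²/n) ∑_{i,j} |K_ij|`, `K_ij = ∑_{n>z} w_i w_j n^{-s_ij}`, `s_ij = ρ_i + conj ρ_j - 1`: a combination with
coefficients `≤ 25` of four sums `∑_{z<n≤v} n^{-s}`; for `i ≠ j` (`|τ| ≥ 1`) TR2 gives `≤ C X^{12κa}/|τ| + X^{-c'}`, for
`i = j` the trivial bound `C X^{12κa} L`. `∑_{n≤y} τ(n)²/n ≤ (1+log y)^4`. The `γ` are 1-spaced:
`∑_i |K_ij| ≤ C X^{12κa} L + R X^{-c'}`; solve for `R`. -/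
def StZtd : Prop := ∀ κ : ℝ, 0 < κ → κ ≤ 1 / 10 → ∃ c C X0 : ℝ, 0 < c ∧ c ≤ κ / 4 ∧ 1 ≤ C ∧ 2 ≤ X0 ∧
  ∀ (X a : ℝ) (F : Finset ℂ), X0 ≤ X → 0 ≤ a → a ≤ c →
  (∀ ρ ∈ F, riemannZeta ρ = 0 ∧ 1 - a ≤ ρ.re ∧ ρ.re ≤ 1 ∧ 2 ≤ |ρ.im| ∧ |ρ.im| ≤ X) →
  (∀ ρ ∈ F, ∀ ρ' ∈ F, ρ ≠ ρ' → 1 ≤ |ρ.im - ρ'.im|) →
  (F.card : ℝ) ≤ C * X ^ (20 * κ * a) * Real.log X ^ 6

end Pool.Agent.Helper23.MV
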