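import Pool.Agent.Helper23.MV.StI

/-!
# Project MV: statements, part P (explicit formula, short intervals). `L = log X`.

Perron kernel: `log⁺(x/n) = (1/2π) ∫ (x/n)^z z^{-2} dy`, `z = σ + iy`, `σ > 1` (`Pool.Agent.Helper90.MT.perron` in
`A4.lean`).
-/

set_option autoImplicit false

namespace Pool.Agent.Helper23.MV

open Finset ArithmeticFunction MeasureTheory
open Pool.Agent.Helper48.BK (ex th Sx Apx)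
open Pool.Agent.Helper2.MR (ch)
open Pool.Agent.Helper15.AB (IsW)
open Pool.Agent.Helper23.GK (GA PP AA cmu)

/-- exceptional data, without a condition on the conductor -/
def OKb (o : Option (PCh × ℝ)) (η : ℝ) : Prop :=
  ∀ (e : PCh) (δ : ℝ), o = some (e, δ) → e.Re ∧ 0 < δ ∧ δ ≤ η ∧
    e.L (1 - (δ : ℂ)) = 0 ∧ mz e (1 - (δ : ℂ)) = 1

/-- zeros near the height `t` -/
noncomputable def Rz (c : PCh) (η X t : ℝ) : Finset ℂ :=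
  (ZF c (2 * η) X).filter (fun ρ => |ρ.im - t| ≤ X ^ (3 * η / 10) + 1)

/-- good frequencies -/
def Gd (c : PCh) (η : ℝ) (X : ℕ) : Set ℝ :=
  {t | (X : ℝ) ^ (η / 10) ≤ |t| ∧ |t| ≤ (X : ℝ) ^ (1 / 2 + η / 400) ∧
    ∀ ρ ∈ ZF c (2 * η) X, (X : ℝ) ^ (η / 10) ≤ |ρ.im - t|}

/-! ### generalities -/

/-- UN2 (unsmoothing). Proof. `h = √B ≤ 1`. The difference of the sums for `x = N(1+h)` and `x = N` is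
`log(1+h) ∑_{n≤N} f(n) + ∑_{N<n≤N(1+h)} f(n) log(N(1+h)/n)`, so `log(1+h)|∑_{n≤N} f| ≤ B N(2+h) + (Nh+1) log(1+h)`, and
`log(1+h) ≥ 0.69 h`. -/
def StUn2 : Prop := ∀ (f : ℕ → ℂ) (N : ℕ) (B : ℝ), 1 ≤ N → 0 < B → B ≤ 1 → (∀ n, ‖f n‖ ≤ 1) →
  (∀ x : ℝ, N ≤ x → x ≤ 2 * N →
    ‖∑ n ∈ Ioc 0 ⌊x⌋₊, f n * ((Real.log (x / n) : ℝ) : ℂ)‖ ≤ B * x) →
  ‖∑ n ∈ Ioc 0 N, f n‖ ≤ 6 * N * √B + 1

/-- CSH (shift of the contour from `Re z = σ` to `Re z = σ0`). `h` is analytic on an open set containing the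
rectangle, with norm at most `B` on the rectangle.

Proof. Cauchy-Goursat (`Complex.integral_boundary_rect_eq_zero_of_differentiableOn`) for
`h(z) x^z z^{-2}`: the left side is `∫` on the line `Re z = σ0` (at most `B x^{σ0} ∫ dy/(σ0²+y²) ≤ 8 B x^{σ0}`) plus two
horizontal segments (at most `B x^σ (σ-σ0)/Y²` each). -/
def StCsh : Prop := ∀ (h : ℂ → ℂ) (U : Set ℂ) (σ₀ σ Y B x : ℝ), 1 / 2 ≤ σ₀ → σ₀ ≤ σ → σ ≤ 3 →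
  1 ≤ Y → 1 ≤ x → 0 ≤ B → IsOpen U → DifferentiableOn ℂ h U →
  (∀ z : ℂ, σ₀ ≤ z.re → z.re ≤ σ → |z.im| ≤ Y → z ∈ U ∧ ‖h z‖ ≤ B) →
  ‖∫ y in (-Y)..Y, h (σ + y * Complex.I) * (x : ℂ) ^ (σ + y * Complex.I : ℂ) /
    (σ + y * Complex.I : ℂ) ^ 2‖ ≤ 10 * B * (x ^ σ₀ + x ^ σ / Y ^ 2)

/-- PID (Perron identity). Proof. `perron` with `u = log(x/n)`, `y = 2πξ`, and absolute convergence
(`∑ |f n| n^{-σ} < ∞`, `∫ dy/(σ²+y²) < ∞`). -/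
def StPid : Prop := ∀ (f : ℕ → ℂ) (σ x : ℝ), 1 < σ → 1 ≤ x → f 0 = 0 →
  Summable (fun n : ℕ => ‖f n‖ * (n : ℝ) ^ (-σ)) →
  ((∑ n ∈ Ioc 0 ⌊x⌋₊, f n * ((Real.log (x / n) : ℝ) : ℂ)) =
    (1 / (2 * Real.pi) : ℂ) * ∫ y : ℝ, (∑' n : ℕ, f n * (n : ℂ) ^ (-(σ + y * Complex.I : ℂ))) *
      (x : ℂ) ^ (σ + y * Complex.I : ℂ) / (σ + y * Complex.I : ℂ) ^ 2)

/-- PKR (kernel of a pole), `1/2 ≤ Re a ≤ 1 < σ`. Proof. `k(u) = (e^{au} - 1 - au)/a²` for `u ≥ 0`, `0` for `u < 0` is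
continuous, `∫_0^∞ k(u) e^{-zu} du = 1/(z²(z-a))` for `Re z = σ`; Fourier inversion of `e^{-σu}k(u)` at `u = log x` as in the
proof of `perron` (`Helper90/MT/A4.lean`). -/
def StPkr : Prop := ∀ (a : ℂ) (σ x : ℝ), 1 / 2 ≤ a.re → a.re ≤ 1 → 1 < σ → 1 ≤ x →
  (1 / (2 * Real.pi) : ℂ) * ∫ y : ℝ, (x : ℂ) ^ (σ + y * Complex.I : ℂ) /
      ((σ + y * Complex.I : ℂ) ^ 2 * ((σ + y * Complex.I : ℂ) - a)) =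
    (x : ℂ) ^ a / a ^ 2 - ((Real.log x : ℝ) : ℂ) / a - 1 / a ^ 2

/-! ### Möbius sums at good heights -/

/-- IN2 (bound for `1/L` at good heights).

Proof. `κ = 1/10000`, `c_κ` from GRW, `η₁ = min(1/100, c_κ/10)`. For `σ ≥ 1 + η`: TFO, `|1/L| ≤ σ/(σ-1) ≤ 2/η`. Otherwise
BCA with `s0 = 1 + η + iτ`, `r = 3η`, `θ = 2/3` (`|σ+iτ - s0| ≤ 2η`): the ball has `Re s > 1 - 2η` and heights within `1` of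
`τ`, so no zeros; by GRW (first part; `|s-1| ≥ 1/4` if `c` is trivial, because `|Im s| ≥ 1 - 3η`) and
`|L(s0)|^{-1} ≤ 2/η`: `|L(s)| ≤ e^M |L(s0)|`, `M = 2κηL + 2 log L + log(2/η)`. So `|1/L| ≤ e^{4M} (2/η) =
X^{8κη} L^8 (2/η)^5 ≤ X^{η/1000}` for large `X`. -/
def StIn2 : Prop := ∃ η₁ : ℝ, 0 < η₁ ∧ η₁ ≤ 1 / 100 ∧ ∀ η : ℝ, 0 < η → η ≤ η₁ → ∃ X0 : ℝ, 2 ≤ X0 ∧
  ∀ (X : ℝ) (c : PCh) (σ τ : ℝ), X0 ≤ X → (c.r : ℝ) ≤ X ^ (η / 400) → |τ| ≤ X →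
  (c.χ = 1 → 1 ≤ |τ|) → (∀ ρ : ℂ, c.L ρ = 0 → 1 - 2 * η ≤ ρ.re → 1 < |ρ.im - τ|) →
  1 - η ≤ σ → σ ≤ 2 →
  c.L (σ + τ * Complex.I) ≠ 0 ∧ ‖(c.L (σ + τ * Complex.I))⁻¹‖ ≤ X ^ (η / 1000)

/-- MGD (Möbius sums at good heights).

Proof. `Y = X^{η/10}/4 - 2`. For `N ≤ x ≤ 2N` apply PID with `f(n) = μ(n)c(n)n^{-iτ}`, `σ = 1 + 1/log x` (the series is
`1/L(σ + i(y+τ))`, Mathlib has `L(s,χ)·LSeries(μχ) = 1`). On `|y| ≤ Y` shift to `σ0 = 1 - η` by CSH, `h(z) = 1/L(z+iτ)`,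
`B = X^{η/1000}` by IN2 (all heights `τ + y`, `|y| ≤ Y`, satisfy its hypotheses; `U` = the set where `L(z+iτ) ≠ 0`,
and `z + iτ ≠ 1` if `c` is trivial): at most `10 X^{η/1000}(x^{1-η} + e x/Y²) ≤ x X^{-η/6}` as `x ≥ X^{1/5}`. The tail `|y| > Y`:
`e x (2/Y)(2 + 2log x)`. So `|∑ f(n) log(x/n)| ≤ x X^{-0.09η}` and UN2 gives `6N X^{-0.045η} + 1`. -/
def StMgd : Prop := ∃ η₁ : ℝ, 0 < η₁ ∧ η₁ ≤ 1 / 100 ∧ ∀ η : ℝ, 0 < η → η ≤ η₁ → ∃ X0 : ℝ, 2 ≤ X0 ∧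
  ∀ (X : ℝ) (c : PCh) (τ : ℝ) (N : ℕ), X0 ≤ X → (c.r : ℝ) ≤ X ^ (η / 400) → |τ| ≤ X / 2 →
  (c.χ = 1 → X ^ (η / 10) / 4 ≤ |τ|) →
  (∀ ρ : ℂ, c.L ρ = 0 → 1 - 2 * η ≤ ρ.re → X ^ (η / 10) / 4 < |ρ.im - τ|) →
  X ^ (1 / 5 : ℝ) ≤ N → N ≤ X ^ 2 →
  ‖∑ n ∈ Ioc 0 N, cmu c.χ n * ch τ n‖ ≤ N * X ^ (-(η / 25))

/-- AAM (Möbius blocks at good heights). Proof. MGD at all `N ∈ [2^{e-1}, 2^e]` (`2^{e-1} ≥ X^{1/4}/2 ≥ X^{1/5}`) and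
partial summation with `1/n`: `|AA| ≤ (1 + 1 + log 2) X^{-η/25}`. -/
def StAam : Prop := ∃ η₁ : ℝ, 0 < η₁ ∧ η₁ ≤ 1 / 100 ∧ ∀ η : ℝ, 0 < η → η ≤ η₁ → ∃ X0 : ℝ, 2 ≤ X0 ∧
  ∀ (X : ℝ) (c : PCh) (τ : ℝ) (e : ℕ), X0 ≤ X → (c.r : ℝ) ≤ X ^ (η / 400) → |τ| ≤ X / 2 →
  (c.χ = 1 → X ^ (η / 10) / 4 ≤ |τ|) →
  (∀ ρ : ℂ, c.L ρ = 0 → 1 - 2 * η ≤ ρ.re → X ^ (η / 10) / 4 < |ρ.im - τ|) →
  X ^ (1 / 4 : ℝ) ≤ 2 ^ e → 2 ^ e ≤ X ^ 2 →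
  ‖AA (cmu c.χ) e τ‖ ≤ 4 * X ^ (-(η / 25))

/-- TG (every tuple of blocks is small in mean square over the good frequencies). Compare `StTup` and
its proof.

Proof. `T = 2X^{1/2+η/400}`, `i*` = index of the largest `e i`, `2^{e i*} ≥ X^{1/4}`, `q = c.r ≤ X^{η/400}`, `L^C` harmless.
(1) `i* ∈ {0,1}`: `2^{e i*} ≤ 4√X`; AAM: `|AA(cmu)| ≤ 4X^{-η/25}` on the set; the product of the other three has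
length `≥ √X/4`, MEA: mean square `≤ L^C X^{η/400}`; total `≤ L^C X^{-0.077η}`.
(2) `i* ∈ {2,3}`, `2^{e i*} ≤ X^{1/2+η/20}`: SU2 with `|τ| ≥ X^{η/10}/2`: `|AA| ≤ C q² L (2X^{-η/10} + X^{-c}) ≤ X^{-0.09η}`
(`η₁ ≤ c`); the rest has length `≥ X^{1/2-η/20}`, MEA: `≤ L^C X^{η/20+η/400}`; total `≤ L^C X^{-0.12η}`.
(3) `i* ∈ {2,3}`, `2^{e i*} > X^{1/2+η/20}`: SU3: `|AA| ≤ C q L (1/|t| + |t|/2^{e i*})`. The part `1/|t|` with the trivial bounds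
SU0 for the others contributes `≤ C q² L^6 X^{-η/10}`; the other part `≤ C q² L^C (T/2^{e i*})² (T 2^{e i*}/X + 1)`, and
`T³/(X 2^{e i*}) ≤ 8 X^{3η/400 - η/20}`, `(T/2^{e i*})² ≤ 4X^{η/200-η/10}`, so with `q² ≤ X^{η/200}` it is `≤ L^C X^{-0.037η}`. -/
def StTg : Prop := ∃ η₁ : ℝ, 0 < η₁ ∧ η₁ ≤ 1 / 100 ∧ ∀ η : ℝ, 0 < η → η ≤ η₁ → ∃ X0 : ℕ, 2 ≤ X0 ∧
  ∀ (X : ℕ) (c : PCh) (e : Fin 4 → ℕ), X0 ≤ X → (c.r : ℝ) ≤ (X : ℝ) ^ (η / 400) →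
  (2 : ℝ) ^ e 0 ≤ 4 * √X → (2 : ℝ) ^ e 1 ≤ 4 * √X → X ≤ 2 ^ (∑ i, e i) → 2 ^ (∑ i, e i) ≤ 64 * X →
  ∫ t in {t : ℝ | (X : ℝ) ^ (η / 10) / 2 ≤ |t| ∧ |t| ≤ 2 * (X : ℝ) ^ (1 / 2 + η / 400) ∧
      ∀ ρ ∈ ZF c (2 * η) X, (X : ℝ) ^ (η / 10) / 2 ≤ |ρ.im - t|}, ‖PP c.χ e t‖ ^ 2 ≤
    (X : ℝ) ^ (-(η / 40))

/-- HG (mean square of `GA` over the good frequencies). Proof as `StHif`: DEC, at most `C L^4` tuples,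
`|GA|² ≤ C L^4 ∑_e (∫|K|) ∫ |K(ξ)||PP(t-ξ)|² dξ`. `|ξ| ≤ X^{η/10}/2`: `Gd - ξ` lies in the set of TG. `X^{η/10}/2 < |ξ| ≤ X`: MEA
with `S = univ` on `[-2X,2X]`: `≤ L^C` and `∫_{|ξ|>X^{η/10}/2} |K| ≤ 4C X^{-η/10}`. `|ξ| > X`: `sup |PP|² ≤ C L²`,
`|Gd| ≤ 2X^{1/2+η/400}`, `∫_{|ξ|>X}|K| ≤ 2C/X`. -/
def StHg : Prop := ∀ w, IsW w → ∃ η₁ : ℝ, 0 < η₁ ∧ η₁ ≤ 1 / 100 ∧ ∀ η : ℝ, 0 < η → η ≤ η₁ →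
  ∃ X0 : ℕ, 2 ≤ X0 ∧
  ∀ (X : ℕ) (c : PCh), X0 ≤ X → (c.r : ℝ) ≤ (X : ℝ) ^ (η / 400) →
  ∫ t in Gd c η X, ‖GA w c.χ X t‖ ^ 2 ≤ (X : ℝ) ^ (-(η / 50))

/-! ### explicit formula -/

/-- GRD (the regularized logarithmic derivative).

Proof. `s = z + it`. Let `V = {1 - 3η/2 < Re z < 2, |Im z| < X^{3η/10} + 1/2}`; zeros of `s ↦ L(s)` with `s - it ∈ V` belong to
`Rz` (FIN; `|Im ρ| ≤ X/2 + X^{3η/10} + 1 ≤ X`), pole only at `s = 1` (`c` trivial). So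
`F(s) = L(s)(s-1)^{[c=1]} ∏_{ρ∈Rz}(s-ρ)^{-m(ρ)}` extends to an analytic function without zeros on `V + it` and `g = -F'/F`.
Bound: let `s0 = 1 + η + i Im s`, `r = 8η`, apply LD2 to `f(s) = L(s)(s-1)^{[c=1]}`; by GRW (`κ = 1/10000`, `7η ≤ c_κ`) and
`|L(s0)| ≥ η/2` we may take `M ≤ L` (if `c` is trivial: for `|s-1| ≤ 4` the second part of GRW, otherwise the first one and
`|s-1| ≤ 2|s0-1|`). For `|s-s0| ≤ 2η = r/4`: `f'/f(s) = ∑_Z m/(s-ρ) + O(M/η)`, `∑_Z m ≤ C M`. Zeros in `Z∖Rz` have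
`Re ρ < 1 - 2η`, hence `|s-ρ| ≥ η`; zeros in `Rz∖Z` have `|s-ρ| ≥ |ρ-s0| - 2η ≥ 2η`; so
`|g| ≤ C(L + ∑_{Rz} m)/η ≤ X^{η/40}` by NUM. At the points where `L(s) = 0` by continuity. -/
def StGrd : Prop := ∃ η₁ : ℝ, 0 < η₁ ∧ η₁ ≤ 1 / 100 ∧ ∀ η : ℝ, 0 < η → η ≤ η₁ → ∃ X0 : ℝ, 2 ≤ X0 ∧
  ∀ (X : ℝ) (c : PCh) (t : ℝ), X0 ≤ X → (c.r : ℝ) ≤ X ^ (η / 400) → |t| ≤ X / 2 →
  ∃ (g : ℂ → ℂ) (U : Set ℂ), IsOpen U ∧ DifferentiableOn ℂ g U ∧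
    (∀ z : ℂ, 1 - η ≤ z.re → z.re ≤ 1 + η → |z.im| ≤ X ^ (3 * η / 10) → z ∈ U ∧ ‖g z‖ ≤ X ^ (η / 40)) ∧
    (∀ z : ℂ, 1 < z.re → g z = -(deriv c.L (z + t * Complex.I) / c.L (z + t * Complex.I)) +
      ∑ ρ ∈ Rz c η X t, (mz c ρ : ℂ) / (z + t * Complex.I - ρ) -
      (if c.χ = 1 then 1 / (z + t * Complex.I - 1) else 0))

/-- PS1 (explicit formula with the weight `log(x/n)`).

Proof. PID with `f(n) = Λ(n)c(n)n^{-it}`, `σ = 1 + 1/log x`: the series is `-L'/L(z+it) = g(z) - ∑ m/(z-(ρ-it)) +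
[c=1]/(z-(1-it))` (GRD). PKR for the poles (`a = ρ - it`, real part in `[1/2,1]`; the terms `log x/a`, `1/a²` sum to at most
`(1 + X^{η/50})(2 log x + 4)`, NUM). The integral of `g`: on `|y| ≤ Y = X^{3η/10}` CSH with `σ0 = 1-η`, `B = X^{η/40}`:
`10X^{η/40}(x^{1-η} + e x X^{-0.6η}) ≤ x X^{-0.4η}` (`x ≥ √X`: `x^{-η} ≤ X^{-η/2}`); on `|y| > Y` the trivial bound
`|g| ≤ (2 + X^{η/50})(log x + C)` and `∫_{|y|>Y} dy/y² ≤ 2/Y`: at most `x X^{-0.27η}`. -/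
def StPs1 : Prop := ∃ η₁ : ℝ, 0 < η₁ ∧ η₁ ≤ 1 / 100 ∧ ∀ η : ℝ, 0 < η → η ≤ η₁ → ∃ X0 : ℝ, 2 ≤ X0 ∧
  ∀ (X : ℝ) (c : PCh) (t x : ℝ), X0 ≤ X → (c.r : ℝ) ≤ X ^ (η / 400) → |t| ≤ X / 2 → √X ≤ x →
  x ≤ X ^ 2 →
  ‖Ps c t x - (if c.χ = 1 then (x : ℂ) ^ (1 - t * Complex.I) / (1 - t * Complex.I) ^ 2 else 0) +
    ∑ ρ ∈ Rz c η X t, (mz c ρ : ℂ) * (x : ℂ) ^ (ρ - t * Complex.I) / (ρ - t * Complex.I) ^ 2‖ ≤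
  x * X ^ (-(13 * η / 50))

/-- WHB (the transform `wh`; sums with the weight `w`).

Proof. `w` is `C^4` with support in `[0,1]`: two integrations by parts give `z² wh w z = ∫ w''(v)e^{zv}dv` (bounded by
`e sup|w''|` for `Re z ≤ 1`) and the identity in the second part (`w(0) = w(1) = w'(0) = w'(1) = 0`). Third part:
`f(u) = w(log(u/X)) u^{-1-s}` is supported on `[X, eX]`, `∫ f = X^{-s} wh w (-s)` (`u = X e^v`),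
`|∑ f(m) - ∫ f| ≤ ∫ |f'| ≤ C(1+|s|)/X`. -/
def StWhb : Prop := ∀ w, IsW w → ∃ C : ℝ, 1 ≤ C ∧
  (∀ z : ℂ, z.re ≤ 1 → ‖wh w z‖ ≤ C / (1 + ‖z‖ ^ 2)) ∧
  (∀ z : ℂ, ∫ v in (0 : ℝ)..1, ((deriv (deriv w) v - 2 * deriv w v + w v : ℝ) : ℂ) *
    Complex.exp (z * v) = (z + 1) ^ 2 * wh w z) ∧
  ∀ (X : ℕ) (s : ℂ), 1 ≤ X → 0 ≤ s.re → s.re ≤ 1 →
    ‖∑ m ∈ Icc 1 (3 * X), ((w (Real.log (m / X)) : ℝ) : ℂ) * (m : ℂ) ^ (-1 - s) -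
      (X : ℂ) ^ (-s) * wh w (-s)‖ ≤ C * (1 + ‖s‖) / X

/-- G0 (`GA` as an average of `Ps`).

Proof. For `φ` of class `C²` with compact support `φ(a) = ∫_a^∞ φ''(v)(v-a)dv`. Take `φ(v) = w(v - log X)e^{-v}`,
`φ''(v) = (w''-2w'+w)(v-log X)e^{-v}`, `a = log m`, multiply by `Λ(m)c(m)m^{-it}` and sum (`v - log m = log(e^v/m)`, only
`m ≤ e^v ≤ eX`), `v = log X + u`. -/
def StG0 : Prop := ∀ w, IsW w → ∀ (c : PCh) (X : ℕ) (t : ℝ), 1 ≤ X →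
  GA w c.χ X t = ∫ u in (0 : ℝ)..1, ((deriv (deriv w) u - 2 * deriv w u + w u : ℝ) : ℂ) *
    Ps c t (X * Real.exp u) / ((X * Real.exp u : ℝ) : ℂ)

/-- EXG (explicit formula for `GA`).

Proof. Insert PS1 (`x = X e^u ∈ [X, eX]`) in G0. With `a = ρ - it`: `∫_0^1 (w''-2w'+w)(u) x^{a-1}/a² du = X^{a-1} wh w (a-1)` by WHB
(`z = a - 1`). The error is `≤ C X^{-0.26η}`. The zeros of `ZF c (2η) X` which are not in `Rz` have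
`|wh w (ρ-1-it)| ≤ C X^{-0.6η}`, and their number is `≤ X^{η/50}`. -/
def StExg : Prop := ∀ w, IsW w → ∃ η₁ : ℝ, 0 < η₁ ∧ η₁ ≤ 1 / 100 ∧ ∀ η : ℝ, 0 < η → η ≤ η₁ →
  ∃ X0 : ℕ, 2 ≤ X0 ∧
  ∀ (X : ℕ) (c : PCh) (t : ℝ), X0 ≤ X → (c.r : ℝ) ≤ (X : ℝ) ^ (η / 400) → |t| ≤ X / 2 →
  ‖GA w c.χ X t - (if c.χ = 1 then (X : ℂ) ^ (-(t * Complex.I)) * wh w (-(t * Complex.I)) else 0) +
    ∑ ρ ∈ ZF c (2 * η) X, (mz c ρ : ℂ) * (X : ℂ) ^ (ρ - 1 - t * Complex.I) *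
      wh w (ρ - 1 - t * Complex.I)‖ ≤ (X : ℝ) ^ (-(η / 4))

/-- GBF (explicit formula for `GO`).

Proof. `GO = GA - ∑ w(log(m/X)) mwt(m) m^{-1-it}`. `c` trivial: WHB with `s = it` cancels the main term. `c = e`
exceptional: WHB with `s = δ + it`; the zero `ρ = 1-δ` belongs to `ZF c (2η) X` with multiplicity `1` and its term
`X^{-δ-it} wh w (-δ-it)` cancels. Other `c`: `mwt = 0`, `Zex = ZF`. Error `X^{-η/4} + C(2+|t|)/X`. -/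
def StGbf : Prop := ∀ w, IsW w → ∃ η₁ : ℝ, 0 < η₁ ∧ η₁ ≤ 1 / 100 ∧ ∀ η : ℝ, 0 < η → η ≤ η₁ →
  ∃ X0 : ℕ, 2 ≤ X0 ∧
  ∀ (X : ℕ) (o : Option (PCh × ℝ)) (c : PCh) (t : ℝ), X0 ≤ X → OKb o η →
  (c.r : ℝ) ≤ (X : ℝ) ^ (η / 400) → |t| ≤ (X : ℝ) ^ (3 / 4 : ℝ) →
  ‖GO o c w X t + ∑ ρ ∈ Zex o c (2 * η) X, (mz c ρ : ℂ) * (X : ℂ) ^ (ρ - 1 - t * Complex.I) *
      wh w (ρ - 1 - t * Complex.I)‖ ≤ (X : ℝ) ^ (-(η / 5))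

/-- BDL (bad frequencies). Proof. First part: `Bd` is a union of at most `1 + X^{η/50}` (NUM; `mz ≥ 1`) intervals of
length `2X^{η/10}`. Second part: GBF, `∫ |wh w (ρ-1-it)| dt ≤ ∫ C/(1+(Im ρ - t)²)dt = πC`, and
`X^{-η/5} X^{η/8} ≤ X^{-η/20}`. -/
def StBdl : Prop := (∃ η₁ : ℝ, 0 < η₁ ∧ η₁ ≤ 1 / 100 ∧ ∀ η : ℝ, 0 < η → η ≤ η₁ →
    ∃ X0 : ℕ, 2 ≤ X0 ∧ ∀ (X : ℕ) (c : PCh), X0 ≤ X → (c.r : ℝ) ≤ (X : ℝ) ^ (η / 400) →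
    MeasurableSet (Bd c η X) ∧ volume (Bd c η X) ≤ ENNReal.ofReal ((X : ℝ) ^ (η / 8))) ∧
  ∀ w, IsW w → ∃ C : ℝ, 1 ≤ C ∧ ∃ η₁ : ℝ, 0 < η₁ ∧ η₁ ≤ 1 / 100 ∧ ∀ η : ℝ, 0 < η → η ≤ η₁ →
  ∃ X0 : ℕ, 2 ≤ X0 ∧
  ∀ (X : ℕ) (o : Option (PCh × ℝ)) (c : PCh) (A : Set ℝ), X0 ≤ X → OKb o η →
  (c.r : ℝ) ≤ (X : ℝ) ^ (η / 400) → MeasurableSet A →
  A ⊆ Set.Icc (-(X : ℝ) ^ (3 / 4 : ℝ)) ((X : ℝ) ^ (3 / 4 : ℝ)) →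
  volume A ≤ ENNReal.ofReal ((X : ℝ) ^ (η / 8)) →
  ∫ t in A, ‖GO o c w X t‖ ≤ C * ZS o c (2 * η) X X + (X : ℝ) ^ (-(η / 20))

/-- GG (mean square of `GO` over the good frequencies). Proof. HG and `GO = GA - ∑ w(log(m/X)) mwt(m) m^{-1-it}`; by WHB
the last sum is at most `C/(1+t²) + C(2+|t|)/X`, with mean square over `Gd` at most
`C(X^{-3η/10} + X^{3/2+3η/400-2})`. -/
def StGg : Prop := ∀ w, IsW w → ∃ η₁ : ℝ, 0 < η₁ ∧ η₁ ≤ 1 / 100 ∧ ∀ η : ℝ, 0 < η → η ≤ η₁ →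
  ∃ X0 : ℕ, 2 ≤ X0 ∧
  ∀ (X : ℕ) (o : Option (PCh × ℝ)) (c : PCh), X0 ≤ X → OKb o η →
  (c.r : ℝ) ≤ (X : ℝ) ^ (η / 400) →
  ∫ t in Gd c η X, ‖GO o c w X t‖ ^ 2 ≤ (X : ℝ) ^ (-(η / 60))

/-! ### windows -/

/-- Gaussian windows of `gm` -/
noncomputable def Wg (o : Option (PCh × ℝ)) (c : PCh) (w : ℝ → ℝ) (X : ℕ) (T u : ℝ) : ℂ :=
  ∑ m ∈ Icc 1 (3 * X), gm o c w X m / m *
    ((T * Real.exp (-(T ^ 2 * (u - Real.log m) ^ 2 / 2)) : ℝ) : ℂ)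

/-- GWF (Gaussian windows through frequencies). Proof. `T e^{-T²v²/2} = (2π)^{-1/2} ∫ e^{-t²/(2T²)} e^{itv} dt`, so
`Wg(u) = (2π)^{-1/2} ∫ e^{-t²/(2T²)} e^{itu} GO(t) dt`. Split the integral: `A` (measurable, contained in
`[-X,X]`) gives `W1`, the rest is at most `∫_{Gg} ..=: W2` plus the tail. Here for a measurable `S`:
`∫ |(2π)^{-1/2}∫_S F(t)e^{itu}dt|² du = ∫_S |F|²` (Plancherel), `F(t) = e^{-t²/(2T²)}GO(t)`. Integrals converge since `GO` is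
bounded by `∑|gm(m)|/m` and continuous. -/
def StGwf : Prop := ∀ (o : Option (PCh × ℝ)) (c : PCh) (w : ℝ → ℝ) (X : ℕ) (T : ℝ) (S : Set ℝ),
  1 ≤ X → 0 < T → MeasurableSet S → ∃ W2 : ℝ → ℂ, Continuous W2 ∧
  (∀ u, ‖Wg o c w X T u - W2 u‖ ≤ ∫ t in Sᶜ, Real.exp (-(t ^ 2 / (2 * T ^ 2))) * ‖GO o c w X t‖) ∧
  Integrable (fun u => ‖W2 u‖ ^ 2) ∧
  ∫ u, ‖W2 u‖ ^ 2 ≤ ∫ t in S, Real.exp (-(t ^ 2 / T ^ 2)) * ‖GO o c w X t‖ ^ 2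

/-- SPB (short Gaussian windows, `T = X^{1/2+η/500}`).

Proof. GWF with `S = Gd` (closed set). The complement consists of a part of `Bd ∩ {|t| ≤ X^{1/2+η/400}}` (BDL: at most
`C ZS + X^{-η/20}`) and of `|t| > X^{1/2+η/400} = T X^{η/2000}`, where `|GO| ≤ C L` (`|gm(m)| ≤ C(1+log m)` on `[X,eX]`) and the
Gaussian is at most `e^{-t²/(4T²)} e^{-X^{η/1000}/4}`. `W2`: GG. -/
def StSpb : Prop := ∀ w, IsW w → ∃ C : ℝ, 1 ≤ C ∧ ∃ η₁ : ℝ, 0 < η₁ ∧ η₁ ≤ 1 / 100 ∧ ∀ η : ℝ, 0 < η → η ≤ η₁ →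
  ∃ X0 : ℕ, 2 ≤ X0 ∧
  ∀ (X : ℕ) (o : Option (PCh × ℝ)) (c : PCh), X0 ≤ X → OKb o η →
  (c.r : ℝ) ≤ (X : ℝ) ^ (η / 400) →
  ∃ W2 : ℝ → ℂ, Continuous W2 ∧
    (∀ u, ‖Wg o c w X ((X : ℝ) ^ (1 / 2 + η / 500)) u - W2 u‖ ≤
      C * ZS o c (2 * η) X X + 2 * (X : ℝ) ^ (-(η / 20))) ∧
    Integrable (fun u => ‖W2 u‖ ^ 2) ∧ ∫ u, ‖W2 u‖ ^ 2 ≤ (X : ℝ) ^ (-(η / 60))

/-- SPA (long Gaussian windows, `T = X^{η/20}`). Proof. GWF with `S = ∅` (`W2 = 0`), BDL with `A = {|t| ≤ X^{η/10}}`; for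
`|t| > X^{η/10} = T X^{η/20}` the Gaussian factor is at most `e^{-t²/(4T²)} e^{-X^{η/10}/4}`. -/
def StSpa : Prop := ∀ w, IsW w → ∃ C : ℝ, 1 ≤ C ∧ ∃ η₁ : ℝ, 0 < η₁ ∧ η₁ ≤ 1 / 100 ∧ ∀ η : ℝ, 0 < η → η ≤ η₁ →
  ∃ X0 : ℕ, 2 ≤ X0 ∧
  ∀ (X : ℕ) (o : Option (PCh × ℝ)) (c : PCh) (u : ℝ), X0 ≤ X → OKb o η →
  (c.r : ℝ) ≤ (X : ℝ) ^ (η / 400) →
  ‖Wg o c w X ((X : ℝ) ^ (η / 20)) u‖ ≤ C * ZS o c (2 * η) X X + 2 * (X : ℝ) ^ (-(η / 20))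

/-- SHC (sharp windows, complex version of `StSha`). Proof. `StSha` (`AllGK.sha`) for the real and the imaginary part of
`gm o c w X` (put equal to `0` outside `[1, 3X]`), `|gm(m)| ≤ C L` for `X ≥ 2` (`w` bounded, `Λ(m) ≤ log m`, `|mwt| ≤ 2`); the
windows of `Re g` are the real parts of the windows of `g`, so at most `‖Wg‖`. -/
def StShc : Prop := ∀ w, IsW w → ∃ C : ℝ, 1 ≤ C ∧ ∀ (X H : ℕ) (o : Option (PCh × ℝ)) (c : PCh)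
  (T x : ℝ), 2 ≤ X → H ≤ X → 1 ≤ T → T ≤ X → OKb o 1 → (X : ℝ) / 2 ≤ x → x + H ≤ 3 * X →
  ‖∑ m ∈ (Icc 1 (3 * X)).filter (fun m : ℕ => x < (m : ℝ) ∧ (m : ℝ) ≤ x + H), gm o c w X m / m‖ ≤
    2 * (∫ u in (Real.log x)..(Real.log (x + H)), ‖Wg o c w X T u‖) + C * Real.log X / T

/-- FSX: proof of FS.

`X1 = ⌊1.8 H⌋`, `H = ⌊√X⌋` (`X1 e^{0.1} < 2H`, `3H < X1 e^{0.9}`, `X1 ≥ √X`), `w` an admissible weight (`StWE` of `Helper15/AB`,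
`w ≥ 0.001` on `[0.1,0.9]`). Conductors: `X^{η/1000} ≤ X1^{η/400}`. For `2H ≤ x ≤ u ≤ x+l`: SHC and SPA at the scale
`X1`, `T = X1^{η/20}`: `|S(u)| ≤ 2(l/x)(C ZS1 + 2X1^{-η/20}) + C L X1^{-η/20}`, `S(u) = ∑_{x<m≤u} gm(m)/m`. Partial summation
with `m/w(log(m/X1))` (size `≤ C X1`, derivative bounded): `|∑_{x<m≤x+l} (Λ c - mwt)| ≤ C X1 sup|S| ≤
C(l ZS1 + X1^{1-η/20} L)`. `X1^{-η/20} L ≤ X^{-η/50}`. `ZS1 = ZS o c (2η) X1 X1 ≤ ZS o c (2η) X √X` as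
`X1 ≤ X`, `X1 ≥ √X`, `Re ρ < 1`. Finally `Λ - th` lives on proper prime powers, `∑ ≤ C√H L²`. -/
def StFsx : Prop := StSpa → StShc → StFs

/-- GSX: proof of GS.

`X1 = ⌊0.85X⌋` (`X1 e^{0.1} ≤ X - 6H`, `2X + 2H ≤ X1 e^{0.9}` for large `X`), `T = X1^{1/2+η/500}`, SHC and SPB: for `y` in the range
`|∑_{y<m≤y+l} gm(m)/m| ≤ (2l/y)(C ZS1 + 2X1^{-η/20}) + 2∫_{log y}^{log(y+l)} |W2| + C L/T`. As `w` is Lipschitz and `≥ 0.001`,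
`∑_{y<m≤y+l} gm(m)/m = (w(log(y/X1))/y) ∑ (Λ c - mwt) + O(l² L/y²)`. So `|∑(Λc - mwt)| ≤ C(l ZS1 + l X^{-η/25} + √X X^{-η/600}
+ L) + C X ∫_{log y}^{log(y+l)} |W2|`, also for `th` in place of `Λ` (an interval of length `≤ √X` contains at most `C L` proper prime
powers, contribution `C L²`). So the positive part is at most `C X ∫_{log y}^{log(y+l)}|W2|` and by Cauchy-Schwarz, since
each `u` lies in at most `l+1` windows, `∑_y (..)² ≤ C² X² (l/y)(l+1) ∫|W2|² ≤ C' X l (l+1) X^{-η/60} ≤ X² X^{-η/100}`. -/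
def StGsx : Prop := StSpb → StShc → StGs

end Pool.Agent.Helper23.MV
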